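import Pool.Agent.Helper60.MA.Defs

set_option autoImplicit false

/-!
# MA-7 Count: values of a finite dimensional `Q`-space

`card_le`: a family `w : Fin s → L` algebraically independent over `k` of elements algebraic over
`k(z_1, ..., z_d)` has `s ≤ d`.  PROOF. Transcendence degree of the algebraic closure of `k(z)` in `L`
is at most `d` (`Algebra.trdeg`, exchange; for instance choose a transcendence basis of
`k(z) / k` among the `z_i` (`exists_isTranscendenceBasis_subset`), it is one of the relative algebraic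
closure too, and `AlgebraicIndependent.cardinalMk_le_trdeg`,
`IsTranscendenceBasis.cardinalMk_eq_trdeg`).

`count_group`: `Q` between `k` and `L`, all elements of `Q` algebraic over `k(z)`. The set
`H = {u(q) | q ∈ Q, q ≠ 0}` is a subgroup of `ℤ^N` (`u` additive, `Flag.map_mul`), and
`#(H ∩ [-R, R]^N) ≤ (2 R + 1)^d`.  PROOF. Let `V` be the `ℚ`-span of `H` in `ℚ^N`, of dimension `s`.
`s ≤ d`: choose `q_1, ..., q_s` in `Q` with `u(q_i)` linearly independent over `ℚ`; then the `q_i` are
algebraically independent over `k`: in a relation `∑ c_a q^a = 0` the monomials have pairwise different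
values `∑ a_i u(q_i)`, so the sum of the nonzero terms is nonzero (`Flag.map_add` is an
equality for different values; compare `d3_sum_lt`, `d7_sum` and `two_terms` in Helper47/PQ/D3, D7); use
`card_le`. There are `s` coordinates whose restrictions to `V` are injective together (as in
`semigroup_upper`, Helper47/PQ/D6), so `H ∩ [-R, R]^N` injects into `[-R, R]^s`.
-/

namespace Pool.Agent.Helper60.MA

open Pool.Agent.Helper92.Weak Pool.Agent.Helper47.PQ

variable {k L : Type*} [Field k] [Field L] [Algebra k L]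

theorem card_le {d s : ℕ} (z : Fin d → L) (w : Fin s → L) (hw : AlgebraicIndependent k w)
    (halg : ∀ i, IsAlgebraic (IntermediateField.adjoin k (Set.range z)) (w i)) : s ≤ d := by
  classical
  have h1 : (AlgebraicIndependent.matroid k L).Indep (Set.range w) :=
    AlgebraicIndependent.matroid_indep_iff.2 hw.to_subtype_range
  have h2 : Set.range w ⊆ (AlgebraicIndependent.matroid k L).closure (Set.range z) := by
    rw [AlgebraicIndependent.matroid_closure_eq]
    rintro _ ⟨i, rfl⟩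
    exact IntermediateField.isAlgebraic_adjoin_iff.1 (halg i)
  have h3 := h1.encard_le_eRk_of_subset h2
  rw [Matroid.eRk_closure_eq] at h3
  have h4 := h3.trans (Matroid.eRk_le_encard _ _)
  have h5 : (Set.range w).encard = (s : ℕ∞) := by
    rw [← Set.image_univ, hw.injective.encard_image, Set.encard_univ]
    simp
  have h6 : (Set.range z).encard ≤ (d : ℕ∞) := by
    rw [← Set.image_univ]
    refine (Set.encard_image_le _ _).trans ?_
    rw [Set.encard_univ]
    simp
  rw [h5] at h4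
  exact_mod_cast h4.trans h6

private theorem ct_sum_ne {N : ℕ} (Φ : Flag k L N) {ι : Type*} (s : Finset ι) (t : ι → L)
    (hs : s.Nonempty) (ht : ∀ i ∈ s, t i ≠ 0)
    (hinj : ∀ i ∈ s, ∀ j ∈ s, Φ.u (t i) = Φ.u (t j) → i = j) : ∑ i ∈ s, t i ≠ 0 := by
  classical
  obtain ⟨i₀, hi₀, hmax⟩ := Finset.exists_max_image s (fun i => Φ.u (t i)) hs
  intro h0
  rw [← Finset.add_sum_erase s t hi₀] at h0
  have h1 : ∑ i ∈ s.erase i₀, t i = -t i₀ := by linear_combination h0
  have h2 : ∑ i ∈ s.erase i₀, t i ≠ 0 := by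
    rw [h1]
    exact neg_ne_zero.2 (ht i₀ hi₀)
  have h3 := d3_sum_lt Φ (s.erase i₀) t (Φ.u (t i₀)) (fun i hi _ => by
    have hi' := Finset.mem_erase.1 hi
    exact lt_of_le_of_ne (hmax i hi'.2) fun h => hi'.1 (hinj i hi'.2 i₀ hi₀ h)) h2
  rw [h1, d3_neg] at h3
  exact lt_irrefl _ h3

private theorem ct_prod {N : ℕ} (Φ : Flag k L N) {ι : Type*} (s : Finset ι) (f : ι → L)
    (hf : ∀ i ∈ s, f i ≠ 0) : Φ.u (∏ i ∈ s, f i) = ∑ i ∈ s, Φ.u (f i) := by
  classical
  induction s using Finset.induction_on with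
  | empty => rw [Finset.prod_empty, Finset.sum_empty, d3_one]
  | insert a s ha ih =>
    rw [Finset.prod_insert ha, Finset.sum_insert ha, Φ.map_mul _ _
      (hf a (Finset.mem_insert_self a s))
      (Finset.prod_ne_zero_iff.2 fun i hi => hf i (Finset.mem_insert_of_mem hi)),
      ih (fun i hi => hf i (Finset.mem_insert_of_mem hi))]

/-- the value as a rational vector -/
private def ctv {N : ℕ} (Φ : Flag k L N) (q : L) : Fin N → ℚ := fun i => ((ofLex (Φ.u q)) i : ℚ)

private theorem ct_ai {N : ℕ} (Φ : Flag k L N) {κ : Type*} [Fintype κ] (x : κ → L)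
    (hx : ∀ j, x j ≠ 0) (hli : LinearIndependent ℚ (fun j => ctv Φ (x j))) :
    AlgebraicIndependent k x := by
  classical
  rw [algebraicIndependent_iff]
  intro p hp
  by_contra hp0
  rw [MvPolynomial.aeval_def, MvPolynomial.eval₂_eq'] at hp
  have hc : ∀ m ∈ p.support, algebraMap k L (p.coeff m) ≠ 0 := fun m hm =>
    (map_ne_zero _).2 (MvPolynomial.mem_support_iff.1 hm)
  have hpr : ∀ m : κ →₀ ℕ, ∏ j, x j ^ m j ≠ 0 := fun m =>
    Finset.prod_ne_zero_iff.2 fun j _ => pow_ne_zero _ (hx j)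
  have hu : ∀ m ∈ p.support, Φ.u (algebraMap k L (p.coeff m) * ∏ j, x j ^ m j) =
      ∑ j, m j • Φ.u (x j) := by
    intro m hm
    rw [Φ.map_mul _ _ (hc m hm) (hpr m), Φ.map_const _ (MvPolynomial.mem_support_iff.1 hm),
      zero_add, ct_prod Φ _ _ (fun j _ => pow_ne_zero _ (hx j))]
    exact Finset.sum_congr rfl fun j _ => d3_pow Φ (hx j) (m j)
  refine ct_sum_ne Φ p.support _ (MvPolynomial.support_nonempty.2 hp0)
    (fun m hm => mul_ne_zero (hc m hm) (hpr m)) ?_ hp
  intro m hm m' hm' h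
  rw [hu m hm, hu m' hm'] at h
  have h1 : ∑ j, ((m j : ℚ) - (m' j : ℚ)) • ctv Φ (x j) = 0 := by
    funext i
    have h2 := congrArg (fun y : Lex (Fin N → ℤ) => ((ofLex y) i : ℤ)) h
    have h3 : ∀ m : κ →₀ ℕ, (ofLex (∑ j, m j • Φ.u (x j))) i =
        ∑ j, (m j : ℤ) * (ofLex (Φ.u (x j))) i := by
      intro m
      have h4 : ∀ s : Finset κ, (ofLex (∑ j ∈ s, m j • Φ.u (x j))) i =
          ∑ j ∈ s, (m j : ℤ) * (ofLex (Φ.u (x j))) i := by
        intro s
        induction s using Finset.induction_on with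
        | empty => rfl
        | insert a s ha ih =>
          rw [Finset.sum_insert ha, Finset.sum_insert ha, ← ih]
          rw [← nsmul_eq_mul]
          rfl
      exact h4 _
    replace h2 : (ofLex (∑ j, m j • Φ.u (x j))) i = (ofLex (∑ j, m' j • Φ.u (x j))) i := h2
    rw [h3, h3] at h2
    rw [Finset.sum_apply]
    simp only [Pi.smul_apply, smul_eq_mul, Pi.zero_apply, ctv]
    have h5 : ∑ j, (m j : ℚ) * ((ofLex (Φ.u (x j))) i : ℚ) =
        ∑ j, (m' j : ℚ) * ((ofLex (Φ.u (x j))) i : ℚ) := by exact_mod_cast h2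
    simp only [sub_mul]
    rw [Finset.sum_sub_distrib, h5, sub_self]
  have h2 := Fintype.linearIndependent_iff.1 hli _ h1
  ext j
  have h3 := h2 j
  have h4 : (m j : ℚ) = (m' j : ℚ) := by linarith
  exact_mod_cast h4

private theorem ct_rank {N : ℕ} (Φ : Flag k L N) (Q : IntermediateField k L) {d : ℕ}
    (z : Fin d → L)
    (halg : ∀ x ∈ Q, IsAlgebraic (IntermediateField.adjoin k (Set.range z)) x) :
    Module.finrank ℚ (Submodule.span ℚ
      (Set.range fun q : {q : L // q ∈ Q ∧ q ≠ 0} => ctv Φ q.1)) ≤ d := by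
  classical
  obtain ⟨κ, a, ha, hspan, hli⟩ := exists_linearIndependent' ℚ
    (fun q : {q : L // q ∈ Q ∧ q ≠ 0} => ctv Φ q.1)
  have hκ : Finite κ := Cardinal.lt_aleph0_iff_finite.1 hli.lt_aleph0_of_finite
  have := Fintype.ofFinite κ
  have hcard : Fintype.card κ = Module.finrank ℚ (Submodule.span ℚ
      (Set.range fun q : {q : L // q ∈ Q ∧ q ≠ 0} => ctv Φ q.1)) := by
    rw [← finrank_span_eq_card hli, hspan]
  rw [← hcard]
  have h1 : AlgebraicIndependent k (fun j : κ => (a j).1) :=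
    ct_ai Φ _ (fun j => (a j).2.2) hli
  have h2 := h1.comp (Fintype.equivFin κ).symm (Fintype.equivFin κ).symm.injective
  exact card_le z _ h2 fun i => halg _ (a ((Fintype.equivFin κ).symm i)).2.1

theorem count_group {N : ℕ} (Φ : Flag k L N) (Q : IntermediateField k L) {d : ℕ} (z : Fin d → L)
    (halg : ∀ x ∈ Q, IsAlgebraic (IntermediateField.adjoin k (Set.range z)) x) (R : ℕ) :
    {x : Fin N → ℤ | (∃ q ∈ Q, q ≠ 0 ∧ ofLex (Φ.u q) = x) ∧ ∀ i, |x i| ≤ R}.Finite ∧
    {x : Fin N → ℤ | (∃ q ∈ Q, q ≠ 0 ∧ ofLex (Φ.u q) = x) ∧ ∀ i, |x i| ≤ R}.ncard ≤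
      (2 * R + 1) ^ d := by
  classical
  set V : Submodule ℚ (Fin N → ℚ) := Submodule.span ℚ
      (Set.range fun q : {q : L // q ∈ Q ∧ q ≠ 0} => ctv Φ q.1) with hV
  have hVd : Module.finrank ℚ V ≤ d := ct_rank Φ Q z halg
  set f : Fin N → Module.Dual ℚ V := fun i => (LinearMap.proj i).comp V.subtype with hf
  obtain ⟨κ, a, ha, hspan, hli⟩ := exists_linearIndependent' ℚ f
  have hfin : Finite κ := Finite.of_injective a ha
  have := Fintype.ofFinite κ
  have hcard : Fintype.card κ ≤ d := by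
    refine hli.fintype_card_le_finrank.trans ?_
    rw [Subspace.dual_finrank_eq]
    exact hVd
  have hsep : ∀ v : V, (∀ j, f (a j) v = 0) → v = 0 := by
    intro v hv
    have h2 : ∀ φ ∈ Submodule.span ℚ (Set.range f), φ v = 0 := by
      intro φ hφ
      rw [← hspan] at hφ
      induction hφ using Submodule.span_induction with
      | mem φ hφ =>
        obtain ⟨j, rfl⟩ := hφ
        exact hv j
      | zero => rfl
      | add φ ψ _ _ h3 h4 => rw [LinearMap.add_apply, h3, h4, add_zero]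
      | smul t φ _ h3 => rw [LinearMap.smul_apply, h3, smul_zero]
    apply Subtype.ext
    funext i
    exact h2 (f i) (Submodule.subset_span ⟨i, rfl⟩)
  set G : Set (Fin N → ℤ) := {x : Fin N → ℤ | (∃ q ∈ Q, q ≠ 0 ∧ ofLex (Φ.u q) = x) ∧
    ∀ i, |x i| ≤ R} with hG
  -- the box
  set B : Finset (κ → ℤ) := Fintype.piFinset fun _ : κ => Finset.Icc (-(R : ℤ)) R with hB
  have hBcard : B.card = (2 * R + 1) ^ Fintype.card κ := by
    rw [hB, Fintype.card_piFinset, Finset.prod_const, Int.card_Icc, Finset.card_univ]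
    congr 1
    have : (R : ℤ) + 1 - -(R : ℤ) = ((2 * R + 1 : ℕ) : ℤ) := by
      push_cast
      ring
    rw [this]
    exact Int.toNat_natCast _
  set F : (Fin N → ℤ) → (κ → ℤ) := fun x j => x (a j) with hF
  have hmaps : ∀ x ∈ G, F x ∈ (B : Set (κ → ℤ)) := by
    intro x hx
    rw [Finset.mem_coe, hB, Fintype.mem_piFinset]
    intro j
    rw [Finset.mem_Icc, ← abs_le]
    exact hx.2 (a j)
  have hmemV : ∀ x ∈ G, (fun i => (x i : ℚ)) ∈ V := by
    rintro x ⟨⟨q, hq, hq0, rfl⟩, -⟩
    exact Submodule.subset_span ⟨⟨q, hq, hq0⟩, rfl⟩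
  have hinj : Set.InjOn F G := by
    intro x hx y hy hxy
    have h4 : (fun i => (x i : ℚ)) - (fun i => (y i : ℚ)) ∈ V :=
      V.sub_mem (hmemV x hx) (hmemV y hy)
    have h5 := hsep ⟨_, h4⟩ fun j => by
      have h6 : x (a j) = y (a j) := congrFun hxy j
      show ((x (a j) : ℤ) : ℚ) - ((y (a j) : ℤ) : ℚ) = 0
      rw [h6, sub_self]
    have h7 := congrArg Subtype.val h5
    funext i
    have h8 : ((x i : ℤ) : ℚ) - ((y i : ℤ) : ℚ) = 0 := congrFun h7 i
    have h9 : ((x i : ℤ) : ℚ) = ((y i : ℤ) : ℚ) := sub_eq_zero.mp h8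
    exact_mod_cast h9
  refine ⟨Set.Finite.of_finite_image
    (B.finite_toSet.subset (Set.image_subset_iff.mpr hmaps)) hinj, ?_⟩
  calc G.ncard = (F '' G).ncard := hinj.ncard_image.symm
    _ ≤ (B : Set (κ → ℤ)).ncard :=
      Set.ncard_le_ncard (Set.image_subset_iff.mpr hmaps) B.finite_toSet
    _ = (2 * R + 1) ^ Fintype.card κ := by rw [Set.ncard_coe_finset, hBcard]
    _ ≤ (2 * R + 1) ^ d := Nat.pow_le_pow_right (by omega) hcard

end Pool.Agent.Helper60.MA
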