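import Pool.Agent.Helper60.MA.Count

set_option autoImplicit false

/-!
# MA-7b CountE: values of a finite dimensional `Q`-space

`count`: let `E` be a finite dimensional `Q`-subspace of `L`. There is `C` such that for all `R` and all
`k`-subspaces `W ⊆ E` all of whose nonzero elements have values in `[-R, R]^N`:
`dim_k W ≤ C (R + 1)^d`.  PROOF. The values of `W - 0` are finitely many (in the box), so
`dim_k W` is their number (`sdim_eq_ncard`, Helper47/PQ/D7). They lie in at most `r = dim_Q E`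
cosets of `H`: nonzero `f_1, ..., f_s ∈ E` with values in different cosets are linearly
independent over `Q` (in `∑ q_i f_i` the nonzero terms have different values). Two values of the box in the same
coset differ by an element of `H ∩ [-2R, 2R]^N`, so every coset contains at most `(4 R + 1)^d` of
them. `C = r 4^d`.
-/

namespace Pool.Agent.Helper60.MA

open Pool.Agent.Helper92.Weak Pool.Agent.Helper47.PQ

variable {k L : Type*} [Field k] [Field L] [Algebra k L]

private theorem sum_lt {N : ℕ} (Φ : Flag k L N) {κ : Type*} (s : Finset κ) (g : κ → L)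
    (γ : Lex (Fin N → ℤ)) (h : ∀ i ∈ s, g i = 0 ∨ Φ.u (g i) < γ) :
    ∑ i ∈ s, g i = 0 ∨ Φ.u (∑ i ∈ s, g i) < γ := by
  classical
  induction s using Finset.induction_on with
  | empty => left; rw [Finset.sum_empty]
  | insert a s ha ih =>
    rw [Finset.sum_insert ha]
    have h1 := h a (Finset.mem_insert_self a s)
    have h2 := ih fun i hi => h i (Finset.mem_insert_of_mem hi)
    by_cases ha0 : g a = 0
    · rw [ha0, zero_add]
      exact h2
    by_cases hs0 : ∑ i ∈ s, g i = 0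
    · rw [hs0, add_zero]
      exact h1
    by_cases hne : g a + ∑ i ∈ s, g i = 0
    · exact Or.inl hne
    right
    exact lt_of_le_of_lt (Φ.map_add _ _ ha0 hs0 hne)
      (max_lt (h1.resolve_left ha0) (h2.resolve_left hs0))

private theorem u_neg {N : ℕ} (Φ : Flag k L N) {f : L} (hf : f ≠ 0) : Φ.u (-f) = Φ.u f := by
  have h1 : algebraMap k L (-1) ≠ 0 := (map_ne_zero _).mpr (neg_ne_zero.mpr one_ne_zero)
  have h2 : -f = algebraMap k L (-1) * f := by
    rw [map_neg, map_one, neg_one_mul]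
  rw [h2, Φ.map_mul _ _ h1 hf, Φ.map_const _ (neg_ne_zero.mpr one_ne_zero), zero_add]

/-- A sum whose nonzero terms have different values is not zero. -/
private theorem sum_ne {N : ℕ} (Φ : Flag k L N) {κ : Type*} [Fintype κ] (g : κ → L)
    (hne : ∃ i, g i ≠ 0)
    (hinj : ∀ i j, g i ≠ 0 → g j ≠ 0 → Φ.u (g i) = Φ.u (g j) → i = j) : ∑ i, g i ≠ 0 := by
  classical
  intro h1
  obtain ⟨i₁, hi₁⟩ := hne
  set T : Finset κ := Finset.univ.filter fun i => g i ≠ 0 with hT
  have hTne : T.Nonempty := ⟨i₁, Finset.mem_filter.mpr ⟨Finset.mem_univ _, hi₁⟩⟩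
  obtain ⟨i₀, hi₀, hmax⟩ := Finset.exists_max_image T (fun i => Φ.u (g i)) hTne
  have hg0 : g i₀ ≠ 0 := (Finset.mem_filter.mp hi₀).2
  rw [← Finset.add_sum_erase _ _ (Finset.mem_univ i₀)] at h1
  have h2 := sum_lt Φ (Finset.univ.erase i₀) g (Φ.u (g i₀)) (by
    intro i hi
    rw [Finset.mem_erase] at hi
    by_cases hgi : g i = 0
    · exact Or.inl hgi
    · right
      refine lt_of_le_of_ne (hmax i (Finset.mem_filter.mpr ⟨Finset.mem_univ _, hgi⟩)) ?_
      intro h3
      exact hi.1 (hinj i i₀ hgi hg0 h3))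
  rcases h2 with h2 | h2
  · rw [h2, add_zero] at h1
    exact hg0 h1
  · have h4 : ∑ i ∈ Finset.univ.erase i₀, g i = -g i₀ := by
      linear_combination h1
    rw [h4, u_neg Φ hg0] at h2
    exact lt_irrefl _ h2

private theorem u_one {N : ℕ} (Φ : Flag k L N) : Φ.u (1 : L) = 0 := by
  have h := Φ.map_const 1 one_ne_zero
  rwa [map_one] at h

/-- The group of the values of `Q`. -/
private def HH {N : ℕ} (Φ : Flag k L N) (Q : IntermediateField k L) :
    AddSubgroup (Fin N → ℤ) where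
  carrier := {x | ∃ q ∈ Q, q ≠ 0 ∧ ofLex (Φ.u q) = x}
  add_mem' := by
    rintro _ _ ⟨q, hq, hq0, rfl⟩ ⟨r, hr, hr0, rfl⟩
    exact ⟨q * r, Q.mul_mem hq hr, mul_ne_zero hq0 hr0, by rw [Φ.map_mul q r hq0 hr0]; rfl⟩
  zero_mem' := ⟨1, Q.one_mem, one_ne_zero, by rw [u_one]; rfl⟩
  neg_mem' := by
    rintro _ ⟨q, hq, hq0, rfl⟩
    refine ⟨q⁻¹, Q.inv_mem hq, inv_ne_zero hq0, ?_⟩
    have h := Φ.map_mul q⁻¹ q (inv_ne_zero hq0) hq0
    rw [inv_mul_cancel₀ hq0, u_one] at h
    have h2 : Φ.u q⁻¹ = -Φ.u q := eq_neg_of_add_eq_zero_left h.symm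
    rw [h2]
    rfl

private theorem mem_HH {N : ℕ} {Φ : Flag k L N} {Q : IntermediateField k L} {x : Fin N → ℤ} :
    x ∈ HH Φ Q ↔ ∃ q ∈ Q, q ≠ 0 ∧ ofLex (Φ.u q) = x := Iff.rfl

theorem count {N : ℕ} (Φ : Flag k L N) (Q : IntermediateField k L) {d : ℕ} (z : Fin d → L)
    (halg : ∀ x ∈ Q, IsAlgebraic (IntermediateField.adjoin k (Set.range z)) x)
    (E : Submodule Q L) [FiniteDimensional Q E] :
    ∃ C : ℕ, ∀ (R : ℕ) (W : Submodule k L), (∀ f ∈ W, f ∈ E) →
      (∀ f ∈ W, f ≠ 0 → ∀ i, |ofLex (Φ.u f) i| ≤ R) → sdim W ≤ ((C * (R + 1) ^ d : ℕ) : ℕ∞) := by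
  classical
  refine ⟨Module.finrank Q E * 4 ^ d, fun R W hWE hWR => ?_⟩
  have hfin : {x | ∃ f ∈ W, f ≠ 0 ∧ ofLex (Φ.u f) = x}.Finite := by
    apply Set.Finite.subset (Set.finite_Icc (fun _ : Fin N => -(R : ℤ)) (fun _ => (R : ℤ)))
    rintro _ ⟨f, hf, h0, rfl⟩
    exact ⟨fun i => (abs_le.1 (hWR f hf h0 i)).1, fun i => (abs_le.1 (hWR f hf h0 i)).2⟩
  rw [sdim_eq_ncard Φ W hfin, Nat.cast_le, Set.ncard_eq_toFinset_card _ hfin]
  set s := hfin.toFinset with hs
  have hsR : ∀ x ∈ s, ∀ i, |x i| ≤ R := by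
    intro x hx
    obtain ⟨f, hf, h0, rfl⟩ := hfin.mem_toFinset.1 hx
    exact hWR f hf h0
  let π : (Fin N → ℤ) → (Fin N → ℤ) ⧸ HH Φ Q := fun x => (x : (Fin N → ℤ) ⧸ HH Φ Q)
  have h1 : ∀ c ∈ s.image π, (s.filter fun x => π x = c).card ≤ (4 * R + 1) ^ d := by
    intro c hc
    obtain ⟨x0, hx0, rfl⟩ := Finset.mem_image.1 hc
    obtain ⟨hG1, hG2⟩ := count_group Φ Q z halg (2 * R)
    rw [Set.ncard_eq_toFinset_card _ hG1] at hG2
    have e1 : 2 * (2 * R) + 1 = 4 * R + 1 := by ring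
    rw [e1] at hG2
    refine le_trans ?_ hG2
    apply Finset.card_le_card_of_injOn (fun x => -x0 + x)
    · intro x hx
      have hx' := Finset.mem_filter.1 (Finset.mem_coe.1 hx)
      rw [Finset.mem_coe, Set.Finite.mem_toFinset]
      refine ⟨mem_HH.1 (QuotientAddGroup.eq.1 hx'.2.symm), fun i => ?_⟩
      have h2 := hsR x hx'.1 i
      have h3 := hsR x0 hx0 i
      change |-x0 i + x i| ≤ _
      calc |-x0 i + x i| ≤ |-x0 i| + |x i| := abs_add_le _ _
        _ = |x0 i| + |x i| := by rw [abs_neg]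
        _ ≤ R + R := add_le_add h3 h2
        _ = ((2 * R : ℕ) : ℤ) := by push_cast; ring
    · intro x _ y _ hxy
      exact add_left_cancel hxy
  have h2 := Finset.card_le_mul_card_image s _ h1
  have h3 : (s.image π).card ≤ Module.finrank Q E := by
    have hex : ∀ c : ↥(s.image π), ∃ f : L, f ∈ W ∧ f ≠ 0 ∧ π (ofLex (Φ.u f)) = c.1 := by
      intro c
      obtain ⟨x0, hx0, hc⟩ := Finset.mem_image.1 c.2
      obtain ⟨f, hf, h0, hx⟩ := hfin.mem_toFinset.1 hx0
      exact ⟨f, hf, h0, by rw [hx, hc]⟩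
    choose f hfW hf0 hfc using hex
    let F : ↥(s.image π) → E := fun c => ⟨f c, hWE _ (hfW c)⟩
    have hli : LinearIndependent Q F := by
      rw [Fintype.linearIndependent_iff]
      intro g hg
      by_contra hcon
      push Not at hcon
      obtain ⟨i₁, hi₁⟩ := hcon
      have hsum : ∑ i, (g i : L) * f i = 0 := by
        have h4 := congrArg (fun w : E => (w : L)) hg
        simp only [Submodule.coe_sum, Submodule.coe_smul, Submodule.coe_zero] at h4
        exact h4
      refine sum_ne Φ (fun i => (g i : L) * f i) ⟨i₁, ?_⟩ ?_ hsum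
      · refine mul_ne_zero ?_ (hf0 i₁)
        intro h5
        exact hi₁ (Subtype.ext h5)
      · intro i j hi hj hij
        have gi : (g i : L) ≠ 0 := left_ne_zero_of_mul hi
        have gj : (g j : L) ≠ 0 := left_ne_zero_of_mul hj
        rw [Φ.map_mul _ _ gi (hf0 i), Φ.map_mul _ _ gj (hf0 j)] at hij
        have hij' : ofLex (Φ.u (g i : L)) + ofLex (Φ.u (f i)) =
            ofLex (Φ.u (g j : L)) + ofLex (Φ.u (f j)) := congrArg ofLex hij
        apply Subtype.ext
        rw [← hfc i, ← hfc j]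
        apply QuotientAddGroup.eq.2
        have h5 : -ofLex (Φ.u (f i)) + ofLex (Φ.u (f j)) =
            ofLex (Φ.u (g i : L)) - ofLex (Φ.u (g j : L)) := by
          rw [neg_add_eq_sub, sub_eq_sub_iff_add_eq_add, add_comm (ofLex (Φ.u (f j))), ← hij']
        rw [h5]
        exact (HH Φ Q).sub_mem ⟨g i, (g i).2, gi, rfl⟩ ⟨g j, (g j).2, gj, rfl⟩
    have h4 := hli.fintype_card_le_finrank
    rwa [Fintype.card_coe] at h4
  calc s.card ≤ (4 * R + 1) ^ d * (s.image π).card := h2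
    _ ≤ (4 * (R + 1)) ^ d * Module.finrank Q E :=
        Nat.mul_le_mul (Nat.pow_le_pow_left (by omega) d) h3
    _ = Module.finrank Q E * 4 ^ d * (R + 1) ^ d := by
        rw [mul_pow]
        ring

end Pool.Agent.Helper60.MA
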