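import Pool.Agent.Helper47.PQ.D10
import Pool.Agent.Helper50.Forms.Unif
import Pool.Agent.Helper92.Weak.Bridge

set_option autoImplicit false

/-!
# Project MA (MP_2c56d9_ag): weak abundance for pairs with many units off the reduced boundary

Overview and complete proof: team store, `memo_MP_2c56d9_ag_MA_helper60.md`.
-/

namespace Pool.Agent.Helper60.MA

open Pool.Agent.Helper92.Weak

variable {k L : Type*} [Field k] [Field L] [Algebra k L]

/-- The quotients `f / g` of sections of multiples `m D`, `m ≥ 1`, of a divisor `D`. -/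
def ratios (X : ProjVar k L) (D : X.Div) : Set L :=
  {z | ∃ m : ℕ, 1 ≤ m ∧ ∃ f ∈ X.H0 ((m : ℚ) • D), ∃ g ∈ X.H0 ((m : ℚ) • D), g ≠ 0 ∧ z = f / g}

/-- The field of quotients of sections of multiples of `D` (the function field of the base of the
Iitaka fibration of `D`; it is `k` if no positive multiple of `D` has sections). -/
def iitaka (X : ProjVar k L) (D : X.Div) : IntermediateField k L :=
  IntermediateField.adjoin k (ratios X D)

/-- The valuation is trivial on the field `Q`. -/
def Hor (Q : IntermediateField k L) (v : DVal k L) : Prop := ∀ q ∈ Q, v q = 0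

/-- The elements `f` of the ring `O` with `v_B(f) ≥ -c_B` for all `B`. -/
def box {Q : Type*} [Field Q] [Algebra Q L] {β : Type*} (O : Subalgebra Q L) (v : β → DVal Q L)
    (c : β → ℤ) : Submodule Q L :=
  Subalgebra.toSubmodule O ⊓ ⨅ B, (v B).filt (-(c B : ℚ))

theorem mem_box {Q : Type*} [Field Q] [Algebra Q L] {β : Type*} {O : Subalgebra Q L}
    {v : β → DVal Q L} {c : β → ℤ} {f : L} :
    f ∈ box O v c ↔ f ∈ O ∧ ∀ B, (v B).Ge (-(c B : ℚ)) f := by
  unfold box
  rw [Submodule.mem_inf, Submodule.mem_iInf, Subalgebra.mem_toSubmodule]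
  simp only [DVal.mem_filt]

theorem mem_H0 {X : ProjVar k L} {D : X.Div} {f : L} :
    f ∈ X.H0 D ↔ ∀ P : X.primeDivisors, P.1.Ge (-(D P)) f := by
  unfold ProjVar.H0 sec
  rw [Submodule.mem_iInf]
  simp only [DVal.mem_filt]

end Pool.Agent.Helper60.MA
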