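import Pool.Agent.Helper60.MA.CountE

set_option autoImplicit false

/-!
# MA-10 Growth: the numerical dimension is at most the transcendence degree of `Q`

CLAIM. Let `Q` be a field between `k` and `L`, algebraic over `k(z_1, ..., z_d)`, such that for every
divisor `A` all the spaces `H⁰(m D + A)` lie in one finite dimensional `Q`-subspace `E_A` of `L`. Then
`ν(D) ≤ d`.

PROOF. `Helper47.PQ.nu_eq_sup`: `ν(D)` is the supremum over `A` of the growth of
`dim H⁰(m D + A)`. Let `Φ` be a flag valuation from `exists_secFlag X`. As in the proof of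
`Helper47.PQ.bnd` (D8): with `B = |D| + |A|` there is `C₀` with all values of nonzero elements of
`H⁰(m D + A) ⊆ H⁰(m B)` in `[-C₀ m, C₀ m]^N` for `m ≥ 1`. By `count` with `R = C₀ m`:
`dim H⁰(m D + A) ≤ C (C₀ m + 1)^d ≤ C (C₀ + 1)^d m^d` for `m ≥ 1`. So the growth is at most `d`
(`logGrowth_le` of Helper92/Weak/GrowthE with `s = d`, `φ = id`, `h2 = 1`, whose growth is `0`, as in
the first half of the proof of `logGrowth_eq_of_bounds`, Helper47/PQ/D9).
-/

namespace Pool.Agent.Helper60.MA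

open Pool.Agent.Helper92.Weak

theorem nu_le {k L : Type*} [Field k] [IsAlgClosed k] [Field L] [Algebra k L] (X : ProjVar k L)
    (D : X.Div) (Q : IntermediateField k L) {d : ℕ} (z : Fin d → L)
    (halg : ∀ x ∈ Q, IsAlgebraic (IntermediateField.adjoin k (Set.range z)) x)
    (hE : ∀ A : X.Div, ∃ E : Submodule Q L, FiniteDimensional Q E ∧
      ∀ (m : ℕ), ∀ f ∈ X.H0 ((m : ℚ) • D + A), f ∈ E) : X.nu D ≤ (d : EReal) := by
  classical
  obtain ⟨n, Φ, -, hΦ⟩ := Pool.Agent.Helper47.PQ.exists_secFlag X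
  rw [Pool.Agent.Helper47.PQ.nu_eq_sup]
  refine iSup_le fun A => ?_
  obtain ⟨E, hEfin, hE'⟩ := hE A
  have := hEfin
  obtain ⟨C, hC⟩ := count Φ Q z halg E
  set B : X.Div := D.mapRange (fun q : ℚ => |q|) abs_zero + A.mapRange (fun q : ℚ => |q|) abs_zero
    with hB
  obtain ⟨C₀, hC₀⟩ := hΦ B
  have hle : ∀ m : ℕ, 1 ≤ m → ∀ f ∈ X.H0 ((m : ℚ) • D + A), f ∈ X.H0 ((m : ℚ) • B) := by
    intro m hm f hf
    rw [mem_H0] at hf ⊢
    intro P
    refine (hf P).mono ?_
    rw [hB]
    simp only [Finsupp.smul_apply, Finsupp.add_apply, Finsupp.mapRange_apply, smul_eq_mul]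
    have h1 : (1 : ℚ) ≤ m := by exact_mod_cast hm
    have h2 := le_abs_self (D P)
    have h3 := le_abs_self (A P)
    have h4 := abs_nonneg (A P)
    nlinarith
  have hbound : ∀ m : ℕ, 1 ≤ m → sdim (X.H0 ((m : ℚ) • D + A)) ≤
      ((C * (C₀ + 1) ^ d : ℕ) : ℕ∞) * (m : ℕ∞) ^ d * 1 := by
    intro m hm
    refine (hC (C₀ * m) (X.H0 ((m : ℚ) • D + A)) (hE' m) ?_).trans ?_
    · intro f hf hf0 i
      have := hC₀ m hm f (hle m hm f hf) hf0 i
      push_cast
      exact this
    · have h1 : C * (C₀ * m + 1) ^ d ≤ C * (C₀ + 1) ^ d * m ^ d := by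
        rw [mul_assoc, ← mul_pow]
        refine Nat.mul_le_mul_left _ (Nat.pow_le_pow_left ?_ d)
        nlinarith
      rw [mul_one]
      exact_mod_cast h1
  have h3 := logGrowth_le (s := d) (C := C * (C₀ + 1) ^ d) (a := 1) (c := 0) (φ := id)
    Filter.tendsto_id (by intro m; simp) (h1 := fun m => sdim (X.H0 ((m : ℚ) • D + A)))
    (h2 := fun _ => 1) (by
      filter_upwards [Filter.eventually_ge_atTop 1] with m hm
      exact hbound m hm)
  have h4 : logGrowth (fun _ => (1 : ℕ∞)) = 0 := by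
    unfold logGrowth
    simp
  rwa [h4, add_zero] at h3

end Pool.Agent.Helper60.MA
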