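import Pool.Agent.Helper60.MA.LogGe

set_option autoImplicit false

/-!
# MA-9a Hor: the divisor of the logarithmic form at horizontal primes

SETTING. `y` a transcendence basis of `L / k`, `y_i ≠ 0`, `S` the set of indices of the units,
`Q` a field between `k` and `L` with `y_i ∈ Q` for `i ∉ S`, algebraic over `k(y_i : i ∉ S)`.
`ω = (∏_{i ∈ S} y_i)⁻¹ dy`, `D = div(ω) + Δ`, `Δ ≥ 0`. `P` is horizontal if it is trivial on `Q`. The
`y_i`, `i ∈ S`, are units at all horizontal `P` with `Δ(P) < 1`.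

`hor_facts`. For horizontal `P`: `D(P) ≥ 0`, and if `D(P) = 0` then either `Δ(P) = 0`, `ω` has
order `0` at `P` and the `y_i`, `i ∈ S`, are units at `P`, or `Δ(P) = 1` and `ω` has order `-1` at `P`.
PROOF. `v_P(y_i) = 0` for `i ∉ S` (in `Q`, nonzero). If `Δ(P) < 1` all `y_i` have value `0`, so the
presentation `ω = (∏ y_i)⁻¹ dy` shows that the order `a` is `≥ 0` (`IsOrd` is `IsGreatest`), and
`a + Δ(P) ≥ 0`, with equality iff `a = 0 = Δ(P)` (`a` is an integer, `Δ(P) ≥ 0`). If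
`Δ(P) ≥ 1`, `a ≥ -1` by `log_ge` (`f = (∏ y_i)⁻¹`, `v(f) + ∑ v(y_i) = 0`), and `a + Δ(P) ≥ 0` with equality iff
`a = -1`, `Δ(P) = 1`.
-/

namespace Pool.Agent.Helper60.MA

open Pool.Agent.Helper92.Weak

variable {k L : Type*} [Field k] [CharZero k] [Field L] [Algebra k L]

theorem hor_facts (X : ProjVar k L) {n : ℕ} {y : Fin n → L} (hy : IsTranscendenceBasis k y)
    (hy0 : ∀ i, y i ≠ 0) (S : Finset (Fin n)) (Q : IntermediateField k L)
    (hQy : ∀ i ∉ S, y i ∈ Q) (Δ : X.Div) (hΔ : ∀ P, 0 ≤ Δ P)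
    (hunit : ∀ P : X.primeDivisors, Hor Q P.1 → Δ P < 1 → ∀ i ∈ S, P.1 (y i) = 0)
    (P : X.primeDivisors) (hP : Hor Q P.1) {a : ℤ}
    (ha : P.1.IsOrd ((∏ i ∈ S, y i)⁻¹ • dform k y) a) :
    0 ≤ (a : ℚ) + Δ P ∧ ((a : ℚ) + Δ P = 0 →
      (Δ P = 0 ∧ a = 0 ∧ ∀ i ∈ S, P.1 (y i) = 0) ∨ (Δ P = 1 ∧ a = -1)) := by
  obtain ⟨b, hb⟩ := Helper50.Forms.exists_kaehler_basis hy
  have hprod : (∏ i ∈ S, y i) ≠ 0 := Finset.prod_ne_zero_iff.2 fun i _ => hy0 i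
  have hg : (∏ i ∈ S, y i)⁻¹ ≠ 0 := inv_ne_zero hprod
  have hS : ∀ i ∉ S, P.1 (y i) = 0 := fun i hi => hP _ (hQy i hi)
  have hvg : P.1 ((∏ i ∈ S, y i)⁻¹) = -∑ i ∈ S, P.1 (y i) := by
    rw [P.1.map_inv, P.1.map_prod S y fun i _ => hy0 i]
  by_cases h : Δ P < 1
  · have hu := hunit P hP h
    have hall : ∀ i, P.1 (y i) = 0 := fun i => by
      by_cases hi : i ∈ S
      · exact hu i hi
      · exact hS i hi
    have hg0 : P.1 ((∏ i ∈ S, y i)⁻¹) = 0 := by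
      rw [hvg, Finset.sum_eq_zero hu, neg_zero]
    have ha0 : 0 ≤ a := ha.2 ⟨y, (∏ i ∈ S, y i)⁻¹, fun i => (hall i).ge, hg, hg0, rfl⟩
    have ha0' : (0 : ℚ) ≤ a := by exact_mod_cast ha0
    have hΔ0 := hΔ P
    refine ⟨by linarith, fun h1 => Or.inl ⟨by linarith, ?_, hu⟩⟩
    have : (a : ℚ) = 0 := by linarith
    exact_mod_cast this
  · have h2 := log_ge hy b hb P.1 S hy0 hS hg ha
    rw [hvg] at h2
    have h3 : -1 ≤ a := by linarith
    have h3' : (-1 : ℚ) ≤ a := by exact_mod_cast h3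
    push Not at h
    refine ⟨by linarith, fun h1 => Or.inr ⟨by linarith, ?_⟩⟩
    have : (a : ℚ) = -1 := by linarith
    exact_mod_cast this

end Pool.Agent.Helper60.MA
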