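import Pool.Agent.Helper60.MA.Defs

set_option autoImplicit false

/-!
# MA-4 Iitaka: the field of quotients of sections

`mem_ratios`: if some `m₀ D` has a nonzero section then every element of `iitaka X D` is in
`ratios X D`.  PROOF. `IntermediateField.adjoin` = smallest intermediate field containing the set,
so it suffices that `ratios X D` is closed under `+`, `*`, `-`, inverse and contains `k`
(`IntermediateField.adjoin_induction`, or `adjoin_le_iff` for the field with this carrier): if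
`z = f / g`, `z' = f' / g'` with `f, g ∈ H⁰(m D)`, `f', g' ∈ H⁰(m' D)` then `f g'`, `f' g`, `g g'`,
`f f'` are in `H⁰((m + m') D)` (`Ge.mul`), `z + z' = (f g' + f' g) / (g g')`,
`z z' = f f' / (g g')`, `z⁻¹ = g / f` (`f ≠ 0`; if `f = 0` then `z⁻¹ = 0 = 0 / g`), and
`c = (c g₀) / g₀` for `c ∈ k`.

`exists_coords`: there are `M ≥ 1`, `g₀ ∈ H⁰(M D)` nonzero and an algebraically independent
family `z_1, ..., z_d` of elements of `iitaka X D` with `z_i g₀ ∈ H⁰(M D)`, such that `iitaka X D` is
algebraic over `k(z)`.  PROOF. `Q = iitaka X D` has a transcendence basis `w : Fin d → Q` over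
`k` (finite since `L` has the finite transcendence basis `y`: `exists_isTranscendenceBasis`,
`AlgebraicIndependent` of its image in `L`, cardinality at most `n`, for instance
`AlgebraicIndependent.cardinalMk_le_trdeg` and `IsTranscendenceBasis.cardinalMk_eq`). By `mem_ratios`
`w_i = f_i / g_i` with `f_i, g_i ∈ H⁰(m_i D)`. Common denominators: `M = m₀ + ∑ m_i`,
`g₀ = g (∏ g_i)` with `g ∈ H⁰(m₀ D)` the given section (so that `M ≥ 1` also for `d = 0`),
`z_i g₀ = g f_i ∏_{j ≠ i} g_j`. Algebraicity: elements of `Q` are algebraic over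
`Algebra.adjoin k (range w)` (`IsTranscendenceBasis.isAlgebraic`); map to `L`.
The `z_i` are nonzero since algebraically independent.
-/

namespace Pool.Agent.Helper60.MA

open Pool.Agent.Helper92.Weak

variable {k L : Type*} [Field k] [Field L] [Algebra k L]

private theorem H0_mul {X : ProjVar k L} {D : X.Div} {m m' : ℕ} {f g : L}
    (hf : f ∈ X.H0 ((m : ℚ) • D)) (hg : g ∈ X.H0 ((m' : ℚ) • D)) :
    f * g ∈ X.H0 (((m + m' : ℕ) : ℚ) • D) := by
  rw [mem_H0] at hf hg ⊢
  intro P
  have h := (hf P).mul (hg P)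
  have e : -((((m + m' : ℕ) : ℚ) • D) P) = -(((m : ℚ) • D) P) + -(((m' : ℚ) • D) P) := by
    simp only [Finsupp.smul_apply, smul_eq_mul]
    push_cast
    ring
  rw [e]
  exact h

private theorem H0_prod {X : ProjVar k L} {D : X.Div} {ι : Type*} (s : Finset ι) (m : ι → ℕ)
    (h : ι → L) (hh : ∀ i ∈ s, h i ∈ X.H0 ((m i : ℚ) • D)) {m₀ : ℕ} {g : L}
    (hg : g ∈ X.H0 ((m₀ : ℚ) • D)) :
    g * ∏ i ∈ s, h i ∈ X.H0 (((m₀ + ∑ i ∈ s, m i : ℕ) : ℚ) • D) := by
  classical
  induction s using Finset.induction_on with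
  | empty => simpa using hg
  | insert a s ha ih =>
    rw [Finset.prod_insert ha, Finset.sum_insert ha]
    have h1 := ih fun i hi => hh i (Finset.mem_insert_of_mem hi)
    have h2 := H0_mul h1 (hh a (Finset.mem_insert_self a s))
    have e1 : g * (h a * ∏ i ∈ s, h i) = g * (∏ i ∈ s, h i) * h a := by ring
    have e2 : m₀ + (m a + ∑ i ∈ s, m i) = m₀ + ∑ i ∈ s, m i + m a := by ring
    rw [e1, e2]
    exact h2

theorem mem_ratios (X : ProjVar k L) (D : X.Div) {m₀ : ℕ} (hm₀ : 1 ≤ m₀) {g₀ : L}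
    (hg₀ : g₀ ∈ X.H0 ((m₀ : ℚ) • D)) (h0 : g₀ ≠ 0) : ∀ x ∈ iitaka X D, x ∈ ratios X D := by
  intro x hx
  induction hx using IntermediateField.adjoin_induction with
  | mem x hx => exact hx
  | algebraMap c =>
    refine ⟨m₀, hm₀, algebraMap k L c * g₀, ?_, g₀, hg₀, h0, ?_⟩
    · rw [← Algebra.smul_def]
      exact Submodule.smul_mem _ c hg₀
    · rw [mul_div_cancel_right₀ _ h0]
  | add x y hx hy ihx ihy =>
    obtain ⟨m, hm, f, hf, g, hg, hne, rfl⟩ := ihx
    obtain ⟨m', hm', f', hf', g', hg', hne', rfl⟩ := ihy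
    refine ⟨m + m', by omega, f * g' + g * f', Submodule.add_mem _ (H0_mul hf hg')
      (H0_mul hg hf'), g * g', H0_mul hg hg', mul_ne_zero hne hne', ?_⟩
    rw [div_add_div _ _ hne hne']
  | inv x hx ih =>
    obtain ⟨m, hm, f, hf, g, hg, hne, rfl⟩ := ih
    by_cases hf0 : f = 0
    · refine ⟨m, hm, 0, Submodule.zero_mem _, g, hg, hne, ?_⟩
      rw [hf0]
      simp
    · exact ⟨m, hm, g, hg, f, hf, hf0, inv_div _ _⟩
  | mul x y hx hy ihx ihy =>
    obtain ⟨m, hm, f, hf, g, hg, hne, rfl⟩ := ihx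
    obtain ⟨m', hm', f', hf', g', hg', hne', rfl⟩ := ihy
    refine ⟨m + m', by omega, f * f', H0_mul hf hf', g * g', H0_mul hg hg',
      mul_ne_zero hne hne', ?_⟩
    rw [div_mul_div_comm]

theorem exists_coords (X : ProjVar k L) (D : X.Div) {n : ℕ} {y : Fin n → L}
    (hy : IsTranscendenceBasis k y) {m₀ : ℕ} (hm₀ : 1 ≤ m₀) {g : L}
    (hg : g ∈ X.H0 ((m₀ : ℚ) • D)) (h0 : g ≠ 0) :
    ∃ (d M : ℕ) (g₀ : L) (z : Fin d → L), 1 ≤ M ∧ g₀ ∈ X.H0 ((M : ℚ) • D) ∧ g₀ ≠ 0 ∧
      (∀ i, z i * g₀ ∈ X.H0 ((M : ℚ) • D)) ∧ (∀ i, z i ∈ iitaka X D) ∧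
      AlgebraicIndependent k z ∧
      ∀ x ∈ iitaka X D, IsAlgebraic (IntermediateField.adjoin k (Set.range z)) x := by
  classical
  obtain ⟨s, hs⟩ := exists_isTranscendenceBasis k (iitaka X D)
  -- the basis is finite
  have hsL : AlgebraicIndependent k (fun i : s => ((i : iitaka X D) : L)) :=
    hs.1.map' (f := (iitaka X D).val) (iitaka X D).val.injective
  have hfin : Finite s := by
    have h1 := hsL.lift_cardinalMk_le_trdeg
    have h2 := hy.lift_cardinalMk_eq_trdeg
    rw [← Cardinal.lt_aleph0_iff_finite]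
    have h3 : Cardinal.lift (Cardinal.mk (Fin n)) < Cardinal.aleph0 := by
      rw [Cardinal.lift_lt_aleph0]
      exact Cardinal.lt_aleph0_of_finite (Fin n)
    rw [h2, Cardinal.lift_lt_aleph0] at h3
    have h4 := lt_of_le_of_lt h1 (Cardinal.lift_lt_aleph0.2 h3)
    exact Cardinal.lift_lt_aleph0.1 h4
  obtain ⟨d, ⟨e⟩⟩ := Finite.exists_equiv_fin s
  set w : Fin d → iitaka X D := fun i => (e.symm i : iitaka X D) with hw
  have hwb : IsTranscendenceBasis k w := hs.comp_equiv e.symm
  have hwr : ∀ i, (w i : L) ∈ ratios X D := fun i => mem_ratios X D hm₀ hg h0 _ (w i).2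
  choose m hm f hf g' hg' hne heq using hwr
  have hzg : ∀ i, (w i : L) * g' i = f i := fun i => by
    rw [heq i, div_mul_cancel₀ _ (hne i)]
  refine ⟨d, m₀ + ∑ i, m i, g * ∏ i, g' i, fun i => (w i : L), by omega, ?_, ?_, ?_, ?_, ?_, ?_⟩
  · exact H0_prod Finset.univ m g' (fun i _ => hg' i) hg
  · exact mul_ne_zero h0 (Finset.prod_ne_zero_iff.2 fun i _ => hne i)
  · intro i
    have h1 := H0_prod Finset.univ m (Function.update g' i (f i)) (fun j _ => by
      by_cases hji : j = i
      · subst hji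
        rw [Function.update_self]
        exact hf j
      · rw [Function.update_of_ne hji]
        exact hg' j) hg
    rw [Finset.prod_update_of_mem (Finset.mem_univ i)] at h1
    have h2 : (w i : L) * (g * ∏ j, g' j) = g * (f i * ∏ j ∈ Finset.univ \ {i}, g' j) := by
      rw [← hzg i, ← Finset.prod_sdiff (Finset.subset_univ {i}), Finset.prod_singleton]
      ring
    rw [h2]
    exact h1
  · exact fun i => (w i).2
  · exact hwb.1.map' (f := (iitaka X D).val) (iitaka X D).val.injective
  · intro x hx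
    have halg := hwb.isAlgebraic_field.isAlgebraic (⟨x, hx⟩ : iitaka X D)
    set R := IntermediateField.adjoin k (Set.range w) with hR
    set S := IntermediateField.adjoin k (Set.range fun i => (w i : L)) with hS
    have hmap : R.map (iitaka X D).val = S := by
      rw [hR, IntermediateField.adjoin_map, ← Set.range_comp]
      rfl
    have hRS : ∀ r : R, (((r : iitaka X D)) : L) ∈ S := by
      intro r
      have h1 : ((r : iitaka X D) : L) ∈ R.map (iitaka X D).val := ⟨(r : iitaka X D), r.2, rfl⟩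
      rw [hmap] at h1
      exact h1
    let φ : R →+* S := RingHom.codRestrict
      (((iitaka X D).val : iitaka X D →+* L).comp (algebraMap R (iitaka X D))) S hRS
    have hφ : Function.Injective φ := φ.injective
    exact halg.ringHom_of_comp_eq φ ((iitaka X D).val : iitaka X D →+* L) hφ rfl

end Pool.Agent.Helper60.MA
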