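import Pool.Agent.Helper60.MA.Defs

set_option autoImplicit false

/-!
# MA-3 Key: the key proposition (pure linear algebra)

SETTING. `δ i : L → L` commuting `Q`-linear operators, `t i ≠ 0` in `L`, finitely many discrete
valuations `v B` of `L` over `Q`; put `ν_B i = v B (t i)` (integers) and `D_B = ∑ i, ν_B i • δ i`.
`h1`: `v_B(δ_i f) ≥ v_B(f)`.  `h2`: `v_B(D_B f - v_B(f) f) ≥ v_B(f) + 1`.
`O` is a subalgebra stable under the `δ i`, containing the `t i` and their inverses, and the elements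
`f` of `O` with `v_B(f) ≥ 0` for all `B` are in `Q`; `Q` is algebraically closed in `L`.
CLAIM. `box O v c = {f ∈ O | v_B(f) ≥ -c_B for all B}` is finite dimensional over `Q`.

PROOF. For `S : Finset β`, `s : β → ℤ`, `c : β → ℤ` put
`V S s c = {f ∈ box O v c | D_B f = s_B f for all B ∈ S}` (a `Q`-submodule).
(a) If `m : ℤ` and `Ge m f` then `Ge m (δ_i f)`, `Ge m (D_B f)` (by `h1`; `Ge.smul`-like facts since
  `ν_B i` is an integer, of value `≥ 0`), and `Ge (m + 1) (D_B f - m f)` for `v B`: if `v_B(f) = m` this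
  is `h2`; if `v_B(f) ≥ m + 1` then `D_B f` and `m f` have value `≥ m + 1`.
  So `V S s c` is stable under `D_B - m` (the `δ_i` commute, `O` is stable), for all `B`, `m`.
(b) If `f ≠ 0` and `D_B f = s f` with `s : ℤ` then `v_B(f) = s`: by `h2`, `(s - v_B(f)) f` has value
  `≥ v_B(f) + 1`, but the integer `s - v_B(f)`, if nonzero, has value `0` (characteristic `0`).
(c) STEP. For `B ∉ S`: the map `f ↦ D_B f + c_B f` sends `V S s c` to `V S s c'` with
  `c' = c - 1` at `B`, `c' = c` elsewhere (by (a) with `m = -c_B`), and its kernel is contained in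
  `V (insert B S) (s updated by -c_B at B) c`. So `V S s c` is finite dimensional if `V S s c'` and
  `V (insert B S) s' c` are (all `s'`).
(d) BASE. Let `S, s` be given. Claim: there is `N : ℤ` such that `V S s c` is finite dimensional for
  all `c` with `c_B ≤ -N` for all `B ∉ S`. If no `f₀ ≠ 0` in `L` satisfies `D_B f₀ = s_B f₀` for all
  `B ∈ S` then `V S s c = 0`. Otherwise, if `λ : S → ℚ` satisfies `∑ λ_B ν_B = 0` then
  `0 = ∑ λ_B D_B f₀ = (∑ λ_B s_B) f₀`, so `∑ λ_B s_B = 0`. By duality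
  (`LinearMap.range_dualMap_eq_dualAnnihilator_ker` for the map `(S → ℚ) → (ι → ℚ)`,
  `λ ↦ ∑ λ_B ν_B`) there is `φ : ι → ℚ` with `∑ i, ν_B i φ_i = -s_B` for `B ∈ S`; clearing
  denominators: `M ≥ 1` and `J : ι → ℤ` with `∑ i, ν_B i J_i = -M s_B` for `B ∈ S`. Take `N ≥ 0`
  with `M N + ∑ i, ν_B i J_i ≥ 0` for all `B`. Let `x ≠ 0` be in `V S s c`. Then
  `F = x ^ M * ∏ i, t_i ^ J_i ∈ O` and `v_B(F) = M v_B(x) + ∑ i, J_i ν_B i ≥ 0` for all `B`
  (`B ∈ S`: (b); `B ∉ S`: `v_B(x) ≥ -c_B ≥ N`). So `F ∈ Q` by `hQ`. For two such `x, x₀`: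
  `(x / x₀) ^ M = F / F₀ ∈ Q`, so `x / x₀` is algebraic over `Q`, hence in `Q` by `hac`. So
  `V S s c ≤ Q x₀` (or `V S s c = 0`): finite dimensional.
(e) By induction on the number of `B ∉ S`: for all `s, c`, `V S s c` is finite dimensional. Given `S, s`,
  take `N` from (d) and do induction on `∑_{B ∉ S} max 0 (c_B + N)`: if it is `0` use (d), otherwise
  choose `B ∉ S` with `c_B > -N` and use (c). Finally `box O v c = V ∅ 0 c`.
-/

namespace Pool.Agent.Helper60.MA

open Pool.Agent.Helper92.Weak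

section Aux

variable {Q L : Type*} [Field Q] [Field L] [Algebra Q L] {ι β : Type*} [Fintype ι]

private noncomputable def DB (δ : ι → L →ₗ[Q] L) (t : ι → L) (v : β → DVal Q L) (B : β) : L →ₗ[Q] L :=
  ∑ i, (v B (t i) : Q) • δ i

private theorem DB_apply (δ : ι → L →ₗ[Q] L) (t : ι → L) (v : β → DVal Q L) (B : β) (f : L) :
    DB δ t v B f = ∑ i, (v B (t i) : Q) • δ i f := by
  unfold DB
  rw [LinearMap.sum_apply]
  rfl

private noncomputable def VS (δ : ι → L →ₗ[Q] L) (t : ι → L) (v : β → DVal Q L) (O : Subalgebra Q L)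
    (S : Finset β) (s c : β → ℤ) : Submodule Q L :=
  box O v c ⊓ ⨅ B ∈ S, LinearMap.ker (DB δ t v B - (s B : Q) • LinearMap.id)

private theorem mem_VS {δ : ι → L →ₗ[Q] L} {t : ι → L} {v : β → DVal Q L} {O : Subalgebra Q L}
    {S : Finset β} {s c : β → ℤ} {f : L} : f ∈ VS δ t v O S s c ↔
      f ∈ O ∧ (∀ B, (v B).Ge (-(c B : ℚ)) f) ∧ ∀ B ∈ S, DB δ t v B f = (s B : Q) • f := by
  unfold VS
  rw [Submodule.mem_inf, mem_box, Submodule.mem_iInf]
  simp only [Submodule.mem_iInf, LinearMap.mem_ker, LinearMap.sub_apply, LinearMap.smul_apply,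
    LinearMap.id_apply, sub_eq_zero, and_assoc]

variable (δ : ι → L →ₗ[Q] L) (t : ι → L) (v : β → DVal Q L)

omit [Fintype ι] in
private theorem ge_delta (h1 : ∀ B i f, f ≠ 0 → (v B).Ge (v B f) (δ i f)) {B : β} {m : ℚ} {f : L}
    (h : (v B).Ge m f) (i : ι) : (v B).Ge m (δ i f) := by
  rcases h with h | h
  · rw [h, map_zero]
    exact DVal.Ge.zero
  · by_cases hf : f = 0
    · rw [hf, map_zero]
      exact DVal.Ge.zero
    · exact (h1 B i f hf).mono h

private theorem ge_DB (h1 : ∀ B i f, f ≠ 0 → (v B).Ge (v B f) (δ i f)) {B : β} (B' : β) {m : ℚ} {f : L}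
    (h : (v B).Ge m f) : (v B).Ge m (DB δ t v B' f) := by
  rw [DB_apply]
  exact DVal.Ge.sum fun i _ => (ge_delta δ v h1 h i).smul _

private theorem ge_step (h1 : ∀ B i f, f ≠ 0 → (v B).Ge (v B f) (δ i f))
    (h2 : ∀ B f, f ≠ 0 → (v B).Ge (v B f + 1) (∑ i, (v B (t i) : L) * δ i f - (v B f : L) * f))
    {B : β} {m : ℤ} {f : L} (h : (v B).Ge m f) :
    (v B).Ge (m + 1) (DB δ t v B f - (m : Q) • f) := by
  by_cases hf : f = 0
  · rw [hf, map_zero, smul_zero, sub_zero]
    exact DVal.Ge.zero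
  have h3 : (m : ℚ) ≤ v B f := (DVal.ge_iff hf).1 h
  have h4 : m ≤ v B f := by exact_mod_cast h3
  rcases h4.lt_or_eq with h5 | h5
  · have h6 : (v B).Ge ((m : ℚ) + 1) f := by
      right
      have : m + 1 ≤ v B f := h5
      exact_mod_cast this
    exact (ge_DB δ t v h1 B h6).sub (h6.smul _)
  · have h6 := h2 B f hf
    rw [← h5] at h6
    have e : DB δ t v B f - (m : Q) • f = ∑ i, (v B (t i) : L) * δ i f - (m : L) * f := by
      rw [DB_apply, Algebra.smul_def, map_intCast]
      congr 1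
      refine Finset.sum_congr rfl fun i _ => ?_
      rw [Algebra.smul_def, map_intCast]
    rw [e]
    exact h6

private theorem eig [CharZero Q]
    (h1 : ∀ B i f, f ≠ 0 → (v B).Ge (v B f) (δ i f))
    (h2 : ∀ B f, f ≠ 0 → (v B).Ge (v B f + 1) (∑ i, (v B (t i) : L) * δ i f - (v B f : L) * f))
    {B : β} {s : ℤ} {f : L} (hf : f ≠ 0) (h : DB δ t v B f = (s : Q) • f) : v B f = s := by
  by_contra hne
  have h3 := ge_step δ t v h1 h2 (B := B) (m := v B f) (f := f) (DVal.ge_self f)
  rw [h, ← sub_smul] at h3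
  have h4 : ((s : Q) - (v B f : Q)) ≠ 0 := by
    rw [sub_ne_zero]
    exact_mod_cast fun h5 : s = v B f => hne h5.symm
  have h5 : algebraMap Q L ((s : Q) - (v B f : Q)) ≠ 0 := (map_ne_zero _).2 h4
  rw [Algebra.smul_def, DVal.ge_iff (mul_ne_zero h5 hf), (v B).map_mul h5 hf, (v B).map_const] at h3
  push_cast at h3
  linarith


private theorem DB_comm (hcomm : ∀ i j f, δ i (δ j f) = δ j (δ i f)) (B B' : β) (f : L) :
    DB δ t v B (DB δ t v B' f) = DB δ t v B' (DB δ t v B f) := by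
  simp only [DB_apply, map_sum, map_smul, Finset.smul_sum]
  rw [Finset.sum_comm]
  refine Finset.sum_congr rfl fun i _ => Finset.sum_congr rfl fun j _ => ?_
  rw [smul_comm, hcomm]

private theorem fg_of_le {V W : Submodule Q L} (h : V ≤ W) (hW : W.FG) : V.FG := by
  have h1 : Module.Finite Q W := Module.Finite.iff_fg.2 hW
  have h2 : FiniteDimensional Q V := Submodule.finiteDimensional_of_le h
  exact Module.Finite.iff_fg.1 h2

private theorem DB_mem {O : Subalgebra Q L} (hO : ∀ i, ∀ f ∈ O, δ i f ∈ O) (B : β) {f : L}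
    (hf : f ∈ O) : DB δ t v B f ∈ O := by
  rw [DB_apply]
  exact O.sum_mem fun i _ => O.smul_mem (hO i f hf) _

private theorem step_fg [DecidableEq β] (hcomm : ∀ i j f, δ i (δ j f) = δ j (δ i f))
    (h1 : ∀ B i f, f ≠ 0 → (v B).Ge (v B f) (δ i f))
    (h2 : ∀ B f, f ≠ 0 → (v B).Ge (v B f + 1) (∑ i, (v B (t i) : L) * δ i f - (v B f : L) * f))
    {O : Subalgebra Q L} (hO : ∀ i, ∀ f ∈ O, δ i f ∈ O) {S : Finset β} {B : β}
    {s c : β → ℤ} (hs : ∀ s', (VS δ t v O (insert B S) s' c).FG)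
    (hc : (VS δ t v O S s (Function.update c B (c B - 1))).FG) (hB : B ∉ S) :
    (VS δ t v O S s c).FG := by
  refine Submodule.fg_of_fg_map_of_fg_inf_ker (DB δ t v B + (c B : Q) • LinearMap.id)
    (fg_of_le ?_ hc) (fg_of_le ?_ (hs (Function.update s B (-c B))))
  · rintro _ ⟨f, hf, rfl⟩
    have hf' := mem_VS.1 hf
    rw [mem_VS]
    have e : (DB δ t v B + (c B : Q) • LinearMap.id : L →ₗ[Q] L) f =
        DB δ t v B f - ((-c B : ℤ) : Q) • f := by
      rw [LinearMap.add_apply, LinearMap.smul_apply, LinearMap.id_apply]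
      push_cast
      rw [neg_smul, sub_neg_eq_add]
    rw [e]
    refine ⟨O.sub_mem (DB_mem δ t v hO B hf'.1) (O.smul_mem hf'.1 _), fun B' => ?_, fun B' hB' => ?_⟩
    · by_cases hBB : B' = B
      · subst hBB
        rw [Function.update_self]
        have h3 := ge_step δ t v h1 h2 (B := B') (m := -c B') (f := f) (by
          push_cast
          exact hf'.2.1 B')
        push_cast at h3 ⊢
        refine h3.mono (le_of_eq ?_)
        ring
      · rw [Function.update_of_ne hBB]
        exact (ge_DB δ t v h1 B (hf'.2.1 B')).sub ((hf'.2.1 B').smul _)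
    · rw [map_sub, map_smul, DB_comm δ t v hcomm, hf'.2.2 B' hB', map_smul, smul_sub, smul_comm]
  · rintro f ⟨hf, hf2⟩
    have hf' := mem_VS.1 hf
    rw [mem_VS]
    refine ⟨hf'.1, hf'.2.1, fun B' hB' => ?_⟩
    rw [Finset.mem_insert] at hB'
    have h3 : DB δ t v B f + (c B : Q) • f = 0 := hf2
    by_cases hBB : B' = B
    · subst hBB
      rw [Function.update_self]
      push_cast
      rw [neg_smul]
      exact eq_neg_of_add_eq_zero_left h3
    · rw [Function.update_of_ne hBB]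
      exact hf'.2.2 B' (hB'.resolve_left hBB)

private theorem exists_twist [CharZero Q] (S : Finset β) (s : β → ℤ) {f₀ : L} (hf₀ : f₀ ≠ 0)
    (h : ∀ B ∈ S, DB δ t v B f₀ = (s B : Q) • f₀) :
    ∃ (M : ℕ) (J : ι → ℤ), 1 ≤ M ∧ ∀ B ∈ S, ∑ i, J i * v B (t i) = -(M * s B) := by
  classical
  let A : (S → ℚ) →ₗ[ℚ] (ι → ℚ) :=
    ∑ B : S, (LinearMap.proj B : (S → ℚ) →ₗ[ℚ] ℚ).smulRight (fun i => (v B.1 (t i) : ℚ))
  let σ : (S → ℚ) →ₗ[ℚ] ℚ := ∑ B : S, (s B.1 : ℚ) • (LinearMap.proj B : (S → ℚ) →ₗ[ℚ] ℚ)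
  have hA : ∀ x, A x = ∑ B : S, x B • (fun i => (v B.1 (t i) : ℚ)) := by
    intro x
    simp only [A, LinearMap.sum_apply, LinearMap.smulRight_apply, LinearMap.proj_apply]
  have hσ : ∀ x, σ x = ∑ B : S, (s B.1 : ℚ) * x B := by
    intro x
    simp only [σ, LinearMap.sum_apply, LinearMap.smul_apply, LinearMap.proj_apply, smul_eq_mul]
  have hker : σ ∈ (LinearMap.ker A).dualAnnihilator := by
    rw [Submodule.mem_dualAnnihilator]
    intro x hx
    rw [LinearMap.mem_ker, hA] at hx
    have h3 : ∀ i, ∑ B : S, x B * (v B.1 (t i) : ℚ) = 0 := by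
      intro i
      have := congrFun hx i
      rw [Finset.sum_apply] at this
      simpa only [Pi.smul_apply, smul_eq_mul, Pi.zero_apply] using this
    have h4 : ∑ B : S, ((x B : ℚ) : Q) • DB δ t v B.1 f₀ = 0 := by
      simp only [DB_apply, Finset.smul_sum, smul_smul]
      rw [Finset.sum_comm]
      refine Finset.sum_eq_zero fun i _ => ?_
      rw [← Finset.sum_smul]
      have h5 := congrArg (fun q : ℚ => (q : Q)) (h3 i)
      push_cast at h5
      rw [h5, zero_smul]
    have h5 : (((∑ B : S, (s B.1 : ℚ) * x B : ℚ)) : Q) • f₀ = 0 := by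
      rw [← h4]
      push_cast
      rw [Finset.sum_smul]
      refine Finset.sum_congr rfl fun B _ => ?_
      rw [h B.1 B.2, smul_smul, mul_comm]
    have h6 := (smul_eq_zero.1 h5).resolve_right hf₀
    rw [hσ]
    exact_mod_cast h6
  rw [← LinearMap.range_dualMap_eq_dualAnnihilator_ker] at hker
  obtain ⟨φ, hφ⟩ := hker
  -- clear denominators
  let x : ι → ℚ := fun i => φ fun j => if i = j then 1 else 0
  have hφ' : ∀ w : ι → ℚ, φ w = ∑ i, w i * x i := by
    intro w
    rw [LinearMap.pi_apply_eq_sum_univ φ w]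
    rfl
  have hden : ∀ i, ∃ J : ℤ, (J : ℚ) = -((∏ j, ((x j).den : ℚ)) * x i) := by
    intro i
    obtain ⟨r, hr⟩ := Finset.dvd_prod_of_mem (fun j => (x j).den) (Finset.mem_univ i)
    refine ⟨-(r * (x i).num), ?_⟩
    have h3 : (∏ j, ((x j).den : ℚ)) = ((x i).den : ℚ) * r := by
      have h4 := congrArg (fun m : ℕ => (m : ℚ)) hr
      push_cast at h4
      exact h4
    rw [h3]
    push_cast
    have h4 : ((x i).den : ℚ) * x i = (x i).num := by
      rw [mul_comm]
      exact Rat.mul_den_eq_num (x i)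
    linear_combination (r : ℚ) * h4
  choose J hJ using hden
  refine ⟨∏ i, (x i).den, J, ?_, fun B hB => ?_⟩
  · exact Nat.one_le_iff_ne_zero.2 (Finset.prod_ne_zero_iff.2 fun i _ => (x i).den_nz)
  · have h3 : φ (A (Pi.single ⟨B, hB⟩ 1)) = σ (Pi.single ⟨B, hB⟩ 1) := by
      rw [← hφ]
      rfl
    have h4 : A (Pi.single ⟨B, hB⟩ 1) = fun i => (v B (t i) : ℚ) := by
      rw [hA, Finset.sum_eq_single ⟨B, hB⟩]
      · rw [Pi.single_eq_same, one_smul]
      · intro B' _ hne
        rw [Pi.single_eq_of_ne hne, zero_smul]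
      · intro h5
        exact absurd (Finset.mem_univ _) h5
    have h5 : σ (Pi.single ⟨B, hB⟩ 1) = s B := by
      rw [hσ, Finset.sum_eq_single ⟨B, hB⟩]
      · rw [Pi.single_eq_same, mul_one]
      · intro B' _ hne
        rw [Pi.single_eq_of_ne hne, mul_zero]
      · intro h5
        exact absurd (Finset.mem_univ _) h5
    rw [h4, h5, hφ'] at h3
    have h6 : ((∑ i, J i * v B (t i) : ℤ) : ℚ) = ((-((∏ i, (x i).den : ℕ) * s B) : ℤ) : ℚ) := by
      push_cast
      rw [← h3, Finset.mul_sum, ← Finset.sum_neg_distrib]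
      refine Finset.sum_congr rfl fun i _ => ?_
      rw [hJ i]
      ring
    exact_mod_cast h6

private theorem base_fg [CharZero Q] [Fintype β] (ht : ∀ i, t i ≠ 0)
    (h1 : ∀ B i f, f ≠ 0 → (v B).Ge (v B f) (δ i f))
    (h2 : ∀ B f, f ≠ 0 → (v B).Ge (v B f + 1) (∑ i, (v B (t i) : L) * δ i f - (v B f : L) * f))
    {O : Subalgebra Q L} (htO : ∀ i, t i ∈ O ∧ (t i)⁻¹ ∈ O)
    (hQ : ∀ f ∈ O, (∀ B, 0 ≤ v B f) → ∃ q : Q, f = algebraMap Q L q)
    (hac : ∀ x : L, IsAlgebraic Q x → ∃ q : Q, x = algebraMap Q L q) (S : Finset β) (s : β → ℤ) :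
    ∃ N : ℕ, ∀ c : β → ℤ, (∀ B ∉ S, c B ≤ -N) → (VS δ t v O S s c).FG := by
  classical
  by_cases hex : ∃ f₀ : L, f₀ ≠ 0 ∧ ∀ B ∈ S, DB δ t v B f₀ = (s B : Q) • f₀
  · obtain ⟨f₀, hf₀, h0⟩ := hex
    obtain ⟨M, J, hM, hJ⟩ := exists_twist δ t v S s hf₀ h0
    refine ⟨∑ B, (∑ i, J i * v B (t i)).natAbs, fun c hc => ?_⟩
    set N : ℕ := ∑ B, (∑ i, J i * v B (t i)).natAbs with hN
    have hNB : ∀ B, -(∑ i, J i * v B (t i)) ≤ N := by
      intro B
      have h3 : (∑ i, J i * v B (t i)).natAbs ≤ N :=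
        Finset.single_le_sum (f := fun B => (∑ i, J i * v B (t i)).natAbs)
          (fun _ _ => Nat.zero_le _) (Finset.mem_univ B)
      have h4 : ((∑ i, J i * v B (t i)).natAbs : ℤ) ≤ N := by exact_mod_cast h3
      have h5 := neg_le_abs (∑ i, J i * v B (t i))
      rw [Int.abs_eq_natAbs] at h5
      exact h5.trans h4
    -- the invariant monomial
    set m : L := ∏ i, t i ^ J i with hm
    have hm0 : m ≠ 0 := Finset.prod_ne_zero_iff.2 fun i _ => zpow_ne_zero _ (ht i)
    have hmO : m ∈ O := by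
      refine O.prod_mem fun i _ => ?_
      cases J i with
      | ofNat a =>
        rw [Int.ofNat_eq_natCast, zpow_natCast]
        exact O.pow_mem (htO i).1 a
      | negSucc a =>
        rw [zpow_negSucc, ← inv_pow]
        exact O.pow_mem (htO i).2 (a + 1)
    have hmv : ∀ B, v B m = ∑ i, J i * v B (t i) := by
      intro B
      rw [hm, (v B).map_prod _ _ fun i _ => zpow_ne_zero _ (ht i)]
      refine Finset.sum_congr rfl fun i _ => ?_
      rw [(v B).map_zpow]
    have hkey : ∀ x ∈ VS δ t v O S s c, x ≠ 0 → ∃ q : Q, x ^ M * m = algebraMap Q L q := by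
      intro x hx hx0
      have hx' := mem_VS.1 hx
      refine hQ _ (O.mul_mem (O.pow_mem hx'.1 M) hmO) fun B => ?_
      rw [(v B).map_mul (pow_ne_zero _ hx0) hm0, (v B).map_pow, hmv]
      by_cases hB : B ∈ S
      · rw [hJ B hB, eig δ t v h1 h2 hx0 (hx'.2.2 B hB)]
        simp
      · have h3 := (DVal.ge_iff hx0).1 (hx'.2.1 B)
        have h4 : -c B ≤ v B x := by exact_mod_cast h3
        have h5 := hc B hB
        have h6 := hNB B
        have h7 : (N : ℤ) ≤ v B x := by omega
        have h8 : (1 : ℤ) ≤ M := by exact_mod_cast hM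
        have h9 : (0 : ℤ) ≤ N := Int.natCast_nonneg N
        nlinarith
    by_cases hbot : ∃ x₀ ∈ VS δ t v O S s c, x₀ ≠ 0
    · obtain ⟨x₀, hx₀, hx₀0⟩ := hbot
      refine fg_of_le (W := Submodule.span Q {x₀}) ?_ (Submodule.fg_span_singleton x₀)
      intro x hx
      by_cases hx0 : x = 0
      · rw [hx0]
        exact Submodule.zero_mem _
      obtain ⟨q, hq⟩ := hkey x hx hx0
      obtain ⟨q₀, hq₀⟩ := hkey x₀ hx₀ hx₀0
      have h3 : (x / x₀) ^ M = algebraMap Q L (q / q₀) := by
        rw [map_div₀, ← hq, ← hq₀, div_pow, mul_div_mul_right _ _ hm0]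
      have h4 : IsAlgebraic Q (x / x₀) := by
        refine IsAlgebraic.of_pow (n := M) (by omega) ?_
        rw [h3]
        exact isAlgebraic_algebraMap _
      obtain ⟨r, hr⟩ := hac _ h4
      rw [Submodule.mem_span_singleton]
      refine ⟨r, ?_⟩
      rw [Algebra.smul_def, ← hr, div_mul_cancel₀ x hx₀0]
    · push Not at hbot
      have h3 : VS δ t v O S s c = ⊥ := (Submodule.eq_bot_iff _).2 hbot
      rw [h3]
      exact Submodule.fg_bot
  · refine ⟨0, fun c _ => ?_⟩
    push Not at hex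
    have h3 : VS δ t v O S s c = ⊥ := by
      rw [Submodule.eq_bot_iff]
      intro x hx
      by_contra hx0
      obtain ⟨B, hB, hne⟩ := hex x hx0
      exact hne ((mem_VS.1 hx).2.2 B hB)
    rw [h3]
    exact Submodule.fg_bot

end Aux

theorem key {Q L : Type*} [Field Q] [CharZero Q] [Field L] [Algebra Q L] {ι β : Type*} [Fintype ι]
    [Fintype β] (δ : ι → L →ₗ[Q] L) (hcomm : ∀ i j f, δ i (δ j f) = δ j (δ i f))
    (t : ι → L) (ht : ∀ i, t i ≠ 0) (v : β → DVal Q L)
    (h1 : ∀ B i f, f ≠ 0 → (v B).Ge (v B f) (δ i f))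
    (h2 : ∀ B f, f ≠ 0 → (v B).Ge (v B f + 1) (∑ i, (v B (t i) : L) * δ i f - (v B f : L) * f))
    (O : Subalgebra Q L) (hO : ∀ i, ∀ f ∈ O, δ i f ∈ O) (htO : ∀ i, t i ∈ O ∧ (t i)⁻¹ ∈ O)
    (hQ : ∀ f ∈ O, (∀ B, 0 ≤ v B f) → ∃ q : Q, f = algebraMap Q L q)
    (hac : ∀ x : L, IsAlgebraic Q x → ∃ q : Q, x = algebraMap Q L q) (c : β → ℤ) :
    FiniteDimensional Q (box O v c) := by
  classical
  have main : ∀ (n : ℕ) (S : Finset β), (Finset.univ \ S).card = n → ∀ s c : β → ℤ,
      (VS δ t v O S s c).FG := by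
    intro n
    induction n with
    | zero =>
      intro S hS s c
      obtain ⟨N, hN⟩ := base_fg δ t v ht h1 h2 htO hQ hac S s
      refine hN c fun B hB => ?_
      rw [Finset.card_eq_zero] at hS
      have : B ∈ Finset.univ \ S := Finset.mem_sdiff.2 ⟨Finset.mem_univ B, hB⟩
      rw [hS] at this
      exact absurd this (Finset.notMem_empty B)
    | succ n ih =>
      intro S hS s
      obtain ⟨N, hN⟩ := base_fg δ t v ht h1 h2 htO hQ hac S s
      have hstep : ∀ (m : ℕ) (c : β → ℤ), ∑ B ∈ Finset.univ \ S, (c B + N).toNat = m →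
          (VS δ t v O S s c).FG := by
        intro m
        induction m using Nat.strong_induction_on with
        | _ m ihm =>
          intro c hm
          by_cases hall : ∀ B ∉ S, c B ≤ -N
          · exact hN c hall
          · push Not at hall
            obtain ⟨B, hB, hcB⟩ := hall
            refine step_fg δ t v hcomm h1 h2 hO (B := B) (fun s' => ?_) ?_ hB
            · refine ih (insert B S) ?_ s' c
              have h3 : Finset.univ \ insert B S = (Finset.univ \ S).erase B := by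
                ext x
                simp only [Finset.mem_sdiff, Finset.mem_univ, true_and, Finset.mem_insert,
                  Finset.mem_erase]
                tauto
              rw [h3, Finset.card_erase_of_mem (Finset.mem_sdiff.2 ⟨Finset.mem_univ B, hB⟩), hS]
              rfl
            · refine ihm _ ?_ _ rfl
              rw [← hm]
              refine Finset.sum_lt_sum (fun B' _ => ?_)
                ⟨B, Finset.mem_sdiff.2 ⟨Finset.mem_univ B, hB⟩, ?_⟩
              · by_cases hBB : B' = B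
                · subst hBB
                  rw [Function.update_self]
                  omega
                · rw [Function.update_of_ne hBB]
              · rw [Function.update_self]
                omega
      exact fun c => hstep _ c rfl
  have h3 := main _ ∅ rfl 0 c
  have h4 : VS δ t v O ∅ 0 c = box O v c := by
    ext f
    rw [mem_VS, mem_box]
    simp
  rw [h4] at h3
  exact Module.Finite.iff_fg.2 h3

end Pool.Agent.Helper60.MA
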