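import Pool.Agent.Helper60.MA.Defs

set_option autoImplicit false

/-!
# MA-5 KodGe: algebraically independent quotients of sections

CLAIM. If `g₀ ≠ 0` and `z_i g₀` are sections of `M D`, `M ≥ 1`, and `z : Fin d → L` is
algebraically independent over `k`, then `d ≤ κ(D)`.

PROOF. Use `Helper47.PQ.regular D`. First case impossible (`g₀ ∈ H⁰(M D)`). Second case:
`κ(D) = d'` and `dim H⁰(m D) ≤ C m ^ d'` for all `m ≥ 1`. For `m ≥ 1` and `a ∈ {0, ..., m}^d` the element
`g₀ ^ (d m) ∏ z_i ^ a_i` (for `d ≥ 1`) is a product of `d m` factors `g₀` or `z_i g₀`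
(`∏ (z_i g₀) ^ a_i * g₀ ^ (d m - ∑ a_i)`), so it is in `H⁰(d m M D)` (`Ge.mul`, `mem_H0`); these
`(m + 1) ^ d` elements are linearly independent over `k` (distinct monomials in
algebraically independent elements, times the nonzero `g₀ ^ (d m)`;
`AlgebraicIndependent` and `MvPolynomial.basisMonomials` or `aeval` injective). So
`(m + 1) ^ d ≤ C (d m M) ^ d'` for all `m ≥ 1`, hence `d ≤ d'`: otherwise
`m ^ d' * (m + 1) ≤ (m + 1) ^ d ≤ C (d M) ^ d' m ^ d'`, so `m + 1 ≤ C (d M) ^ d'` for all `m`, false.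
(`d = 0`: `0 ≤ κ` as `κ = d'`.)
-/

namespace Pool.Agent.Helper60.MA

open Pool.Agent.Helper92.Weak

private theorem kg_mul {k L : Type*} [Field k] [Field L] [Algebra k L] {X : ProjVar k L}
    {D E : X.Div} {f g : L} (hf : f ∈ X.H0 D) (hg : g ∈ X.H0 E) : f * g ∈ X.H0 (D + E) := by
  rw [mem_H0] at hf hg ⊢
  intro P
  refine ((hf P).mul (hg P)).mono (le_of_eq ?_)
  rw [Finsupp.add_apply]
  ring

private theorem kg_one {k L : Type*} [Field k] [Field L] [Algebra k L] {X : ProjVar k L} :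
    (1 : L) ∈ X.H0 (0 : X.Div) := mem_H0.2 fun P => Or.inr (by simp)

private theorem kg_pow {k L : Type*} [Field k] [Field L] [Algebra k L] {X : ProjVar k L}
    {D : X.Div} {f : L} (hf : f ∈ X.H0 D) (n : ℕ) : f ^ n ∈ X.H0 ((n : ℚ) • D) := by
  induction n with
  | zero =>
    simp only [pow_zero, Nat.cast_zero, zero_smul]
    exact kg_one
  | succ n ih =>
    rw [pow_succ, Nat.cast_add, Nat.cast_one, add_smul, one_smul]
    exact kg_mul ih hf

private theorem kg_prod {k L : Type*} [Field k] [Field L] [Algebra k L] {X : ProjVar k L}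
    {D : X.Div} {ι : Type*} (s : Finset ι) (f : ι → L) (a : ι → ℕ) (hf : ∀ i, f i ∈ X.H0 D) :
    ∏ i ∈ s, f i ^ a i ∈ X.H0 (((∑ i ∈ s, a i : ℕ) : ℚ) • D) := by
  classical
  induction s using Finset.induction_on with
  | empty =>
    simp only [Finset.prod_empty, Finset.sum_empty, Nat.cast_zero, zero_smul]
    exact kg_one
  | insert b s hb ih =>
    rw [Finset.prod_insert hb, Finset.sum_insert hb, Nat.cast_add, add_smul]
    exact kg_mul (kg_pow (hf b) _) ih

private theorem kg_lin {k L : Type*} [Field k] [Field L] [Algebra k L] {d : ℕ} {z : Fin d → L}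
    (hind : AlgebraicIndependent k z) {g : L} (hg : g ≠ 0) (m : ℕ) :
    LinearIndependent k (fun a : Fin d → Fin (m + 1) => g * ∏ i, z i ^ (a i : ℕ)) := by
  have h1 : LinearIndependent k (fun s : Fin d →₀ ℕ => MvPolynomial.monomial s (1 : k)) := by
    have h := (MvPolynomial.basisMonomials (Fin d) k).linearIndependent
    rwa [MvPolynomial.coe_basisMonomials] at h
  have h2 : LinearIndependent k
      (fun s : Fin d →₀ ℕ => MvPolynomial.aeval z (MvPolynomial.monomial s (1 : k))) :=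
    h1.map' (MvPolynomial.aeval z).toLinearMap (LinearMap.ker_eq_bot.2 hind)
  have hinj : Function.Injective (fun a : Fin d → Fin (m + 1) =>
      Finsupp.equivFunOnFinite.symm (fun i => ((a i : Fin (m + 1)) : ℕ))) := by
    intro a b hab
    have h3 := Finsupp.equivFunOnFinite.symm.injective hab
    funext i
    exact Fin.ext (congrFun h3 i)
  have h4 := (h2.comp _ hinj).map' (LinearMap.mulLeft k g)
    (LinearMap.ker_eq_bot.2 (mul_right_injective₀ hg))
  have h5 : (fun a : Fin d → Fin (m + 1) => g * ∏ i, z i ^ (a i : ℕ)) =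
      ⇑(LinearMap.mulLeft k g) ∘ (fun s : Fin d →₀ ℕ =>
        MvPolynomial.aeval z (MvPolynomial.monomial s (1 : k))) ∘
        fun a : Fin d → Fin (m + 1) =>
          Finsupp.equivFunOnFinite.symm (fun i => ((a i : Fin (m + 1)) : ℕ)) := by
    funext a
    simp only [Function.comp_apply, LinearMap.mulLeft_apply, MvPolynomial.aeval_monomial,
      map_one, one_mul]
    congr 1
    rw [Finsupp.prod_fintype _ _ (fun i => pow_zero _)]
    rfl
  rw [h5]
  exact h4

private theorem kg_sdim {k L : Type*} [Field k] [Field L] [Algebra k L] {ι : Type} [Fintype ι]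
    {W : Submodule k L} (v : ι → L) (hv : LinearIndependent k v) (hW : ∀ i, v i ∈ W) :
    (Fintype.card ι : ℕ∞) ≤ sdim W := by
  have h : LinearIndependent k (fun i => (⟨v i, hW i⟩ : W)) :=
    LinearIndependent.of_comp W.subtype hv
  have h2 := h.cardinal_lift_le_rank
  have h3 := OrderHomClass.mono Cardinal.toENat h2
  simpa [sdim] using h3

private theorem kg_count {d d' C M : ℕ}
    (h : ∀ m : ℕ, 1 ≤ m → (m + 1) ^ d ≤ C * (d * m * M) ^ d') : d ≤ d' := by
  by_contra hlt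
  push Not at hlt
  obtain ⟨K, hK⟩ : ∃ K, K = C * (d * M) ^ d' := ⟨_, rfl⟩
  have h1 := h (K + 1) (by omega)
  have h2 : (K + 1 + 1) ^ (d' + 1) ≤ (K + 1 + 1) ^ d := Nat.pow_le_pow_right (by omega) hlt
  have h3 : C * (d * (K + 1) * M) ^ d' = K * (K + 1) ^ d' := by
    have e : d * (K + 1) * M = d * M * (K + 1) := by ring
    rw [e, mul_pow, ← mul_assoc, ← hK]
  have h4 : K * (K + 1) ^ d' ≤ K * (K + 1 + 1) ^ d' :=
    Nat.mul_le_mul_left _ (Nat.pow_le_pow_left (by omega) _)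
  have h5 : (K + 1 + 1) ^ (d' + 1) = (K + 1 + 1) * (K + 1 + 1) ^ d' := by ring
  have h6 : 0 < (K + 1 + 1) ^ d' := by positivity
  have h7 : (K + 1 + 1) * (K + 1 + 1) ^ d' ≤ K * (K + 1 + 1) ^ d' := by
    rw [← h5]
    exact h2.trans (h1.trans (h3.le.trans h4))
  have h8 := Nat.le_of_mul_le_mul_right h7 h6
  omega

theorem le_kod {k L : Type*} [Field k] [IsAlgClosed k] [Field L] [Algebra k L] (X : ProjVar k L)
    (D : X.Div) {M : ℕ} (hM : 1 ≤ M) {g₀ : L} (hg₀ : g₀ ∈ X.H0 ((M : ℚ) • D)) (h0 : g₀ ≠ 0) {d : ℕ}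
    (z : Fin d → L) (hz : ∀ i, z i * g₀ ∈ X.H0 ((M : ℚ) • D)) (hind : AlgebraicIndependent k z) :
    (d : EReal) ≤ X.kod D := by
  rcases Pool.Agent.Helper47.PQ.regular D with ⟨hbot, -⟩ | ⟨d', C, m₀, hkod, -, -, -, hub⟩
  · exfalso
    rw [hbot M hM, Submodule.mem_bot] at hg₀
    exact h0 hg₀
  rw [hkod]
  rcases Nat.eq_zero_or_pos d with hd | hd
  · subst hd
    exact_mod_cast Nat.zero_le d'
  suffices hle : d ≤ d' by exact_mod_cast hle
  refine kg_count (C := C) (M := M) fun m hm => ?_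
  have hn : 1 ≤ d * m * M := Nat.succ_le_of_lt (by positivity)
  have h1 := hub (d * m * M) hn
  have h2 : ((Fintype.card (Fin d → Fin (m + 1)) : ℕ) : ℕ∞) ≤
      sdim (X.H0 (((d * m * M : ℕ) : ℚ) • D)) := by
    refine kg_sdim (fun a : Fin d → Fin (m + 1) => g₀ ^ (d * m) * ∏ i, z i ^ (a i : ℕ))
      (kg_lin hind (pow_ne_zero _ h0) m) fun a => ?_
    have hs : ∑ i, (a i : ℕ) ≤ d * m := by
      calc ∑ i, (a i : ℕ) ≤ ∑ _i : Fin d, m :=
            Finset.sum_le_sum fun i _ => Nat.lt_succ_iff.1 (a i).2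
        _ = d * m := by simp
    have h3 := kg_mul (kg_pow hg₀ (d * m - ∑ i, (a i : ℕ)))
      (kg_prod Finset.univ (fun i => z i * g₀) (fun i => (a i : ℕ)) hz)
    have h4 : (((d * m - ∑ i, (a i : ℕ) : ℕ) : ℚ) • ((M : ℚ) • D) +
        ((∑ i, (a i : ℕ) : ℕ) : ℚ) • ((M : ℚ) • D) : X.Div) =
        ((d * m * M : ℕ) : ℚ) • D := by
      rw [← add_smul, ← Nat.cast_add, Nat.sub_add_cancel hs, smul_smul, ← Nat.cast_mul]
    rw [h4] at h3
    refine (congrArg (· ∈ X.H0 (((d * m * M : ℕ) : ℚ) • D)) ?_).mp h3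
    simp only [mul_pow, Finset.prod_mul_distrib, Finset.prod_pow_eq_pow_sum]
    rw [mul_comm (∏ i, z i ^ (a i : ℕ)), ← mul_assoc, ← pow_add, Nat.sub_add_cancel hs]
  have h5 := h2.trans h1
  have h6 : Fintype.card (Fin d → Fin (m + 1)) = (m + 1) ^ d := by simp
  rw [h6] at h5
  exact_mod_cast h5

end Pool.Agent.Helper60.MA
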