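import Pool.Agent.Helper60.MA.Defs

set_option autoImplicit false

/-!
# MA-2 LogGe: a logarithmic form has order at least -1

SETTING as in MA-1 (`Toric`), but now `f dy` has any order `a` at `v`. CLAIM:
`v(f) + ∑_{i ∈ S} v(y_i) - 1 ≤ a`.

PROOF. `f dy ≠ 0` (`Forms.dform_ne_zero`). By `Forms.exists_coord` and
`Forms.exists_coord_uniformizer` there are `z'`, a basis `b' i = D (z' i)`, `i₀`, with
`z'_{i₀} = π`, `v(π) = 1`, all `∂'_i = b'.repr (D ·) i` preserve the ring of `v`, and
`f dy = u dz'`, `v(u) = a`. By `Forms.dform_eq_det`, `u = f det(∂'_i y_j)`. As in MA-1 (1), for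
`j ∈ S` and `i ≠ i₀`: `v(∂'_i y_j) ≥ v(y_j)`, and `v(∂'_{i₀} y_j) ≥ v(y_j) - 1`; for
`j ∉ S`: `v(∂'_i y_j) ≥ 0`, so also `v(π ∂'_{i₀} y_j) ≥ 0`. Multiplying row `i₀` by `π` and column
`j ∈ S` by `y_j⁻¹` gives a matrix with entries in the ring of `v`:
`v(det(∂'_i y_j)) ≥ ∑_{j ∈ S} v(y_j) - 1` (`Forms.det_mem_ring`).
-/

namespace Pool.Agent.Helper60.MA

open Pool.Agent.Helper92.Weak Module Pool.Agent.Helper50
open scoped KaehlerDifferential

/-- The matrix entries of the logarithmic derivatives. -/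
theorem log_ge_entry {k L : Type*} [Field k] [CharZero k] [Field L] [Algebra k L] {n : ℕ}
    (v : DVal k L) (z : Fin n → L) (b : Basis (Fin n) L Ω[L⁄k])
    (hb : ∀ i, b i = KaehlerDifferential.D k L (z i))
    (h : ∀ y, 0 ≤ v y → ∀ i, 0 ≤ v (b.repr (KaehlerDifferential.D k L y) i)) (i₀ : Fin n)
    (hp : v (z i₀) = 1) (i : Fin n) {x : L} (hx : x ≠ 0) :
    (if i = i₀ then z i₀ else 1) * (x⁻¹ * b.repr (KaehlerDifferential.D k L x) i) ∈ v.ring := by
  classical
  have hp0 : z i₀ ≠ 0 := v.ne_zero_of_pos (by omega)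
  set m : ℤ := v x with hm
  set w : L := x * z i₀ ^ (-m) with hw
  have hw0 : w ≠ 0 := mul_ne_zero hx (zpow_ne_zero _ hp0)
  have hvw : v w = 0 := by
    rw [hw, v.map_mul hx (zpow_ne_zero _ hp0), v.map_zpow, hp]
    omega
  have hxw : x = z i₀ ^ m * w := by
    rw [hw, mul_comm x, ← mul_assoc, ← zpow_add₀ hp0]
    simp
  have e1 : x⁻¹ * b.repr (KaehlerDifferential.D k L x) i =
      b.repr (Forms.dl k x) i := by
    rw [Forms.dl, map_smul, Finsupp.smul_apply, smul_eq_mul]
  have e2 : b.repr (Forms.dl k x) i =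
      (m : L) * ((z i₀)⁻¹ * if i = i₀ then 1 else 0) +
        w⁻¹ * b.repr (KaehlerDifferential.D k L w) i := by
    rw [hxw, Forms.dl_mul (zpow_ne_zero _ hp0) hw0, Forms.dl_zpow hp0, map_add, map_smul]
    rw [Finsupp.add_apply, Finsupp.smul_apply, smul_eq_mul]
    congr 1
    · congr 1
      rw [Forms.dl, map_smul, Finsupp.smul_apply, smul_eq_mul, ← hb i₀, b.repr_self,
        Finsupp.single_apply]
      by_cases h1 : i = i₀
      · rw [if_pos h1, if_pos h1.symm]
      · rw [if_neg h1, if_neg (Ne.symm h1)]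
    · rw [Forms.dl, map_smul, Finsupp.smul_apply, smul_eq_mul]
  have h3 : w⁻¹ * b.repr (KaehlerDifferential.D k L w) i ∈ v.ring :=
    v.ring.mul_mem (v.unit_of_ring hw0 hvw).2 (h w (by omega) i)
  have h4 : (m : L) ∈ v.ring := by
    have := v.ring.algebraMap_mem (m : k)
    rwa [map_intCast] at this
  rw [e1, e2]
  by_cases h1 : i = i₀
  · rw [if_pos h1, if_pos h1, mul_one, mul_add]
    refine v.ring.add_mem ?_ (v.ring.mul_mem ?_ h3)
    · rw [mul_left_comm, mul_inv_cancel₀ hp0, mul_one]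
      exact h4
    · rw [DVal.mem_ring, hp]
      exact zero_le_one
  · rw [if_neg h1, if_neg h1, mul_zero, mul_zero, zero_add, one_mul]
    exact h3

theorem log_ge {k L : Type*} [Field k] [CharZero k] [Field L] [Algebra k L] {n : ℕ} {y : Fin n → L}
    (hy : IsTranscendenceBasis k y) (b : Basis (Fin n) L Ω[L⁄k])
    (hb : ∀ i, b i = KaehlerDifferential.D k L (y i)) (v : DVal k L) (S : Finset (Fin n))
    (h0 : ∀ i, y i ≠ 0) (hS : ∀ i ∉ S, v (y i) = 0) {f : L} (hf : f ≠ 0) {a : ℤ}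
    (hord : v.IsOrd (f • dform k y) a) : v f + ∑ i ∈ S, v (y i) - 1 ≤ a := by
  classical
  have hω : f • dform k y ≠ 0 := smul_ne_zero hf (Forms.dform_ne_zero y b hb)
  obtain ⟨z, bz, f₁, hbz, hz, hring, hf₁, hva, he⟩ := Forms.exists_coord v b hω hord
  obtain ⟨p, hp0, hp⟩ := v.exists_uniformizer
  obtain ⟨z', b', i₀, u, hb', hz', hring', hi₀, hu0, hvu, hdz⟩ :=
    Forms.exists_coord_uniformizer hy v p hp z bz hbz hz hring
  have hp' : v (z' i₀) = 1 := by rw [hi₀]; exact hp
  have hzi0 : z' i₀ ≠ 0 := by rw [hi₀]; exact hp0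
  set M : Matrix (Fin n) (Fin n) L :=
    Matrix.of fun i j => b'.repr (KaehlerDifferential.D k L (y j)) i with hM
  have hdet : b'.det (fun j => KaehlerDifferential.D k L (y j)) = M.det := by
    rw [Basis.det_apply]
    rfl
  have h1 : f * M.det = f₁ * u := by
    apply Forms.smul_dform_inj z' b' hb'
    rw [mul_smul, mul_smul, ← hdz, ← he, Forms.dform_eq_det z' b' hb' y, hdet]
  have hdet0 : M.det ≠ 0 := by
    intro h0
    rw [h0, mul_zero] at h1
    exact mul_ne_zero hf₁ hu0 h1.symm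
  have h2 : v f + v M.det = a := by
    have := congrArg v h1
    rwa [v.map_mul hf hdet0, v.map_mul hf₁ hu0, hva, hvu, add_zero] at this
  set r : Fin n → L := fun i => if i = i₀ then z' i₀ else 1 with hr
  set c : Fin n → L := fun j => if j ∈ S then (y j)⁻¹ else 1 with hc
  set N : Matrix (Fin n) (Fin n) L :=
    Matrix.of fun i j => c j * (Matrix.of fun i j => r i * M i j) i j with hN
  have hNdet : N.det = (∏ j, c j) * ((∏ i, r i) * M.det) := by
    rw [hN, Matrix.det_mul_row, Matrix.det_mul_column]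
  have hring0 : ∀ i j, N i j ∈ v.ring := by
    intro i j
    have e : N i j = c j * (r i * b'.repr (KaehlerDifferential.D k L (y j)) i) := rfl
    rw [e]
    by_cases hj : j ∈ S
    · have h3 := log_ge_entry v z' b' hb' hring' i₀ hp' i (h0 j)
      have e2 : c j = (y j)⁻¹ := if_pos hj
      rw [e2, mul_left_comm]
      exact h3
    · have e2 : c j = 1 := if_neg hj
      rw [e2, one_mul]
      refine v.ring.mul_mem ?_ ?_
      · by_cases hi : i = i₀
        · have e3 : r i = z' i₀ := if_pos hi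
          rw [e3, DVal.mem_ring, hp']
          exact zero_le_one
        · have e3 : r i = 1 := if_neg hi
          rw [e3]
          exact v.ring.one_mem
      · exact hring' (y j) (by rw [hS j hj]) i
  have h3 : N.det ∈ v.ring := Forms.det_mem_ring v N hring0
  rw [DVal.mem_ring, hNdet] at h3
  have hr0 : ∏ i, r i = z' i₀ := by
    rw [hr, Finset.prod_ite_eq' Finset.univ i₀ (fun _ => z' i₀), if_pos (Finset.mem_univ _)]
  have hc0 : ∀ j ∈ (Finset.univ : Finset (Fin n)), c j ≠ 0 := by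
    intro j _
    by_cases hj : j ∈ S
    · have e2 : c j = (y j)⁻¹ := if_pos hj
      rw [e2]
      exact inv_ne_zero (h0 j)
    · have e2 : c j = 1 := if_neg hj
      rw [e2]
      exact one_ne_zero
  have hcv : v (∏ j, c j) = -∑ j ∈ S, v (y j) := by
    rw [v.map_prod Finset.univ c hc0, ← Finset.sum_neg_distrib,
      ← Finset.sum_subset (Finset.subset_univ S)]
    · refine Finset.sum_congr rfl fun j hj => ?_
      have e2 : c j = (y j)⁻¹ := if_pos hj
      rw [e2, v.map_inv]
    · intro j _ hj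
      have e2 : c j = 1 := if_neg hj
      rw [e2, v.map_one]
  have hr00 : ∏ i, r i ≠ 0 := by rw [hr0]; exact hzi0
  rw [v.map_mul (Finset.prod_ne_zero_iff.2 hc0) (mul_ne_zero hr00 hdet0), hcv,
    v.map_mul hr00 hdet0, hr0, hp'] at h3
  omega

end Pool.Agent.Helper60.MA
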