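import Pool.Agent.Helper60.MA.Defs
import Pool.Agent.Helper92.Weak.FormsT

set_option autoImplicit false

/-!
# MA-11 Pairs: changing the form, choosing the transcendence basis

`exists_psi`. Let `y` be a transcendence basis of `L / k` with `n` elements, `p` a pair of dimension `n`
on `X` and `g ≠ 0`. There is `ψ ≠ 0` such that for every prime `P` of `X` the form `g dy` has an order
`a_P` at `P` with `K(P) = a_P + v_P(ψ)` (`K = p.can`).
PROOF. `exists_form` (Bridge) gives `ω'` in the top exterior power with the same orders as `p.ω`;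
`ω' = ψ' • dform k y` (`Forms.exists_smul_dform`, basis from `Forms.exists_kaehler_basis`). If `X` has no
prime divisor take `ψ = 1`. Otherwise `ω' ≠ 0` (`not_isOrd_zero` and `p.isDivisorOf`), `ψ' ≠ 0`, put
`ψ = ψ' / g`: `ω' = ψ • (g • dform k y)`. By `isOrd_smul` (Helper92/Weak/FormsT) `g • dform k y` has
order `K(P) - v_P(ψ)` at `P`.

`ratios_add_prin`, `H0_add_prin`: `D = D' + div(ψ)`: `f ∈ H⁰(m D)` iff `ψ ^ m f ∈ H⁰(m D')`, and the
quotients of sections are the same.

`exists_basis`. `z : Fin d → L` algebraically independent over `k`, `t : Fin e → L`, and every element of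
`L` algebraic over `k(z, t)`. There is `τ : Fin e' → Fin e` such that `Fin.append z (t ∘ τ)` is a
transcendence basis. PROOF. `exists_isTranscendenceBasis_between` (or the matroid) for
`range z ⊆ range z ∪ range t`: a transcendence basis `B` with `range z ⊆ B ⊆ range z ∪ range t`;
`B \ range z` is finite and contained in `range t`; enumerate it.
-/

namespace Pool.Agent.Helper60.MA

open Pool.Agent.Helper92.Weak Module
open scoped KaehlerDifferential

variable {k L : Type*} [Field k] [Field L] [Algebra k L]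

theorem exists_psi [CharZero k] (X : ProjVar k L) {n : ℕ} (p : X.Pair n) {y : Fin n → L}
    (hy : IsTranscendenceBasis k y) {g : L} (hg : g ≠ 0) :
    ∃ ψ : L, ψ ≠ 0 ∧ ∀ P : X.primeDivisors, ∃ a : ℤ, P.1.IsOrd (g • dform k y) a ∧
      p.can P = a + P.1 ψ := by
  obtain ⟨b, hb⟩ := Helper50.Forms.exists_kaehler_basis hy
  obtain ⟨ω', hω'⟩ := exists_form b y hb p.ω
  obtain ⟨ψ', hψ'⟩ := Helper50.Forms.exists_smul_dform y b hb ω'
  by_cases hX : Nonempty X.primeDivisors
  · obtain ⟨P₀⟩ := hX
    have hψ0 : ψ' ≠ 0 := by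
      rintro rfl
      rw [zero_smul] at hψ'
      obtain ⟨a, -, ha⟩ := p.isDivisorOf P₀
      rw [hω', hψ'] at ha
      exact not_isOrd_zero _ _ ha
    refine ⟨ψ' / g, div_ne_zero hψ0 hg, fun P => ?_⟩
    obtain ⟨a, ha, hord⟩ := p.isDivisorOf P
    rw [hω', hψ'] at hord
    have h1 : ψ' • dform k y = (ψ' / g) • (g • dform k y) := by
      rw [smul_smul, div_mul_cancel₀ _ hg]
    have h2 : a = P.1 (ψ' / g) + (a - P.1 (ψ' / g)) := by ring
    rw [h1, h2, isOrd_smul P.1 (div_ne_zero hψ0 hg)] at hord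
    refine ⟨a - P.1 (ψ' / g), hord, ?_⟩
    rw [ha]
    push_cast
    ring
  · exact ⟨1, one_ne_zero, fun P => absurd ⟨P⟩ hX⟩

theorem H0_add_prin (X : ProjVar k L) (D : X.Div) {ψ : L} (hψ : ψ ≠ 0) (m : ℕ) (f : L) :
    f ∈ X.H0 ((m : ℚ) • (D + X.prin ψ)) ↔ ψ ^ m * f ∈ X.H0 ((m : ℚ) • D) := by
  rw [mem_H0, mem_H0]
  refine forall_congr' fun P => ?_
  by_cases hf : f = 0
  · subst hf
    rw [mul_zero]
    exact ⟨fun _ => DVal.Ge.zero, fun _ => DVal.Ge.zero⟩
  · rw [DVal.ge_iff hf, DVal.ge_iff (mul_ne_zero (pow_ne_zero m hψ) hf),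
      P.1.map_mul (pow_ne_zero m hψ) hf, P.1.map_pow, Finsupp.smul_apply, Finsupp.smul_apply,
      Finsupp.add_apply, ProjVar.prin_apply, smul_eq_mul, smul_eq_mul]
    push_cast
    constructor <;> intro h <;> linarith

theorem ratios_add_prin (X : ProjVar k L) (D : X.Div) {ψ : L} (hψ : ψ ≠ 0) :
    ratios X (D + X.prin ψ) = ratios X D := by
  ext z
  constructor
  · rintro ⟨m, hm, f, hf, g, hg, hg0, rfl⟩
    refine ⟨m, hm, ψ ^ m * f, (H0_add_prin X D hψ m f).1 hf, ψ ^ m * g,
      (H0_add_prin X D hψ m g).1 hg, mul_ne_zero (pow_ne_zero m hψ) hg0, ?_⟩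
    rw [mul_div_mul_left _ _ (pow_ne_zero m hψ)]
  · rintro ⟨m, hm, f, hf, g, hg, hg0, rfl⟩
    have h1 : ∀ x : L, ψ ^ m * ((ψ ^ m)⁻¹ * x) = x := fun x => by
      rw [← mul_assoc, mul_inv_cancel₀ (pow_ne_zero m hψ), one_mul]
    refine ⟨m, hm, (ψ ^ m)⁻¹ * f, (H0_add_prin X D hψ m _).2 (by rwa [h1]), (ψ ^ m)⁻¹ * g,
      (H0_add_prin X D hψ m _).2 (by rwa [h1]),
      mul_ne_zero (inv_ne_zero (pow_ne_zero m hψ)) hg0, ?_⟩
    rw [mul_div_mul_left _ _ (inv_ne_zero (pow_ne_zero m hψ))]

theorem exists_basis {d e : ℕ} (z : Fin d → L) (hz : AlgebraicIndependent k z) (t : Fin e → L)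
    (halg : ∀ x : L, IsAlgebraic (IntermediateField.adjoin k (Set.range z ∪ Set.range t)) x) :
    ∃ (e' : ℕ) (τ : Fin e' → Fin e), IsTranscendenceBasis k (Fin.append z (t ∘ τ)) := by
  have hA : Algebra.IsAlgebraic (IntermediateField.adjoin k (Set.range z ∪ Set.range t)) L :=
    ⟨halg⟩
  have := IntermediateField.isAlgebraic_adjoin_iff_top.1 hA
  obtain ⟨B, hzB, hBt, hB⟩ := exists_isTranscendenceBasis_between (R := k) (Set.range z)
    (Set.range z ∪ Set.range t) Set.subset_union_left hz.to_subtype_range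
  have hfin : (B \ Set.range z).Finite := by
    apply (Set.finite_range t).subset
    rintro x ⟨hx, hx'⟩
    exact (hBt hx).resolve_left hx'
  have := hfin.to_subtype
  obtain ⟨e', ⟨ε⟩⟩ := Finite.exists_equiv_fin (B \ Set.range z : Set L)
  have hC : ∀ c : (B \ Set.range z : Set L), ∃ i, t i = c := fun c =>
    (hBt c.2.1).resolve_left c.2.2
  choose τ₀ hτ₀ using hC
  refine ⟨e', fun i => τ₀ (ε.symm i), ?_⟩
  have hval : ∀ i, (t ∘ fun i => τ₀ (ε.symm i)) i = (ε.symm i : L) := fun i => hτ₀ _
  have hinj : Function.Injective (Fin.append z (t ∘ fun i => τ₀ (ε.symm i))) := by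
    intro i j hij
    induction i using Fin.addCases with
    | left i =>
      induction j using Fin.addCases with
      | left j =>
        rw [Fin.append_left, Fin.append_left] at hij
        rw [hz.injective hij]
      | right j =>
        rw [Fin.append_left, Fin.append_right, hval] at hij
        exact absurd ⟨i, hij⟩ (ε.symm j).2.2
    | right i =>
      induction j using Fin.addCases with
      | left j =>
        rw [Fin.append_left, Fin.append_right, hval] at hij
        exact absurd ⟨j, hij.symm⟩ (ε.symm i).2.2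
      | right j =>
        rw [Fin.append_right, Fin.append_right, hval, hval] at hij
        rw [ε.symm.injective (Subtype.ext hij)]
  have hrange : Set.range (Fin.append z (t ∘ fun i => τ₀ (ε.symm i))) = B := by
    apply Set.Subset.antisymm
    · rintro _ ⟨i, rfl⟩
      induction i using Fin.addCases with
      | left i =>
        rw [Fin.append_left]
        exact hzB ⟨i, rfl⟩
      | right i =>
        rw [Fin.append_right, hval]
        exact (ε.symm i).2.1
    · intro x hx
      by_cases hxz : x ∈ Set.range z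
      · obtain ⟨i, rfl⟩ := hxz
        exact ⟨Fin.castAdd e' i, Fin.append_left _ _ _⟩
      · refine ⟨Fin.natAdd d (ε ⟨x, hx, hxz⟩), ?_⟩
        rw [Fin.append_right, hval, Equiv.symm_apply_apply]
  rw [← isTranscendenceBasis_subtype_range hinj, hrange]
  exact hB

end Pool.Agent.Helper60.MA
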