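import Pool.Agent.Helper60.MA.Defs

set_option autoImplicit false

/-!
# MA-8 Ops: the torus derivations

SETTING. `y` a transcendence basis of `L / k`, `b i = D y_i` the basis of `Ω`, `Q` a field between
`k` and `L` all of whose elements are algebraic over `k(y_i : i ∉ S)`.
CLAIM. There are commuting `Q`-linear maps `δ i` with `δ_i f = y_i ∂_i f` for `i ∈ S`
(`∂_i f = b.repr (D f) i`).

PROOF. `∂_i f = b.repr (D f) i` is a `k`-derivation of `L` (`(b.coord i).compDer (D k L)`),
`∂_i y_j = [i = j]`. For `i ∈ S` the derivation `y_i ∂_i` kills `y_j`, `j ∉ S`, so `k(y_j : j ∉ S)`, and so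
all elements algebraic over this field (characteristic 0: differentiate the minimal polynomial;
for instance: the elements killed by a derivation form a subfield `C` which is algebraically closed in
`L`; Mathlib: `Derivation.eqOn_adjoin`-like lemmas, or `IsAlgebraic` and
`Differential`/`minpoly` with `aeval_derivative ≠ 0` by separability). So it is `Q`-linear:
`δ(q f) = q δ f + f δ q`. Commutativity: `[y_i ∂_i, y_j ∂_j]` is a derivation killing all the
`y_l`, so it kills `L` (algebraic over `k(y)`), or: a derivation of `L / k` is determined by its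
values on `y` since `D y_i` is a basis of `Ω` (`Derivation.liftKaehlerDifferential`, `b.ext`). For
`i ∉ S` take `δ i = 0`.
-/

namespace Pool.Agent.Helper60.MA

open Pool.Agent.Helper92.Weak Module
open scoped KaehlerDifferential

/-- The field of constants of a derivation. -/
def constField {k L : Type*} [Field k] [Field L] [Algebra k L] (d : Derivation k L L) :
    IntermediateField k L where
  carrier := {x | d x = 0}
  mul_mem' {a b} ha hb := by
    simp only [Set.mem_ofPred_eq] at ha hb ⊢
    rw [d.leibniz, ha, hb, smul_zero, smul_zero, add_zero]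
  add_mem' {a b} ha hb := by
    simp only [Set.mem_ofPred_eq] at ha hb ⊢
    rw [map_add, ha, hb, add_zero]
  algebraMap_mem' r := d.map_algebraMap r
  inv_mem' a ha := by
    simp only [Set.mem_ofPred_eq] at ha ⊢
    rw [Derivation.leibniz_inv, ha, smul_zero]

theorem mem_constField {k L : Type*} [Field k] [Field L] [Algebra k L] {d : Derivation k L L}
    {x : L} : x ∈ constField d ↔ d x = 0 := Iff.rfl

/-- A derivation which kills a subfield kills its algebraic elements (characteristic zero). -/
theorem der_eq_zero_of_isAlgebraic {k L : Type*} [Field k] [CharZero k] [Field L] [Algebra k L]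
    (d : Derivation k L L) (F : IntermediateField k L) (hF : ∀ x ∈ F, d x = 0) {x : L}
    (hx : IsAlgebraic F x) : d x = 0 := by
  let l : L →ₗ[F] L :=
    { toFun := d
      map_add' := fun a b => d.map_add a b
      map_smul' := fun c a => by
        change d ((c : L) * a) = (c : L) * d a
        rw [d.leibniz, hF c c.2, smul_zero, add_zero, smul_eq_mul] }
  let d' : Derivation F L L := Derivation.mk' l (fun a b => d.leibniz a b)
  have hd' : ∀ a, d' a = d a := fun _ => rfl
  have : CharZero F := charZero_of_injective_algebraMap (algebraMap k F).injective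
  have h1 := d'.map_aeval (minpoly F x) x
  rw [minpoly.aeval, map_zero, smul_eq_mul] at h1
  have h2 : (Polynomial.aeval x) (Polynomial.derivative (minpoly F x)) ≠ 0 := by
    have hsep : (minpoly F x).Separable := (minpoly.irreducible hx.isIntegral).separable
    exact hsep.aeval_derivative_ne_zero (minpoly.aeval F x)
  exact (mul_eq_zero.1 h1.symm).resolve_left h2

theorem exists_ops {k L : Type*} [Field k] [CharZero k] [Field L] [Algebra k L] {n : ℕ} {y : Fin n → L}
    (b : Basis (Fin n) L Ω[L⁄k]) (hb : ∀ i, b i = KaehlerDifferential.D k L (y i))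
    (Q : IntermediateField k L) (S : Finset (Fin n))
    (hQ : ∀ x ∈ Q, IsAlgebraic (IntermediateField.adjoin k (y '' {i | i ∉ S})) x) :
    ∃ δ : Fin n → L →ₗ[Q] L,
      (∀ i ∈ S, ∀ f, δ i f = y i * b.repr (KaehlerDifferential.D k L f) i) ∧
      (∀ i ∉ S, δ i = 0) ∧ ∀ i j f, δ i (δ j f) = δ j (δ i f) := by
  classical
  let d : Fin n → Derivation k L L := fun i =>
    y i • (b.coord i).compDer (KaehlerDifferential.D k L)
  have hd : ∀ i f, d i f = y i * b.repr (KaehlerDifferential.D k L f) i := fun _ _ => rfl
  have hdy : ∀ i j, d i (y j) = if j = i then y i else 0 := by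
    intro i j
    rw [hd, ← hb, b.repr_self, Finsupp.single_apply, mul_ite, mul_one, mul_zero]
  have hdQ : ∀ i ∈ S, ∀ x ∈ Q, d i x = 0 := by
    intro i hi x hx
    refine der_eq_zero_of_isAlgebraic (d i) _ ?_ (hQ x hx)
    have h1 : IntermediateField.adjoin k (y '' {i | i ∉ S}) ≤ constField (d i) := by
      rw [IntermediateField.adjoin_le_iff]
      rintro _ ⟨j, hj, rfl⟩
      change d i (y j) = 0
      rw [hdy, if_neg]
      rintro rfl
      exact hj hi
    exact fun z hz => h1 hz
  have hcomm : ∀ i j f, d i (d j f) = d j (d i f) := by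
    intro i j
    have h1 : ⁅d i, d j⁆ = (0 : Derivation k L L) := by
      have h2 : (⁅d i, d j⁆ : Derivation k L L).liftKaehlerDifferential =
          (0 : Derivation k L L).liftKaehlerDifferential := by
        apply b.ext
        intro l
        rw [hb, Derivation.liftKaehlerDifferential_comp_D,
          Derivation.liftKaehlerDifferential_comp_D, Derivation.commutator_apply, hdy, hdy,
          Derivation.zero_apply]
        by_cases hlj : l = j <;> by_cases hli : l = i
        · rw [if_pos hlj, if_pos hli, hdy, hdy]
          subst hlj; subst hli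
          simp
        · rw [if_pos hlj, if_neg hli, hdy, map_zero, sub_zero, if_neg]
          rintro rfl
          exact hli hlj
        · rw [if_neg hlj, if_pos hli, hdy, map_zero, zero_sub, neg_eq_zero, if_neg]
          rintro rfl
          exact hlj hli
        · rw [if_neg hlj, if_neg hli, map_zero, map_zero, sub_zero]
      rw [← (⁅d i, d j⁆ : Derivation k L L).liftKaehlerDifferential_comp, h2,
        Derivation.liftKaehlerDifferential_comp]
    intro f
    have h3 := congrArg (fun D : Derivation k L L => D f) h1
    rw [Derivation.commutator_apply, Derivation.zero_apply] at h3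
    exact sub_eq_zero.1 h3
  let δ : Fin n → L →ₗ[Q] L := fun i =>
    if hi : i ∈ S then
      { toFun := d i
        map_add' := fun a b => (d i).map_add a b
        map_smul' := fun c a => by
          change d i ((c : L) * a) = (c : L) * d i a
          rw [(d i).leibniz, hdQ i hi c c.2, smul_zero, add_zero, smul_eq_mul] }
    else 0
  have hδ1 : ∀ i ∈ S, ∀ f, δ i f = d i f := by
    intro i hi f
    simp only [δ, dif_pos hi]
    rfl
  have hδ0 : ∀ i ∉ S, δ i = 0 := by
    intro i hi
    simp only [δ, dif_neg hi]
  refine ⟨δ, fun i hi f => hδ1 i hi f, hδ0, fun i j f => ?_⟩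
  by_cases hi : i ∈ S <;> by_cases hj : j ∈ S
  · rw [hδ1 i hi, hδ1 j hj, hδ1 i hi, hδ1 j hj, hcomm]
  · rw [hδ0 j hj, LinearMap.zero_apply, LinearMap.zero_apply, map_zero]
  · rw [hδ0 i hi, LinearMap.zero_apply, LinearMap.zero_apply, map_zero]
  · rw [hδ0 j hj, LinearMap.zero_apply, LinearMap.zero_apply, map_zero]

theorem dval_algebraic_nonneg {k L : Type*} [Field k] [Field L] [Algebra k L] (v : DVal k L)
    (K : IntermediateField k L) (hK : ∀ x ∈ K, v x = 0) {x : L} (hx : IsAlgebraic K x)
    (hx0 : x ≠ 0) : 0 ≤ v x := by
  by_contra hneg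
  rw [not_le] at hneg
  obtain ⟨p, hp, hpx⟩ := hx.isIntegral
  have h1 : Polynomial.aeval x p = 0 := hpx
  rw [hp.as_sum] at h1
  simp only [map_add, map_pow, Polynomial.aeval_X, map_sum, map_mul, Polynomial.aeval_C] at h1
  set n := p.natDegree with hn
  have h2 : x ^ n = -∑ i ∈ Finset.range n, (algebraMap K L) (p.coeff i) * x ^ i :=
    eq_neg_of_add_eq_zero_left h1
  have h3 : v.Ge (((n : ℤ) - 1) * v x : ℤ) (x ^ n) := by
    rw [h2]
    refine (DVal.Ge.sum fun i hi => ?_).neg
    have hi' : (i : ℤ) + 1 ≤ n := by exact_mod_cast Finset.mem_range.1 hi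
    have h4 : v.Ge 0 ((algebraMap K L) (p.coeff i)) := by
      right
      have h5 : v ((algebraMap K L) (p.coeff i)) = 0 := hK _ (p.coeff i).2
      rw [h5, Int.cast_zero]
    have h6 : v.Ge ((i : ℤ) * v x : ℤ) (x ^ i) := by
      right
      rw [v.map_pow]
    refine (h4.mul h6).mono ?_
    rw [zero_add]
    have h7 : ((n : ℤ) - 1) * v x ≤ (i : ℤ) * v x := by nlinarith
    exact_mod_cast h7
  rw [DVal.ge_iff (pow_ne_zero n hx0), v.map_pow] at h3
  have h4 : ((n : ℤ) - 1) * v x ≤ (n : ℤ) * v x := by exact_mod_cast h3
  nlinarith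

/-- A discrete valuation which is trivial on a subfield is trivial on its algebraic elements. -/
theorem dval_algebraic {k L : Type*} [Field k] [Field L] [Algebra k L] (v : DVal k L)
    (K : IntermediateField k L) (hK : ∀ x ∈ K, v x = 0) {x : L} (hx : IsAlgebraic K x) : v x = 0 := by
  by_cases hx0 : x = 0
  · rw [hx0, v.map_zero]
  · have h1 := dval_algebraic_nonneg v K hK hx hx0
    have h2 := dval_algebraic_nonneg v K hK hx.inv (inv_ne_zero hx0)
    rw [v.map_inv] at h2
    linarith

end Pool.Agent.Helper60.MA
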