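import Pool.Agent.Helper60.MA.Defs
import Pool.Agent.Helper60.MA.Ops

set_option autoImplicit false

/-!
# MA-6 Twist: functions without horizontal poles outside the support of `D` are in the Iitaka field

SETTING. `Q = iitaka X D`; a prime `P` of `X` is horizontal if it is trivial on `Q`. `D(P) ≥ 0` for
horizontal `P`. `g₀ ≠ 0`, `z_i g₀` are sections of `M D`, and `Q` is algebraic over `k(z)`.
CLAIM. If `v_P(f) ≥ 0` for all horizontal `P` with `D(P) = 0`, then `f ∈ Q`.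

PROOF. `f = 0` is clear. Put `D₀(P) = M D(P) + v_P(g₀)`; then `D₀(P) ≥ 0` for all `P`, and
`v_P(z_i) ≥ -D₀(P)`. Let `R = Algebra.adjoin k (range z)`.
(1) For every `b ∈ R` there is `m` with `v_P(b) ≥ -m D₀(P)` for all `P` (or `b = 0`), and then for all
  larger `m` (`Algebra.adjoin_induction`; `D₀ ≥ 0`). If `h` satisfies `v_P(h) ≥ -m D₀(P)` for all `P`, with
  `m ≥ 1`, then `h g₀ ^ m` and `g₀ ^ m` are in `H⁰(m M D)` and `h` is in `ratios X D ⊆ Q`.
  `R ⊆ Q`.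
(2) If `P` is vertical (not trivial on `Q`) and `D₀(P) = 0` then `v_P ≥ 0` on `R` and there is `F ∈ R`,
  `F ≠ 0`, with `v_P(F) ≥ 1`: otherwise `v_P` is trivial on `R`, on the field `k(z)` (quotients,
  `IntermediateField.mem_adjoin_iff_div`), and on all elements algebraic over it (an element `x` with
  `v(x) < 0` satisfies no monic equation with coefficients of value `0` or zero coefficients; apply
  this to `x` or `x⁻¹`; this is `dval_algebraic` of `MA/Ops`), so on `Q`.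
(3) LEMMA. If `f ≠ 0` and `v_P(f) + m₀ D₀(P) ≥ 0` for all horizontal `P`, then `f ∈ Q`. Let `T` be the finite
  set of vertical `P` with `v_P(f) < 0` (`ProjVar.finite_support`), `N` with `N ≥ -v_P(f)` for `P ∈ T`,
  `b = ∏_{P ∈ T, D₀(P) = 0} F_P ^ N`, `b ∈ R`, and `m₁` for `b` as in (1). Let `m ≥ m₀, m₁, 1` be so large that
  `-m₁ D₀(P) + v_P(f) ≥ -m D₀(P)` for `P ∈ T` with `D₀(P) > 0`. Then `v_P(b f) ≥ -m D₀(P)` for all `P`:
  horizontal: `v_P(b) = 0` as `b ∈ Q`, `b ≠ 0`; `P ∈ T` with `D₀(P) = 0`: `v_P(b) ≥ N` (the other factors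
  have value `≥ 0`); `P ∈ T` with `D₀(P) > 0`: choice of `m`; other vertical `P`:
  `v_P(b f) ≥ v_P(b) ≥ -m₁ D₀(P)`. By (1) `b f ∈ Q`, so `f ∈ Q`.
(4) `g₀⁻¹ ∈ Q` by (3) with `m₀ = 1`: `v_P(g₀⁻¹) + D₀(P) = M D(P) ≥ 0` for horizontal `P`. So `D₀(P) = M D(P)` for
  horizontal `P`.
(5) `f` as in the claim, `f ≠ 0`: for horizontal `P` with `v_P(f) < 0` (finitely many) `D(P) > 0`, so
  `D₀(P) > 0`; choose `m₀` with `v_P(f) + m₀ D₀(P) ≥ 0` for these, and use (3).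
-/

namespace Pool.Agent.Helper60.MA

open Pool.Agent.Helper92.Weak

private lemma tw_d0_nonneg {k L : Type*} [Field k] [Field L] [Algebra k L] (X : ProjVar k L)
    (D : X.Div) {M : ℕ} {g₀ : L} (hg₀ : g₀ ∈ X.H0 ((M : ℚ) • D)) (h0 : g₀ ≠ 0)
    (P : X.primeDivisors) : 0 ≤ (M : ℚ) * D P + (P.1 g₀ : ℚ) := by
  have h1 := mem_H0.1 hg₀ P
  rw [DVal.ge_iff h0] at h1
  have h2 : ((M : ℚ) • D) P = (M : ℚ) * D P := rfl
  rw [h2] at h1
  linarith

private lemma tw_sec {k L : Type*} [Field k] [Field L] [Algebra k L] (X : ProjVar k L)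
    (D : X.Div) {M : ℕ} (hM : 1 ≤ M) {g₀ : L} (hg₀ : g₀ ∈ X.H0 ((M : ℚ) • D)) (h0 : g₀ ≠ 0)
    {m : ℕ} (hm : 1 ≤ m) {h : L}
    (hh : ∀ P : X.primeDivisors, P.1.Ge (-((m : ℚ) * ((M : ℚ) * D P + (P.1 g₀ : ℚ)))) h) :
    h ∈ ratios X D := by
  refine ⟨m * M, Nat.mul_pos hm hM, h * g₀ ^ m, ?_, g₀ ^ m, ?_, pow_ne_zero _ h0, ?_⟩
  · rw [mem_H0]
    intro P
    have h1 := (hh P).mul (DVal.ge_self (v := P.1) (g₀ ^ m))
    refine h1.mono ?_
    rw [P.1.map_pow]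
    have h2 : (((m * M : ℕ) : ℚ) • D) P = ((m * M : ℕ) : ℚ) * D P := rfl
    rw [h2]
    push_cast
    apply le_of_eq
    ring
  · rw [mem_H0]
    intro P
    rw [DVal.ge_iff (pow_ne_zero _ h0), P.1.map_pow]
    have h2 : (((m * M : ℕ) : ℚ) • D) P = ((m * M : ℕ) : ℚ) * D P := rfl
    rw [h2]
    have h3 := tw_d0_nonneg X D hg₀ h0 P
    have h4 : (0 : ℚ) ≤ m := Nat.cast_nonneg m
    have h5 := mul_nonneg h4 h3
    push_cast
    linarith
  · field_simp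

private lemma tw_adj {k L : Type*} [Field k] [Field L] [Algebra k L] (X : ProjVar k L)
    (D : X.Div) {M : ℕ} {g₀ : L} (hg₀ : g₀ ∈ X.H0 ((M : ℚ) • D)) (h0 : g₀ ≠ 0) {d : ℕ}
    (z : Fin d → L) (hz : ∀ i, z i * g₀ ∈ X.H0 ((M : ℚ) • D)) {b : L}
    (hb : b ∈ Algebra.adjoin k (Set.range z)) :
    ∃ m : ℕ, ∀ m' : ℕ, m ≤ m' → ∀ P : X.primeDivisors,
      P.1.Ge (-((m' : ℚ) * ((M : ℚ) * D P + (P.1 g₀ : ℚ)))) b := by
  suffices hs : ∃ m : ℕ, ∀ P : X.primeDivisors,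
      P.1.Ge (-((m : ℚ) * ((M : ℚ) * D P + (P.1 g₀ : ℚ)))) b by
    obtain ⟨m, hm⟩ := hs
    refine ⟨m, fun m' hmm P => (hm P).mono ?_⟩
    have h3 := tw_d0_nonneg X D hg₀ h0 P
    have h4 : (m : ℚ) ≤ m' := by exact_mod_cast hmm
    have h5 := mul_le_mul_of_nonneg_right h4 h3
    linarith
  have mono : ∀ (m m' : ℕ), m ≤ m' → ∀ (c : L) (P : X.primeDivisors),
      P.1.Ge (-((m : ℚ) * ((M : ℚ) * D P + (P.1 g₀ : ℚ)))) c →
      P.1.Ge (-((m' : ℚ) * ((M : ℚ) * D P + (P.1 g₀ : ℚ)))) c := by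
    intro m m' hmm c P hc
    refine hc.mono ?_
    have h3 := tw_d0_nonneg X D hg₀ h0 P
    have h4 : (m : ℚ) ≤ m' := by exact_mod_cast hmm
    have h5 := mul_le_mul_of_nonneg_right h4 h3
    linarith
  induction hb using Algebra.adjoin_induction with
  | mem x hx =>
    obtain ⟨i, rfl⟩ := hx
    refine ⟨1, fun P => ?_⟩
    have h1 := mem_H0.1 (hz i) P
    have h2 := h1.mul (DVal.ge_self (v := P.1) (g₀⁻¹))
    rw [mul_assoc, mul_inv_cancel₀ h0, mul_one] at h2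
    refine h2.mono ?_
    rw [P.1.map_inv]
    have h3 : ((M : ℚ) • D) P = (M : ℚ) * D P := rfl
    rw [h3]
    push_cast
    apply le_of_eq
    ring
  | algebraMap r =>
    refine ⟨0, fun P => ?_⟩
    right
    rw [P.1.map_const]
    simp
  | add x y _ _ hx hy =>
    obtain ⟨m1, h1⟩ := hx
    obtain ⟨m2, h2⟩ := hy
    refine ⟨m1 + m2, fun P => ?_⟩
    exact (mono m1 _ (Nat.le_add_right _ _) _ P (h1 P)).add
      (mono m2 _ (Nat.le_add_left _ _) _ P (h2 P))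
  | mul x y _ _ hx hy =>
    obtain ⟨m1, h1⟩ := hx
    obtain ⟨m2, h2⟩ := hy
    refine ⟨m1 + m2, fun P => ?_⟩
    refine ((h1 P).mul (h2 P)).mono ?_
    push_cast
    apply le_of_eq
    ring

private lemma tw_adj_iitaka {k L : Type*} [Field k] [Field L] [Algebra k L] (X : ProjVar k L)
    (D : X.Div) {M : ℕ} (hM : 1 ≤ M) {g₀ : L} (hg₀ : g₀ ∈ X.H0 ((M : ℚ) • D)) (h0 : g₀ ≠ 0)
    {d : ℕ} (z : Fin d → L) (hz : ∀ i, z i * g₀ ∈ X.H0 ((M : ℚ) • D)) {b : L}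
    (hb : b ∈ Algebra.adjoin k (Set.range z)) : b ∈ iitaka X D := by
  obtain ⟨m, hm⟩ := tw_adj X D hg₀ h0 z hz hb
  exact IntermediateField.subset_adjoin _ _
    (tw_sec X D hM hg₀ h0 (m := m + 1) (Nat.le_add_left _ _) (hm (m + 1) (Nat.le_succ m)))

private lemma tw_vert {k L : Type*} [Field k] [Field L] [Algebra k L] (X : ProjVar k L)
    (D : X.Div) {M : ℕ} {g₀ : L} (hg₀ : g₀ ∈ X.H0 ((M : ℚ) • D)) (h0 : g₀ ≠ 0)
    {d : ℕ} (z : Fin d → L) (hz : ∀ i, z i * g₀ ∈ X.H0 ((M : ℚ) • D))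
    (halg : ∀ x ∈ iitaka X D, IsAlgebraic (IntermediateField.adjoin k (Set.range z)) x)
    (P : X.primeDivisors) (hP : ¬ Hor (iitaka X D) P.1)
    (hP0 : (M : ℚ) * D P + (P.1 g₀ : ℚ) = 0) :
    ∃ F ∈ Algebra.adjoin k (Set.range z), F ≠ 0 ∧ 1 ≤ P.1 F := by
  by_contra hcon
  push Not at hcon
  apply hP
  have hR : ∀ F ∈ Algebra.adjoin k (Set.range z), P.1 F = 0 := by
    intro F hF
    by_cases hF0 : F = 0
    · rw [hF0, P.1.map_zero]
    obtain ⟨m, hm⟩ := tw_adj X D hg₀ h0 z hz hF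
    have h1 := hm m le_rfl P
    rw [hP0, mul_zero, neg_zero, DVal.ge_iff hF0] at h1
    have h2 : 0 ≤ P.1 F := by exact_mod_cast h1
    have h3 := hcon F hF hF0
    omega
  have hK : ∀ x ∈ IntermediateField.adjoin k (Set.range z), P.1 x = 0 := by
    intro x hx
    rw [IntermediateField.mem_adjoin_iff_div] at hx
    obtain ⟨r, hr, s, hs, rfl⟩ := hx
    by_cases hr0 : r = 0
    · rw [hr0, zero_div, P.1.map_zero]
    by_cases hs0 : s = 0
    · rw [hs0, div_zero, P.1.map_zero]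
    rw [P.1.map_div hr0 hs0, hR r hr, hR s hs, sub_zero]
  intro q hq
  exact dval_algebraic P.1 _ hK (halg q hq)

private lemma tw_nat {ι : Type*} (T : Finset ι) (a c : ι → ℚ) :
    ∃ n : ℕ, ∀ P ∈ T, 0 < c P → a P ≤ n * c P := by
  classical
  have h : ∀ P : ι, ∃ n : ℕ, 0 < c P → a P ≤ n * c P := by
    intro P
    obtain ⟨n, hn⟩ := exists_nat_ge (a P / c P)
    refine ⟨n, fun hc => ?_⟩
    rwa [div_le_iff₀ hc] at hn
  choose n hn using h
  refine ⟨∑ P ∈ T, n P, fun P hP hc => (hn P hc).trans ?_⟩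
  apply mul_le_mul_of_nonneg_right _ hc.le
  have : n P ≤ ∑ P ∈ T, n P := Finset.single_le_sum (fun _ _ => Nat.zero_le _) hP
  exact_mod_cast this

private lemma tw_main {k L : Type*} [Field k] [Field L] [Algebra k L] (X : ProjVar k L)
    (D : X.Div) {M : ℕ} (hM : 1 ≤ M) {g₀ : L} (hg₀ : g₀ ∈ X.H0 ((M : ℚ) • D)) (h0 : g₀ ≠ 0)
    {d : ℕ} (z : Fin d → L) (hz : ∀ i, z i * g₀ ∈ X.H0 ((M : ℚ) • D))
    (halg : ∀ x ∈ iitaka X D, IsAlgebraic (IntermediateField.adjoin k (Set.range z)) x)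
    {f : L} (hf0 : f ≠ 0) (m₀ : ℕ)
    (hf : ∀ P : X.primeDivisors, Hor (iitaka X D) P.1 →
      -((m₀ : ℚ) * ((M : ℚ) * D P + (P.1 g₀ : ℚ))) ≤ (P.1 f : ℚ)) :
    f ∈ iitaka X D := by
  classical
  have hD0 := tw_d0_nonneg X D hg₀ h0
  have hF : ∀ P : X.primeDivisors, ∃ F ∈ Algebra.adjoin k (Set.range z), F ≠ 0 ∧
      (¬ Hor (iitaka X D) P.1 → (M : ℚ) * D P + (P.1 g₀ : ℚ) = 0 → 1 ≤ P.1 F) := by
    intro P
    by_cases h1 : ¬ Hor (iitaka X D) P.1 ∧ (M : ℚ) * D P + (P.1 g₀ : ℚ) = 0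
    · obtain ⟨F, h2, h3, h4⟩ := tw_vert X D hg₀ h0 z hz halg P h1.1 h1.2
      exact ⟨F, h2, h3, fun _ _ => h4⟩
    · exact ⟨1, Subalgebra.one_mem _, one_ne_zero, fun h2 h3 => absurd ⟨h2, h3⟩ h1⟩
  choose F hFR hF0 hF1 using hF
  have hfin : {P : X.primeDivisors | P.1 f ≠ 0}.Finite :=
    ((X.finite_support hf0).preimage Subtype.val_injective.injOn).subset
      (fun P hP => ⟨P.2, hP⟩)
  set T : Finset X.primeDivisors := hfin.toFinset with hT
  set N : ℕ := ∑ P ∈ T, (P.1 f).natAbs with hN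
  set T' : Finset X.primeDivisors := T.filter
    (fun P => ¬ Hor (iitaka X D) P.1 ∧ (M : ℚ) * D P + (P.1 g₀ : ℚ) = 0) with hT'
  set b : L := ∏ P ∈ T', F P ^ N with hb
  have hbR : b ∈ Algebra.adjoin k (Set.range z) :=
    Subalgebra.prod_mem _ fun P _ => Subalgebra.pow_mem _ (hFR P) N
  have hb0 : b ≠ 0 := Finset.prod_ne_zero_iff.2 fun P _ => pow_ne_zero _ (hF0 P)
  have hbQ : b ∈ iitaka X D := tw_adj_iitaka X D hM hg₀ h0 z hz hbR
  obtain ⟨m₁, hm₁⟩ := tw_adj X D hg₀ h0 z hz hbR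
  obtain ⟨n, hn⟩ := tw_nat T (fun P => -(P.1 f : ℚ)) (fun P => (M : ℚ) * D P + (P.1 g₀ : ℚ))
  have key : b * f ∈ ratios X D := by
    apply tw_sec X D hM hg₀ h0 (m := m₀ + m₁ + n + 1) (by omega)
    intro P
    rw [DVal.ge_iff (mul_ne_zero hb0 hf0), P.1.map_mul hb0 hf0]
    have hm0' : (0 : ℚ) ≤ m₀ := Nat.cast_nonneg _
    have hm1' : (0 : ℚ) ≤ m₁ := Nat.cast_nonneg _
    have hn' : (0 : ℚ) ≤ n := Nat.cast_nonneg _
    have e0 := mul_nonneg hm0' (hD0 P)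
    have e1 := mul_nonneg hm1' (hD0 P)
    have e2 := mul_nonneg hn' (hD0 P)
    have e3 := hD0 P
    have hbv : -((m₁ : ℚ) * ((M : ℚ) * D P + (P.1 g₀ : ℚ))) ≤ (P.1 b : ℚ) := by
      have := hm₁ m₁ le_rfl P
      rwa [DVal.ge_iff hb0] at this
    push_cast
    by_cases hhor : Hor (iitaka X D) P.1
    · have h1 := hf P hhor
      have h2 : P.1 b = 0 := hhor b hbQ
      rw [h2]
      push_cast
      nlinarith
    by_cases hPf : P.1 f < 0
    · have hPT : P ∈ T := by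
        rw [hT, Set.Finite.mem_toFinset]
        exact hPf.ne
      by_cases hz0 : (M : ℚ) * D P + (P.1 g₀ : ℚ) = 0
      · have hPT' : P ∈ T' := by
          rw [hT', Finset.mem_filter]
          exact ⟨hPT, hhor, hz0⟩
        have h3 : (N : ℤ) ≤ P.1 b := by
          rw [hb, P.1.map_prod _ _ (fun i _ => pow_ne_zero _ (hF0 i))]
          have h4 : ∀ i ∈ T', 0 ≤ P.1 (F i ^ N) := by
            intro i _
            rw [P.1.map_pow]
            obtain ⟨mi, hmi⟩ := tw_adj X D hg₀ h0 z hz (hFR i)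
            have h5 := hmi mi le_rfl P
            rw [hz0, mul_zero, neg_zero, DVal.ge_iff (hF0 i)] at h5
            have h6 : 0 ≤ P.1 (F i) := by exact_mod_cast h5
            positivity
          have h5 : P.1 (F P ^ N) ≤ ∑ i ∈ T', P.1 (F i ^ N) :=
            Finset.single_le_sum h4 hPT'
          refine le_trans ?_ h5
          rw [P.1.map_pow]
          have h6 := hF1 P hhor hz0
          have h7 : (0 : ℤ) ≤ N := Int.natCast_nonneg _
          nlinarith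
        have h4 : (P.1 f).natAbs ≤ N := by
          rw [hN]
          exact Finset.single_le_sum (f := fun P : X.primeDivisors => (P.1 f).natAbs)
            (fun _ _ => Nat.zero_le _) hPT
        have h5 : 0 ≤ P.1 b + P.1 f := by omega
        have h6 : (0 : ℚ) ≤ (P.1 b : ℚ) + (P.1 f : ℚ) := by exact_mod_cast h5
        rw [hz0]
        linarith
      · have h3 : 0 < (M : ℚ) * D P + (P.1 g₀ : ℚ) := lt_of_le_of_ne (hD0 P) (Ne.symm hz0)
        have h4 := hn P hPT h3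
        nlinarith
    · have h3 : (0 : ℚ) ≤ (P.1 f : ℚ) := by
        have : 0 ≤ P.1 f := not_lt.1 hPf
        exact_mod_cast this
      nlinarith
  have hfeq : f = b * f / b := by field_simp
  rw [hfeq]
  exact div_mem (IntermediateField.subset_adjoin _ _ key) hbQ

theorem mem_iitaka_of_hor {k L : Type*} [Field k] [Field L] [Algebra k L] (X : ProjVar k L)
    (D : X.Div) {M : ℕ} (hM : 1 ≤ M) {g₀ : L} (hg₀ : g₀ ∈ X.H0 ((M : ℚ) • D)) (h0 : g₀ ≠ 0) {d : ℕ}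
    (z : Fin d → L) (hz : ∀ i, z i * g₀ ∈ X.H0 ((M : ℚ) • D))
    (halg : ∀ x ∈ iitaka X D, IsAlgebraic (IntermediateField.adjoin k (Set.range z)) x)
    (hD : ∀ P : X.primeDivisors, Hor (iitaka X D) P.1 → 0 ≤ D P) (f : L)
    (hf : ∀ P : X.primeDivisors, Hor (iitaka X D) P.1 → D P = 0 → 0 ≤ P.1 f) :
    f ∈ iitaka X D := by
  classical
  by_cases hf0 : f = 0
  · rw [hf0]
    exact zero_mem _
  have hD0 := tw_d0_nonneg X D hg₀ h0
  have hinv : g₀⁻¹ ∈ iitaka X D := by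
    apply tw_main X D hM hg₀ h0 z hz halg (inv_ne_zero h0) 1
    intro P hP
    rw [P.1.map_inv]
    have h1 := hD P hP
    have h2 : (0 : ℚ) ≤ M := Nat.cast_nonneg M
    have h3 := mul_nonneg h2 h1
    push_cast
    linarith
  have hval : ∀ P : X.primeDivisors, Hor (iitaka X D) P.1 → P.1 g₀ = 0 := by
    intro P hP
    have h1 := hP _ hinv
    rw [P.1.map_inv] at h1
    omega
  have hfin : {P : X.primeDivisors | P.1 f ≠ 0}.Finite :=
    ((X.finite_support hf0).preimage Subtype.val_injective.injOn).subset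
      (fun P hP => ⟨P.2, hP⟩)
  obtain ⟨n, hn⟩ := tw_nat hfin.toFinset (fun P => -(P.1 f : ℚ))
    (fun P => (M : ℚ) * D P + (P.1 g₀ : ℚ))
  apply tw_main X D hM hg₀ h0 z hz halg hf0 n
  intro P hP
  have hn' : (0 : ℚ) ≤ n := Nat.cast_nonneg _
  have e2 := mul_nonneg hn' (hD0 P)
  by_cases hPf : P.1 f < 0
  · have hPT : P ∈ hfin.toFinset := by
      rw [Set.Finite.mem_toFinset]
      exact hPf.ne
    have hDP : 0 < D P := by
      refine lt_of_le_of_ne (hD P hP) fun h => ?_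
      have := hf P hP h.symm
      omega
    have h3 : 0 < (M : ℚ) * D P + (P.1 g₀ : ℚ) := by
      rw [hval P hP]
      have h4 : (0 : ℚ) < M := by exact_mod_cast hM
      push_cast
      have := mul_pos h4 hDP
      linarith
    have h4 := hn P hPT h3
    linarith
  · have h3 : (0 : ℚ) ≤ (P.1 f : ℚ) := by
      have : 0 ≤ P.1 f := not_lt.1 hPf
      exact_mod_cast this
    linarith

end Pool.Agent.Helper60.MA
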