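import Pool.Agent.Helper60.MA.Span
import Pool.Agent.Helper60.MA.Growth
import Pool.Agent.Helper60.MA.Pairs
import Pool.Agent.Helper60.MA.Twist
import Pool.Agent.Helper60.MA.KodGe
import Pool.Agent.Helper60.MA.Iitaka

set_option autoImplicit false

/-!
# MA-12 Main: assembly

THEOREM. `X` normal projective over the algebraically closed field `k` of characteristic `0`,
`n = dim X`, `Δ ≥ 0` any `ℚ`-divisor, `Q` the field of quotients of sections of multiples of `K_X + Δ`.
Suppose there are `t_1, ..., t_e ∈ L`, nonzero, with `v_P(t_i) = 0` for all primes `P` of `X` with `Δ(P) < 1`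
which are trivial on `Q`, such that `L` is algebraic over the field generated by `Q` and the `t_i`.
Then `κ(K_X + Δ) = ν(K_X + Δ) ≥ 0`.

PROOF. Put `D = K_X + Δ = p.logDiv`.
(1) Some `m D`, `m ≥ 1`, has a nonzero section. Otherwise `ratios X D = ∅`, `iitaka X D = ⊥`
  and every prime is horizontal (constants have value `0`), and `L` is algebraic over `k(t)`. `exists_basis` with `d = 0`: a
  subfamily `y = t ∘ τ` is a transcendence basis; it has `n` elements. With `S = univ`,
  `g = (∏ y_i)⁻¹`, `ψ` from `exists_psi`: `D = D' + div(ψ)`, `D'(P) = a_P + Δ(P) ≥ 0` for all `P` by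
  `hor_facts` (with `Q = ⊥`). So `1 ∈ H⁰(D')` and `ψ⁻¹ ∈ H⁰(D)` (`H0_add_prin`, `m = 1`).
(2) `exists_coords`: `d, M, g₀, z`. `L` is algebraic over `k(z, t)`. `exists_basis`: `y = Fin.append z (t ∘ τ)` is a
  transcendence basis; `n = d + e'` (`Algebra.trdeg k L = n`; subst or reindex). `S` = the
  indices `≥ d` (`Finset.univ.image (Fin.natAdd d)`), `y_i ≠ 0` (algebraically independent).
  `ψ` from `exists_psi` with `g = (∏_{S} y_i)⁻¹`; `D' = D - div(ψ)`. `iitaka X D' = iitaka X D =: Q`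
  (`ratios_add_prin`). `ψ ^ M g₀`, `ψ ^ M z_i g₀ ∈ H⁰(M D')`.
(3) `hor_facts`: `D'(P) ≥ 0` for horizontal `P`. (T) for `D'`: `mem_iitaka_of_hor`. `exists_span` and `nu_le`:
  `ν(D') ≤ d`. `le_kod`: `d ≤ κ(D')`. `kod_le_nu`: `κ(D') ≤ ν(D')`. `kod_add_prin`, `nu_add_prin`.
-/

namespace Pool.Agent.Helper60.MA

open Pool.Agent.Helper92.Weak

variable {k L : Type*} [Field k] [IsAlgClosed k] [CharZero k] [Field L] [Algebra k L]

omit [IsAlgClosed k] [CharZero k] in
private theorem hor_bot (v : DVal k L) : Hor (⊥ : IntermediateField k L) v := by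
  intro q hq
  obtain ⟨c, rfl⟩ := IntermediateField.mem_bot.1 hq
  exact v.map_const c

omit [IsAlgClosed k] [CharZero k] in
private theorem card_eq {n m : ℕ} (hn : Algebra.trdeg k L = n) {y : Fin m → L}
    (hy : IsTranscendenceBasis k y) : n = m := by
  have h := hy.lift_cardinalMk_eq_trdeg
  rw [hn, Cardinal.mk_fin, Cardinal.lift_natCast, Cardinal.lift_natCast] at h
  exact_mod_cast h.symm

omit [IsAlgClosed k] in
theorem exists_section {n : ℕ} (hn : Algebra.trdeg k L = n) (X : ProjVar k L) (p : X.Pair n)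
    {e : ℕ} (t : Fin e → L)
    (hunit : ∀ P : X.primeDivisors, p.Δ P < 1 → (∀ q ∈ ratios X p.logDiv, P.1 q = 0) →
      ∀ i, P.1 (t i) = 0)
    (halg : ∀ x : L, IsAlgebraic
      (IntermediateField.adjoin k (ratios X p.logDiv ∪ Set.range t)) x) :
    ∃ m : ℕ, 1 ≤ m ∧ ∃ g ∈ X.H0 ((m : ℚ) • p.logDiv), g ≠ 0 := by
  by_contra hno
  push Not at hno
  have hrat : ratios X p.logDiv = ∅ := by
    rw [Set.eq_empty_iff_forall_notMem]
    rintro z ⟨m, hm, f, -, g, hg, hg0, -⟩
    exact hg0 (hno m hm g hg)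
  rw [hrat] at hunit halg
  have hind : AlgebraicIndependent k (Fin.elim0 : Fin 0 → L) :=
    algebraicIndependent_empty_type
  obtain ⟨e', τ, hy⟩ := exists_basis (Fin.elim0 : Fin 0 → L) hind t (by
    intro x
    have h1 : Set.range (Fin.elim0 : Fin 0 → L) = ∅ := Set.range_eq_empty _
    rw [h1]
    exact halg x)
  obtain rfl := card_eq hn hy
  set y := Fin.append (Fin.elim0 : Fin 0 → L) (t ∘ τ) with hydef
  have hy0 : ∀ i, y i ≠ 0 := fun i => hy.1.ne_zero i
  have hyt : ∀ i, ∃ j, y i = t (τ j) := by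
    intro i
    refine Fin.addCases (fun j => j.elim0) (fun j => ⟨j, ?_⟩) i
    rw [hydef, Fin.append_right]
    rfl
  have hg0 : (∏ i ∈ Finset.univ, y i)⁻¹ ≠ 0 :=
    inv_ne_zero (Finset.prod_ne_zero_iff.2 fun i _ => hy0 i)
  obtain ⟨ψ, hψ0, hψ⟩ := exists_psi X p hy hg0
  set D' : X.Div := p.logDiv - X.prin ψ with hD'
  have hadd : D' + X.prin ψ = p.logDiv := sub_add_cancel _ _
  have hval : ∀ P : X.primeDivisors, ∃ a : ℤ,
      P.1.IsOrd ((∏ i ∈ Finset.univ, y i)⁻¹ • dform k y) a ∧ D' P = a + p.Δ P := by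
    intro P
    obtain ⟨a, ha, hPa⟩ := hψ P
    refine ⟨a, ha, ?_⟩
    rw [hD', Finsupp.sub_apply, ProjVar.prin_apply, ProjVar.Pair.logDiv, Finsupp.add_apply, hPa]
    ring
  have hnn : ∀ P : X.primeDivisors, 0 ≤ D' P := by
    intro P
    obtain ⟨a, ha, hPa⟩ := hval P
    rw [hPa]
    refine (hor_facts X hy hy0 Finset.univ ⊥ (fun i hi => absurd (Finset.mem_univ i) hi) p.Δ
      p.nonneg (fun P' _ hP' i _ => ?_) P (hor_bot P.1) ha).1
    obtain ⟨j, hj⟩ := hyt i
    rw [hj]
    exact hunit P' hP' (fun q hq => absurd hq (Set.notMem_empty q)) (τ j)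
  have h1 : (1 : L) ∈ X.H0 (((1 : ℕ) : ℚ) • D') := by
    rw [mem_H0]
    intro P
    right
    rw [Finsupp.smul_apply, DVal.map_one]
    push_cast
    have := hnn P
    rw [one_smul]
    linarith
  have h2 : ψ⁻¹ ∈ X.H0 (((1 : ℕ) : ℚ) • p.logDiv) := by
    rw [← hadd, H0_add_prin X D' hψ0, pow_one, mul_inv_cancel₀ hψ0]
    exact h1
  exact inv_ne_zero hψ0 (hno 1 le_rfl _ h2)

omit [IsAlgClosed k] [CharZero k] in
/-- Transitivity of algebraicity. -/
private theorem algebraic_trans (A B : IntermediateField k L) (h : ∀ x ∈ A, IsAlgebraic B x) {x : L}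
    (hx : IsAlgebraic A x) : IsAlgebraic B x := by
  let C : Subfield L := (algebraicClosure B L).toSubfield
  have hAC : ∀ x ∈ A, x ∈ C := fun x hx => by
    change x ∈ algebraicClosure B L
    rw [mem_algebraicClosure_iff]
    exact h x hx
  let φ : A →+* C :=
    { toFun := fun a => ⟨a.1, hAC a.1 a.2⟩
      map_one' := rfl
      map_mul' := fun _ _ => rfl
      map_zero' := rfl
      map_add' := fun _ _ => rfl }
  obtain ⟨q, hq0, hq⟩ := hx
  have h1 : IsAlgebraic (algebraicClosure B L) x := by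
    refine ⟨q.map φ, (Polynomial.map_ne_zero_iff φ.injective).2 hq0, ?_⟩
    rw [Polynomial.aeval_def] at hq ⊢
    have h2 := Polynomial.eval₂_map (p := q) φ (algebraMap (algebraicClosure B L) L) x
    rw [← hq]
    refine h2.trans ?_
    rfl
  exact h1.restrictScalars B

omit [IsAlgClosed k] [CharZero k] in
private theorem exists_basis_of_trdeg {d : ℕ} (hd : Algebra.trdeg k L = d) :
    ∃ y : Fin d → L, IsTranscendenceBasis k y := by
  obtain ⟨ι, x, hx⟩ := exists_isTranscendenceBasis' k L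
  have h1 : Cardinal.mk ι = d := by rw [hx.cardinalMk_eq_trdeg, hd]
  have h2 : Finite ι := by
    rw [← Cardinal.lt_aleph0_iff_finite, h1]
    exact Cardinal.natCast_lt_aleph0
  let _ := Fintype.ofFinite ι
  have h3 : Fintype.card ι = d := by
    have : (Fintype.card ι : Cardinal) = d := by rw [← Cardinal.mk_fintype, h1]
    exact_mod_cast this
  let e : Fin d ≃ ι := (Fintype.equivFinOfCardEq h3).symm
  exact ⟨x ∘ e, hx.comp_equiv e⟩

omit [IsAlgClosed k] [CharZero k] in
/-- Elements algebraic over a field generated by elements algebraic over `B`. -/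
private theorem algebraic_adjoin {s : Set L} (B : IntermediateField k L)
    (h : ∀ x ∈ s, IsAlgebraic B x) {x : L} (hx : x ∈ IntermediateField.adjoin k s) :
    IsAlgebraic B x := by
  let C : IntermediateField k L := (algebraicClosure B L).restrictScalars k
  have h1 : IntermediateField.adjoin k s ≤ C := by
    rw [IntermediateField.adjoin_le_iff]
    intro z hz
    change z ∈ algebraicClosure B L
    rw [mem_algebraicClosure_iff]
    exact h z hz
  have h2 : x ∈ algebraicClosure B L := h1 hx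
  rwa [mem_algebraicClosure_iff] at h2

omit [IsAlgClosed k] [CharZero k] in
private theorem isAlgebraic_mem {B : IntermediateField k L} {x : L} (hx : x ∈ B) : IsAlgebraic B x :=
  isAlgebraic_algebraMap (⟨x, hx⟩ : B)

theorem main {n : ℕ} (hn : Algebra.trdeg k L = n) (X : ProjVar k L) (p : X.Pair n)
    {e : ℕ} (t : Fin e → L)
    (hunit : ∀ P : X.primeDivisors, p.Δ P < 1 → (∀ q ∈ ratios X p.logDiv, P.1 q = 0) →
      ∀ i, P.1 (t i) = 0)
    (halg : ∀ x : L, IsAlgebraic
      (IntermediateField.adjoin k (ratios X p.logDiv ∪ Set.range t)) x) :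
    X.kod p.logDiv = X.nu p.logDiv ∧ 0 ≤ X.kod p.logDiv := by
  obtain ⟨m₀, hm₀, g, hg, hg0⟩ := exists_section hn X p t hunit halg
  obtain ⟨y₀, hy₀⟩ := exists_basis_of_trdeg hn
  obtain ⟨d, M, g₀, z, hM, hg₀, hg₀0, hz, hzQ, hind, halgQ⟩ :=
    exists_coords X p.logDiv hy₀ hm₀ hg hg0
  have halg' : ∀ x : L, IsAlgebraic (IntermediateField.adjoin k (Set.range z ∪ Set.range t)) x := by
    intro x
    refine algebraic_trans _ _ (fun x hx => algebraic_adjoin _ ?_ hx) (halg x)
    rintro w (hw | hw)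
    · have h1 : w ∈ iitaka X p.logDiv := IntermediateField.subset_adjoin _ _ hw
      refine algebraic_trans _ _ (fun u hu => isAlgebraic_mem ?_) (halgQ w h1)
      exact IntermediateField.adjoin.mono k _ _ Set.subset_union_left hu
    · exact isAlgebraic_mem (IntermediateField.subset_adjoin _ _ (Or.inr hw))
  obtain ⟨e', τ, hy⟩ := exists_basis z hind t halg'
  obtain rfl := card_eq hn hy
  set y := Fin.append z (t ∘ τ) with hydef
  have hy0 : ∀ i, y i ≠ 0 := fun i => hy.1.ne_zero i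
  set S : Finset (Fin (d + e')) := Finset.univ.image (Fin.natAdd d) with hS
  have hyS : ∀ i ∈ S, ∃ j, y i = t (τ j) := by
    intro i hi
    obtain ⟨j, -, rfl⟩ := Finset.mem_image.1 hi
    refine ⟨j, ?_⟩
    rw [hydef, Fin.append_right]
    rfl
  have hyS' : ∀ i ∉ S, ∃ j, y i = z j := by
    intro i
    refine Fin.addCases (fun j _ => ⟨j, ?_⟩) (fun j hj => absurd ?_ hj) i
    · rw [hydef, Fin.append_left]
    · exact Finset.mem_image.2 ⟨j, Finset.mem_univ j, rfl⟩
  have himg : y '' {i | i ∉ S} = Set.range z := by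
    ext x
    constructor
    · rintro ⟨i, hi, rfl⟩
      obtain ⟨j, hj⟩ := hyS' i hi
      exact ⟨j, hj.symm⟩
    · rintro ⟨j, rfl⟩
      refine ⟨Fin.castAdd e' j, ?_, ?_⟩
      · intro h
        obtain ⟨j', -, hj'⟩ := Finset.mem_image.1 h
        have h1 := congrArg Fin.val hj'
        rw [Fin.val_natAdd, Fin.val_castAdd] at h1
        have := j.isLt
        omega
      · rw [hydef, Fin.append_left]
  have hg0' : (∏ i ∈ S, y i)⁻¹ ≠ 0 :=
    inv_ne_zero (Finset.prod_ne_zero_iff.2 fun i _ => hy0 i)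
  obtain ⟨ψ, hψ0, hψ⟩ := exists_psi X p hy hg0'
  set D' : X.Div := p.logDiv - X.prin ψ with hD'
  have hadd : D' + X.prin ψ = p.logDiv := sub_add_cancel _ _
  have hrat : ratios X p.logDiv = ratios X D' := by rw [← hadd, ratios_add_prin X D' hψ0]
  have hiit : iitaka X p.logDiv = iitaka X D' := by
    unfold iitaka
    rw [hrat]
  rw [hiit] at hzQ halgQ
  have hval : ∀ P : X.primeDivisors, ∃ a : ℤ,
      P.1.IsOrd ((∏ i ∈ S, y i)⁻¹ • dform k y) a ∧ D' P = a + p.Δ P := by
    intro P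
    obtain ⟨a, ha, hPa⟩ := hψ P
    refine ⟨a, ha, ?_⟩
    rw [hD', Finsupp.sub_apply, ProjVar.prin_apply, ProjVar.Pair.logDiv, Finsupp.add_apply, hPa]
    ring
  have hQy : ∀ i ∉ S, y i ∈ iitaka X D' := by
    intro i hi
    obtain ⟨j, hj⟩ := hyS' i hi
    rw [hj]
    exact hzQ j
  have hunit' : ∀ P : X.primeDivisors, Hor (iitaka X D') P.1 → p.Δ P < 1 →
      ∀ i ∈ S, P.1 (y i) = 0 := by
    intro P hP hlt i hi
    obtain ⟨j, hj⟩ := hyS i hi
    rw [hj]
    refine hunit P hlt (fun q hq => hP q ?_) (τ j)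
    rw [← hiit]
    exact IntermediateField.subset_adjoin _ _ hq
  have hnn : ∀ P : X.primeDivisors, Hor (iitaka X D') P.1 → 0 ≤ D' P := by
    intro P hP
    obtain ⟨a, ha, hPa⟩ := hval P
    rw [hPa]
    exact (hor_facts X hy hy0 S _ hQy p.Δ p.nonneg hunit' P hP ha).1
  have hg₀' : ψ ^ M * g₀ ∈ X.H0 ((M : ℚ) • D') := by
    rw [← H0_add_prin X D' hψ0, hadd]
    exact hg₀
  have hz' : ∀ i, z i * (ψ ^ M * g₀) ∈ X.H0 ((M : ℚ) • D') := by
    intro i
    have h1 : z i * (ψ ^ M * g₀) = ψ ^ M * (z i * g₀) := by ring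
    rw [h1, ← H0_add_prin X D' hψ0, hadd]
    exact hz i
  have hg₀0' : ψ ^ M * g₀ ≠ 0 := mul_ne_zero (pow_ne_zero _ hψ0) hg₀0
  have hT : ∀ f : L, (∀ P : X.primeDivisors, Hor (iitaka X D') P.1 → D' P = 0 → 0 ≤ P.1 f) →
      f ∈ iitaka X D' := fun f hf =>
    mem_iitaka_of_hor X D' hM hg₀' hg₀0' z hz' halgQ hnn f hf
  have hνd : X.nu D' ≤ (d : EReal) := by
    refine nu_le X D' (iitaka X D') z halgQ fun A => ?_
    refine exists_span X hy hy0 S (iitaka X D') hQy ?_ D' p.Δ p.nonneg hval hunit' hT A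
    rw [himg]
    exact halgQ
  have hκd : (d : EReal) ≤ X.kod D' := le_kod X D' hM hg₀' hg₀0' z hz' hind
  have hκν : X.kod D' ≤ X.nu D' := Pool.Agent.Helper47.PQ.kod_le_nu D'
  have hκ : X.kod p.logDiv = X.kod D' := by rw [← hadd, ProjVar.kod_add_prin D' hψ0]
  have hν : X.nu p.logDiv = X.nu D' := by rw [← hadd, ProjVar.nu_add_prin D' hψ0]
  rw [hκ, hν]
  refine ⟨le_antisymm hκν (hνd.trans hκd), le_trans ?_ hκd⟩
  exact_mod_cast Nat.zero_le d

end Pool.Agent.Helper60.MA
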