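import Pool.Agent.Helper60.MA.Defs

set_option autoImplicit false

/-!
# MA-1 Toric: derivatives at a place where a logarithmic form has order -1

SETTING. `y` is a transcendence basis of `L` over `k`, `b` the basis `D y_i` of `Ω`, `S` a set of indices,
`y_i ≠ 0`, `v(y_i) = 0` for `i ∉ S`, and the form `f dy` has order `v(f) + ∑_{i ∈ S} v(y_i) - 1` at `v`
(that is, the logarithmic form `∧_{i ∉ S} dy_i ∧ ∧_{i ∈ S} dy_i / y_i` has order `-1`).
Write `∂_i g = b.repr (D g) i`.
CLAIM. For `g ≠ 0`: `v(y_i ∂_i g) ≥ v(g)` for `i ∈ S`, and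
`v(∑_{i ∈ S} v(y_i) y_i ∂_i g - v(g) g) ≥ v(g) + 1`.

PROOF. By `Forms.exists_coord` and `Forms.exists_coord_uniformizer` there are `z'`, a basis
`b' i = D (z' i)`, `i₀`, with `v(z'_i) ≥ 0`, `z'_{i₀} = π` of value `1`, all `∂'_i = b'.repr (D ·) i`
preserve the ring of `v`, and `f dy = u dz'` with `v(u) = a := v(f) + ∑_S v(y_i) - 1`.
For `g ≠ 0` define `φ(g) : Fin n → L` by `φ(g)_i = ∂'_i g / g` for `i ≠ i₀` and
`φ(g)_{i₀} = π ∂'_{i₀} g / g` (coordinates of `D g / g` in the basis `dz'_i`, `i ≠ i₀`, `dπ / π`).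
(1) `g = ε π ^ m`, `v(ε) = 0`, `m = v(g)`: `∂'_i g / g = ∂'_i ε / ε + m [i = i₀] / π` (Leibniz for the
  derivation `∂'_i`; `∂'_i π = [i = i₀]`). So all `φ(g)_i` have value `≥ 0` and
  `φ(g)_{i₀} - m` has value `≥ 1`.
(2) Let `A` be the `n × n` matrix whose column `j` is `φ(y_j)` for `j ∈ S`, and `y_j φ(y_j)`
  (coordinates of `D y_j`) for `j ∉ S`. Entries have value `≥ 0`. `det A` is a unit: by
  `Forms.dform_eq_det` (basis `b'`), `dy = det(∂'_i y_j) dz'`, so `f det(∂'_i y_j) = u`, and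
  `det A = π (∏_{j ∈ S} y_j)⁻¹ det(∂'_i y_j)` (multiply row `i₀` by `π`, column `j ∈ S` by
  `y_j⁻¹`) has value `1 - ∑_S v(y_j) + a - v(f) = 0`.
(3) For `g ≠ 0`: `D g / g = ∑_{j ∈ S} c_j (D y_j / y_j) + ∑_{j ∉ S} c_j D y_j` with
  `c_j = y_j ∂_j g / g` for `j ∈ S`, `c_j = ∂_j g / g` for `j ∉ S` (`b.sum_repr`). In coordinates:
  `φ(g) = A c`, so `c = A⁻¹ φ(g)` has all entries of value `≥ 0` (`A⁻¹ = det(A)⁻¹ adj(A)`, adjugate entries
  are determinants with entries in the ring; `Forms.det_mem_ring`). This gives the first claim.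
(4) Row `i₀` of `φ(g) = A c`: `φ(g)_{i₀} = ∑_{j ∈ S} φ(y_j)_{i₀} c_j + ∑_{j ∉ S} y_j φ(y_j)_{i₀} c_j`.
  For `j ∉ S`, `v(y_j) = 0` and so `y_j φ(y_j)_{i₀} = π ∂'_{i₀} y_j` has value `≥ 1`; for `j ∈ S`,
  `φ(y_j)_{i₀} - v(y_j)` has value `≥ 1`; `φ(g)_{i₀} - v(g)` has value `≥ 1`. Hence
  `∑_{j ∈ S} v(y_j) c_j - v(g)` has value `≥ 1`. Multiply by `g`.
-/

namespace Pool.Agent.Helper60.MA

open Pool.Agent.Helper92.Weak Module
open scoped KaehlerDifferential

open Pool.Agent.Helper50.Forms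

/-- Coordinates of a logarithmic differential. -/
private theorem repr_dl {k L : Type*} [Field k] [CharZero k] [Field L] [Algebra k L] {n : ℕ}
    (v : DVal k L) {p : L} (hp0 : p ≠ 0) (hp : v p = 1) {z : Fin n → L}
    (b : Basis (Fin n) L Ω[L⁄k]) (hb : ∀ i, b i = KaehlerDifferential.D k L (z i))
    (hc : ∀ y, 0 ≤ v y → ∀ i, 0 ≤ v (b.repr (KaehlerDifferential.D k L y) i))
    {i₀ : Fin n} (hi₀ : z i₀ = p) {g : L} (hg : g ≠ 0) (i : Fin n) :
    v.Ge 0 (b.repr (dl k g) i - (if i = i₀ then (v g : L) * p⁻¹ else 0)) := by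
  set e : L := g * p ^ (-(v g)) with he
  have hpz : p ^ (-(v g)) ≠ 0 := zpow_ne_zero _ hp0
  have he0 : e ≠ 0 := mul_ne_zero hg hpz
  have hve : v e = 0 := by
    rw [he, v.map_mul hg hpz, v.map_zpow, hp]
    ring
  have h1 : dl k e = dl k g + ((-(v g) : ℤ) : L) • dl k p := by
    rw [he, dl_mul hg hpz, dl_zpow hp0]
  have h2 : dl k g = dl k e + ((v g : ℤ) : L) • dl k p := by
    rw [h1, add_assoc, ← add_smul]
    push_cast
    rw [neg_add_cancel, zero_smul, add_zero]
  have h3 : b.repr (dl k p) i = if i = i₀ then p⁻¹ else 0 := by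
    unfold dl
    rw [← hi₀, ← hb, map_smul, Finsupp.smul_apply, b.repr_self, Finsupp.single_apply, smul_eq_mul]
    by_cases h : i = i₀
    · rw [if_pos h, if_pos h.symm, mul_one]
    · rw [if_neg h, if_neg fun h' => h h'.symm, mul_zero]
  have h4 : b.repr (dl k g) i - (if i = i₀ then (v g : L) * p⁻¹ else 0) = b.repr (dl k e) i := by
    rw [h2, map_add, map_smul, Finsupp.add_apply, Finsupp.smul_apply, h3, smul_eq_mul]
    split_ifs
    · ring
    · ring
  rw [h4]
  unfold dl
  rw [map_smul, Finsupp.smul_apply, smul_eq_mul]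
  have h5 : v.Ge 0 e⁻¹ := by
    right
    rw [v.map_inv, hve]
    norm_num
  have h6 := h5.mul (ge_of_mem v (hc e hve.ge i))
  rwa [add_zero] at h6

/-- Cramer's rule over the valuation ring. -/
private theorem ge_of_mulVec {k L : Type*} [Field k] [Field L] [Algebra k L] {n : ℕ}
    (v : DVal k L) (A : Matrix (Fin n) (Fin n) L) (hA : ∀ i j, v.Ge 0 (A i j)) (hd0 : A.det ≠ 0)
    (hd : v A.det = 0) (c : Fin n → L) (hc : ∀ i, v.Ge 0 ((A.mulVec c) i)) (i : Fin n) :
    v.Ge 0 (c i) := by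
  classical
  have h1 : A.det • c = Matrix.cramer A (A.mulVec c) := by
    rw [Matrix.cramer_eq_adjugate_mulVec, Matrix.mulVec_mulVec, Matrix.adjugate_mul,
      Matrix.smul_mulVec, Matrix.one_mulVec]
  have h2 : A.det * c i = (A.updateCol i (A.mulVec c)).det := by
    rw [← Matrix.cramer_apply, ← h1, Pi.smul_apply, smul_eq_mul]
  have h3 : (A.updateCol i (A.mulVec c)).det ∈ v.ring := by
    refine det_mem_ring v _ fun a j => ?_
    rw [Matrix.updateCol_apply]
    split_ifs
    · exact v.mem_ring_iff_ge.2 (hc a)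
    · exact v.mem_ring_iff_ge.2 (hA a j)
  rw [← h2] at h3
  have h4 : v.Ge 0 (A.det)⁻¹ := by
    right
    rw [v.map_inv, hd]
    norm_num
  have h5 := h4.mul (ge_of_mem v h3)
  rwa [add_zero, inv_mul_cancel_left₀ hd0] at h5

theorem toric {k L : Type*} [Field k] [CharZero k] [Field L] [Algebra k L] {n : ℕ} {y : Fin n → L}
    (hy : IsTranscendenceBasis k y) (b : Basis (Fin n) L Ω[L⁄k])
    (hb : ∀ i, b i = KaehlerDifferential.D k L (y i)) (v : DVal k L) (S : Finset (Fin n))
    (h0 : ∀ i, y i ≠ 0) (hS : ∀ i ∉ S, v (y i) = 0) {f : L} (hf : f ≠ 0)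
    (hord : v.IsOrd (f • dform k y) (v f + ∑ i ∈ S, v (y i) - 1)) (g : L) (hg : g ≠ 0) :
    (∀ i ∈ S, v.Ge (v g) (y i * b.repr (KaehlerDifferential.D k L g) i)) ∧
    v.Ge (v g + 1) (∑ i ∈ S, (v (y i) : L) * (y i * b.repr (KaehlerDifferential.D k L g) i) -
      (v g : L) * g) := by
  classical
  obtain ⟨p, hp0, hp⟩ := v.exists_uniformizer
  obtain ⟨z, b₁, f₁, hb₁, hz₁, hc₁, hf₁, hvf₁, hω⟩ :=
    exists_coord v b (smul_ne_zero hf (dform_ne_zero y b hb)) hord
  obtain ⟨z', b', i₀, u, hb', -, hc', hi₀, hu0, hu, hdz⟩ :=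
    exists_coord_uniformizer hy v p hp z b₁ hb₁ hz₁ hc₁
  set M : Matrix (Fin n) (Fin n) L :=
    b'.toMatrix (fun j => KaehlerDifferential.D k L (y j)) with hM
  have hfu : f * M.det = f₁ * u := by
    rw [dform_eq_det z' b' hb' y, smul_smul, hdz, smul_smul] at hω
    exact smul_dform_inj z' b' hb' hω
  have hMd0 : M.det ≠ 0 := by
    intro h
    rw [h, mul_zero] at hfu
    exact mul_ne_zero hf₁ hu0 hfu.symm
  have hvM : v M.det = ∑ i ∈ S, v (y i) - 1 := by
    have h1 := congrArg v.toFun hfu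
    rw [v.map_mul hf hMd0, v.map_mul hf₁ hu0, hvf₁, hu] at h1
    linarith
  -- the scaling factors
  set q : Fin n → L := fun i => if i = i₀ then p else 1 with hq
  set r : Fin n → L := fun j => if j ∈ S then (y j)⁻¹ else 1 with hr
  have hr0 : ∀ j, r j ≠ 0 := by
    intro j
    simp only [hr]
    split_ifs
    · exact inv_ne_zero (h0 j)
    · exact one_ne_zero
  have hqge : ∀ i, v.Ge 0 (q i) := by
    intro i
    right
    simp only [hq]
    split_ifs
    · rw [hp]; norm_num
    · rw [v.map_one]; norm_num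
  have hqprod : ∏ i, q i = p := by
    simp only [hq, Finset.prod_ite_eq', Finset.mem_univ, if_true]
  have hrprod : ∏ j, r j = ∏ j ∈ S, (y j)⁻¹ := by
    simp only [hr]
    rw [Finset.prod_ite_mem, Finset.univ_inter]
  have hrprod0 : ∏ j ∈ S, (y j)⁻¹ ≠ 0 := Finset.prod_ne_zero_iff.2 fun j _ => inv_ne_zero (h0 j)
  have hvr : v (∏ j ∈ S, (y j)⁻¹) = -∑ j ∈ S, v (y j) := by
    rw [v.map_prod _ _ fun j _ => inv_ne_zero (h0 j), ← Finset.sum_neg_distrib]
    exact Finset.sum_congr rfl fun j _ => v.map_inv _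
  set A : Matrix (Fin n) (Fin n) L := Matrix.of fun i j => q i * (Matrix.of fun i j => r j * M i j) i j
    with hA
  have hAdet : A.det = p * ((∏ j ∈ S, (y j)⁻¹) * M.det) := by
    rw [hA, Matrix.det_mul_column, Matrix.det_mul_row, hqprod, hrprod]
  have hAd0 : A.det ≠ 0 := by
    rw [hAdet]
    exact mul_ne_zero hp0 (mul_ne_zero hrprod0 hMd0)
  have hAd : v A.det = 0 := by
    rw [hAdet, v.map_mul hp0 (mul_ne_zero hrprod0 hMd0), v.map_mul hrprod0 hMd0, hp, hvr, hvM]
    ring
  have hAij : ∀ i j, A i j = q i * (r j * b'.repr (KaehlerDifferential.D k L (y j)) i) := by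
    intro i j
    rw [hA, Matrix.of_apply, Matrix.of_apply, hM, Basis.toMatrix_apply]
  -- the coordinates of logarithmic differentials
  have hphi : ∀ x : L, x ≠ 0 → ∀ i, v.Ge 0 (q i * b'.repr (dl k x) i) := by
    intro x hx i
    have h1 := repr_dl v hp0 hp b' hb' hc' hi₀ hx i
    have h2 : q i * b'.repr (dl k x) i =
        q i * (b'.repr (dl k x) i - (if i = i₀ then (v x : L) * p⁻¹ else 0)) +
          (if i = i₀ then (v x : L) else 0) := by
      simp only [hq]
      split_ifs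
      · field_simp
        ring
      · ring
    rw [h2]
    have h3 := (hqge i).mul h1
    rw [add_zero] at h3
    refine h3.add ?_
    split_ifs
    · right
      rw [v_intCast]
      norm_num
    · exact DVal.Ge.zero
  have hphi0 : ∀ x : L, x ≠ 0 → v.Ge 1 (q i₀ * b'.repr (dl k x) i₀ - (v x : L)) := by
    intro x hx
    have h1 := repr_dl v hp0 hp b' hb' hc' hi₀ hx i₀
    rw [if_pos rfl] at h1
    have h2 : q i₀ * b'.repr (dl k x) i₀ - (v x : L) =
        p * (b'.repr (dl k x) i₀ - (v x : L) * p⁻¹) := by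
      simp only [hq, if_true]
      field_simp
    rw [h2]
    have h3 : v.Ge 1 p := by
      right
      rw [hp]
      norm_num
    have h4 := h3.mul h1
    rwa [add_zero] at h4
  have hAS : ∀ i, ∀ j ∈ S, A i j = q i * b'.repr (dl k (y j)) i := by
    intro i j hj
    rw [hAij]
    simp only [hr, if_pos hj]
    unfold dl
    rw [map_smul, Finsupp.smul_apply, smul_eq_mul]
  have hAN : ∀ i, ∀ j ∉ S, A i j = q i * b'.repr (KaehlerDifferential.D k L (y j)) i := by
    intro i j hj
    rw [hAij]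
    simp only [hr, if_neg hj, one_mul]
  have hAge : ∀ i j, v.Ge 0 (A i j) := by
    intro i j
    by_cases hj : j ∈ S
    · rw [hAS i j hj]
      exact hphi (y j) (h0 j) i
    · rw [hAN i j hj]
      have h1 := (hqge i).mul (ge_of_mem v (hc' (y j) (hS j hj).ge i))
      rwa [add_zero] at h1
  have hA0 : ∀ j, v.Ge 1 (A i₀ j - (if j ∈ S then (v (y j) : L) else 0)) := by
    intro j
    by_cases hj : j ∈ S
    · rw [hAS i₀ j hj, if_pos hj]
      exact hphi0 (y j) (h0 j)
    · rw [hAN i₀ j hj, if_neg hj, sub_zero]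
      have h1 : v.Ge 1 (q i₀) := by
        right
        simp only [hq, if_true]
        rw [hp]
        norm_num
      have h2 := h1.mul (ge_of_mem v (hc' (y j) (hS j hj).ge i₀))
      rwa [add_zero] at h2
  -- the linear system
  set c : Fin n → L := fun j => (r j)⁻¹ * b.repr (KaehlerDifferential.D k L g) j * g⁻¹ with hc
  have hmul : ∀ i, (A.mulVec c) i = q i * b'.repr (dl k g) i := by
    intro i
    have h1 : b'.repr (KaehlerDifferential.D k L g) i =
        ∑ j, b.repr (KaehlerDifferential.D k L g) j *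
          b'.repr (KaehlerDifferential.D k L (y j)) i := by
      conv_lhs => rw [← b.sum_repr (KaehlerDifferential.D k L g)]
      rw [map_sum, Finsupp.finsetSum_apply]
      refine Finset.sum_congr rfl fun j _ => ?_
      rw [map_smul, Finsupp.smul_apply, smul_eq_mul, hb]
    unfold dl
    rw [map_smul, Finsupp.smul_apply, smul_eq_mul, h1, Finset.mul_sum, Finset.mul_sum]
    simp only [Matrix.mulVec, dotProduct]
    refine Finset.sum_congr rfl fun j _ => ?_
    rw [hAij]
    simp only [hc]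
    have := hr0 j
    field_simp
  have hcge : ∀ j, v.Ge 0 (c j) := by
    refine ge_of_mulVec v A hAge hAd0 hAd c fun i => ?_
    rw [hmul]
    exact hphi g hg i
  have hcS : ∀ j ∈ S, c j * g = y j * b.repr (KaehlerDifferential.D k L g) j := by
    intro j hj
    simp only [hc, hr, if_pos hj, inv_inv]
    field_simp
  have hgg : v.Ge (v g) g := DVal.ge_self g
  constructor
  · intro j hj
    rw [← hcS j hj]
    have h1 := (hcge j).mul hgg
    rwa [zero_add] at h1
  · have h1 : ∑ i ∈ S, (v (y i) : L) * (y i * b.repr (KaehlerDifferential.D k L g) i) -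
        (v g : L) * g = (∑ i ∈ S, (v (y i) : L) * c i - (v g : L)) * g := by
      rw [sub_mul, Finset.sum_mul]
      congr 1
      refine Finset.sum_congr rfl fun j hj => ?_
      rw [← hcS j hj]
      ring
    have h2 : ∑ i ∈ S, (v (y i) : L) * c i - (v g : L) =
        (q i₀ * b'.repr (dl k g) i₀ - (v g : L)) -
          ∑ j, (A i₀ j - (if j ∈ S then (v (y j) : L) else 0)) * c j := by
      have h3 : ∑ i ∈ S, (v (y i) : L) * c i =
          ∑ j, (if j ∈ S then (v (y j) : L) else 0) * c j := by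
        simp only [ite_mul, zero_mul]
        rw [Finset.sum_ite_mem, Finset.univ_inter]
      have h4 : q i₀ * b'.repr (dl k g) i₀ = ∑ j, A i₀ j * c j := by
        rw [← hmul]
        rfl
      rw [h3, h4]
      simp only [sub_mul, Finset.sum_sub_distrib]
      ring
    have h5 : v.Ge 1 (∑ i ∈ S, (v (y i) : L) * c i - (v g : L)) := by
      rw [h2]
      refine (hphi0 g hg).sub (DVal.Ge.sum fun j _ => ?_)
      have h6 := (hA0 j).mul (hcge j)
      rwa [add_zero] at h6
    rw [h1]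
    have h7 := h5.mul hgg
    exact h7.mono (by linarith)

end Pool.Agent.Helper60.MA
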