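import Pool.Agent.Helper60.MA.Hor
import Pool.Agent.Helper60.MA.Key
import Pool.Agent.Helper60.MA.Toric
import Pool.Agent.Helper60.MA.Ops

set_option autoImplicit false

/-!
# MA-9b Span: all spaces `H⁰(m D + A)` lie in one finite dimensional space over the Iitaka field

SETTING. `y` a transcendence basis of `L / k`, `y_i ≠ 0`, `S` the set of indices of the units,
`Q` a field between `k` and `L` with `y_i ∈ Q` for `i ∉ S`, algebraic over `k(y_i : i ∉ S)`.
`ω = (∏_{i ∈ S} y_i)⁻¹ dy`, `D = div(ω) + Δ`, `Δ ≥ 0`. `P` is horizontal if it is trivial on `Q`. The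
`y_i`, `i ∈ S`, are units at all horizontal `P` with `Δ(P) < 1`.

`exists_span`. Assume (T): every `f` with `v_P(f) ≥ 0` for all horizontal `P` with `D(P) = 0` is in `Q`.
Then for every divisor `A` there is a finite dimensional `Q`-subspace `E` of `L` containing
`H⁰(m D + A)` for all `m`.
PROOF. `β = {P | P horizontal, Δ(P) = 1, ω has order -1 at P}`, finite (contained in the support of `Δ`);
`v B = B.over Q` (`DVal.over`). `U = {P | P horizontal, Δ(P) = 0, order 0, y_i units}`.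
`O = {f | v_P(f) ≥ 0 for P ∈ U}`, a subalgebra over `Q`. `δ` from `exists_ops` (basis `b` from
`Forms.exists_kaehler_basis`), `ι = S` (as a type, `t i = y i`).
* `hO`: for `P ∈ U`, `v_P(f) ≥ 0 ⇒ v_P(∂_i f) ≥ 0` by `Forms.partial_mem` (coordinates `y`, all of value
  `0`, coefficient `(∏ y_i)⁻¹` of value `0`), and `δ_i f = y_i ∂_i f`.
* `h1`, `h2`: `toric` with `f = (∏_{i ∈ S} y_i)⁻¹`, `v(f) + ∑ v(y_i) - 1 = -1`.
* `hQ`: (T) and `hor_facts`. `hac`: an element algebraic over `Q` has value `0` at all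
  horizontal `P` (`dval_algebraic`), so it is in `Q` by (T).
So `box O v c` is finite dimensional for all `c` (`key`).
For `P ∈ U` there is `F_P ∈ O`, `F_P ≠ 0`, `v_P(F_P) ≥ 1`: otherwise `v_P` is `0` on the nonzero elements of
`R = k[y_1, ..., y_n] ⊆ O` (all `y_i` have value `0` at all `P' ∈ U`, `R ⊆ O`), hence on its fraction field
(`IntermediateField.adjoin k (range y)`, `mem_adjoin_iff_div`), hence on `L`, algebraic over it
(`dval_algebraic`), contradicting surjectivity. Let `g = ∏ F_P ^ {⌈A(P)⌉₊}` over the `P ∈ U` in the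
support of `A`; for `f ∈ H⁰(m D + A)`: `g f ∈ O` (`P ∈ U`: `v_P(f) ≥ -A(P)` as `D(P) = 0`), and for `B ∈ β`,
`v_B(g f) ≥ -c_B` with `c_B = ⌈A(B)⌉ - v_B(g)` (as `D(B) = 0`). So
`g f ∈ box O v c`; take `E = g⁻¹ box O v c` (image under multiplication by `g⁻¹`).
-/

namespace Pool.Agent.Helper60.MA

open Pool.Agent.Helper92.Weak

variable {k L : Type*} [Field k] [CharZero k] [Field L] [Algebra k L]

/-- The form has order `-1`, written as in `toric`. -/
private def P_ord (v : DVal k L) {n : ℕ} (y : Fin n → L) (S : Finset (Fin n)) : Prop :=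
  v.IsOrd ((∏ i ∈ S, y i)⁻¹ • dform k y) (v ((∏ i ∈ S, y i)⁻¹) + ∑ i ∈ S, v (y i) - 1)

theorem exists_span (X : ProjVar k L) {n : ℕ} {y : Fin n → L} (hy : IsTranscendenceBasis k y)
    (hy0 : ∀ i, y i ≠ 0) (S : Finset (Fin n)) (Q : IntermediateField k L)
    (hQy : ∀ i ∉ S, y i ∈ Q)
    (hQ : ∀ x ∈ Q, IsAlgebraic (IntermediateField.adjoin k (y '' {i | i ∉ S})) x)
    (D Δ : X.Div) (hΔ : ∀ P, 0 ≤ Δ P)
    (hD : ∀ P : X.primeDivisors, ∃ a : ℤ, P.1.IsOrd ((∏ i ∈ S, y i)⁻¹ • dform k y) a ∧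
      D P = a + Δ P)
    (hunit : ∀ P : X.primeDivisors, Hor Q P.1 → Δ P < 1 → ∀ i ∈ S, P.1 (y i) = 0)
    (hT : ∀ f : L, (∀ P : X.primeDivisors, Hor Q P.1 → D P = 0 → 0 ≤ P.1 f) → f ∈ Q)
    (A : X.Div) :
    ∃ E : Submodule Q L, FiniteDimensional Q E ∧
      ∀ (m : ℕ), ∀ f ∈ X.H0 ((m : ℚ) • D + A), f ∈ E := by
  classical
  obtain ⟨b, hb⟩ := Pool.Agent.Helper50.Forms.exists_kaehler_basis hy
  obtain ⟨δ, hδS, -, hδcomm⟩ := exists_ops b hb Q S hQ
  have hp0 : (∏ i ∈ S, y i)⁻¹ ≠ 0 := inv_ne_zero (Finset.prod_ne_zero_iff.2 fun i _ => hy0 i)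
  have hvp : ∀ v : DVal k L, v ((∏ i ∈ S, y i)⁻¹) = -∑ i ∈ S, v (y i) := by
    intro v
    rw [v.map_inv, v.map_prod S y fun i _ => hy0 i]
  -- the divisors of the two kinds
  let U := {P : X.primeDivisors // Hor Q P.1 ∧ Δ P = 0 ∧ D P = 0}
  let β := {P : X.primeDivisors // Hor Q P.1 ∧ Δ P = 1 ∧ D P = 0}
  have hβfin : Finite β := by
    have h1 : Set.Finite {P : X.primeDivisors | Hor Q P.1 ∧ Δ P = 1 ∧ D P = 0} := by
      refine Δ.support.finite_toSet.subset ?_
      rintro P ⟨-, hP, -⟩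
      rw [Finset.mem_coe, Finsupp.mem_support_iff, hP]
      exact one_ne_zero
    exact h1.to_subtype
  have hβf : Fintype β := Fintype.ofFinite β
  have hcase : ∀ P : X.primeDivisors, Hor Q P.1 → D P = 0 →
      (Δ P = 0 ∧ D P = 0) ∨ (Δ P = 1 ∧ D P = 0) := by
    intro P hP hDP
    obtain ⟨a, ha, haD⟩ := hD P
    rcases (hor_facts X hy hy0 S Q hQy Δ hΔ hunit P hP ha).2 (by rw [← haD]; exact hDP) with h | h
    · exact Or.inl ⟨h.1, hDP⟩
    · exact Or.inr ⟨h.1, hDP⟩
  have hUy : ∀ P : U, ∀ i, P.1.1 (y i) = 0 := by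
    intro P i
    by_cases hi : i ∈ S
    · exact hunit P.1 P.2.1 (by rw [P.2.2.1]; exact one_pos) i hi
    · exact P.2.1 _ (hQy i hi)
  have hUord : ∀ P : U, P.1.1.IsOrd ((∏ i ∈ S, y i)⁻¹ • dform k y)
      (P.1.1 ((∏ i ∈ S, y i)⁻¹)) := by
    intro P
    obtain ⟨a, ha, haD⟩ := hD P.1
    have h1 : a = 0 := by
      rw [P.2.2.1, P.2.2.2, add_zero] at haD
      exact_mod_cast haD.symm
    rw [hvp, Finset.sum_eq_zero fun i _ => hUy P i, neg_zero]
    rwa [h1] at ha
  have hβord : ∀ B : β, P_ord B.1.1 y S := by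
    intro B
    obtain ⟨a, ha, haD⟩ := hD B.1
    have h1 : a = -1 := by
      rw [B.2.2.1, B.2.2.2] at haD
      have : (a : ℚ) = ((-1 : ℤ) : ℚ) := by push_cast; linarith
      exact_mod_cast this
    unfold P_ord
    rw [hvp]
    have h2 : -∑ i ∈ S, B.1.1 (y i) + ∑ i ∈ S, B.1.1 (y i) - 1 = -1 := by ring
    rw [h2]
    rwa [h1] at ha
  have hov : ∀ v : DVal k L, Hor Q v → ∀ a : Q, v (algebraMap Q L a) = 0 := fun v hv a => hv a.1 a.2
  -- the ring
  let O : Subalgebra Q L := ⨅ P : U, (P.1.1.over Q (hov _ P.2.1)).ring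
  have hO : ∀ f : L, f ∈ O ↔ ∀ P : U, 0 ≤ P.1.1 f := by
    intro f
    change f ∈ ⨅ P : U, (P.1.1.over Q (hov _ P.2.1)).ring ↔ _
    rw [Algebra.mem_iInf]
    exact Iff.rfl
  let v : β → DVal Q L := fun B => B.1.1.over Q (hov _ B.2.1)
  have hv : ∀ B f, v B f = B.1.1 f := fun _ _ => rfl
  have hvge : ∀ B (c : ℚ) f, (v B).Ge c f ↔ B.1.1.Ge c f := fun _ _ _ => Iff.rfl
  have htor : ∀ (B : β) (g : L), g ≠ 0 →
      (∀ i ∈ S, B.1.1.Ge (B.1.1 g) (y i * b.repr (KaehlerDifferential.D k L g) i)) ∧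
      B.1.1.Ge (B.1.1 g + 1) (∑ i ∈ S, (B.1.1 (y i) : L) *
        (y i * b.repr (KaehlerDifferential.D k L g) i) - (B.1.1 g : L) * g) := by
    intro B g hg
    refine toric hy b hb B.1.1 S hy0 (fun i hi => B.2.1 _ (hQy i hi)) hp0 ?_ g hg
    exact hβord B
  -- transcendental functions
  have hQT : ∀ f : L, f ∈ O → (∀ B, 0 ≤ v B f) → ∃ q : Q, f = algebraMap Q L q := by
    intro f hf hB
    have h1 : f ∈ Q := by
      refine hT f fun P hP hDP => ?_
      rcases hcase P hP hDP with h | h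
      · exact (hO f).1 hf ⟨P, hP, h⟩
      · exact hB ⟨P, hP, h⟩
    exact ⟨⟨f, h1⟩, rfl⟩
  have hac : ∀ x : L, IsAlgebraic Q x → ∃ q : Q, x = algebraMap Q L q := by
    intro x hx
    have h1 : x ∈ Q := by
      refine hT x fun P hP _ => ?_
      rw [dval_algebraic P.1 Q hP hx]
    exact ⟨⟨x, h1⟩, rfl⟩
  have hbox : ∀ c : β → ℤ, FiniteDimensional Q (box O v c) := by
    intro c
    refine key (ι := S) (fun i => δ i.1) (fun i j f => hδcomm i.1 j.1 f) (fun i => y i.1)
      (fun i => hy0 i.1) v ?_ ?_ O ?_ ?_ hQT hac c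
    · intro B i f hf
      rw [hvge, hδS i.1 i.2]
      exact (htor B f hf).1 i.1 i.2
    · intro B f hf
      rw [hvge]
      have h1 : ∑ i : S, (v B (y i.1) : L) * δ i.1 f = ∑ i ∈ S, (B.1.1 (y i) : L) *
          (y i * b.repr (KaehlerDifferential.D k L f) i) := by
        rw [← Finset.sum_coe_sort S fun i => (B.1.1 (y i) : L) *
          (y i * b.repr (KaehlerDifferential.D k L f) i)]
        refine Finset.sum_congr rfl fun i _ => ?_
        rw [hδS i.1 i.2, hv]
      rw [h1]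
      exact (htor B f hf).2
    · intro i f hf
      rw [hO] at hf ⊢
      intro P
      rw [hδS i.1 i.2]
      have h1 := Pool.Agent.Helper50.Forms.partial_mem P.1.1 y b hb (fun j => (hUy P j).ge) hp0
        (hUord P) f (hf P) i.1
      have h2 : y i.1 * b.repr (KaehlerDifferential.D k L f) i.1 ∈ P.1.1.ring :=
        P.1.1.ring.mul_mem (hUy P i.1).ge h1
      exact h2
    · intro i
      rw [hO, hO]
      refine ⟨fun P => (hUy P i.1).ge, fun P => ?_⟩
      rw [P.1.1.map_inv, hUy P i.1, neg_zero]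
  -- elements of positive value
  have hFP : ∀ P : U, ∃ F : L, F ∈ O ∧ F ≠ 0 ∧ 1 ≤ P.1.1 F := by
    intro P
    by_contra hcon
    push Not at hcon
    have hz : ∀ F : L, F ∈ O → P.1.1 F = 0 := by
      intro F hF
      by_cases hF0 : F = 0
      · rw [hF0, P.1.1.map_zero]
      · have h1 := hcon F hF hF0
        have h2 := (hO F).1 hF P
        omega
    have hsub : Algebra.adjoin k (Set.range y) ≤ O.restrictScalars k := by
      refine Algebra.adjoin_le ?_
      rintro _ ⟨i, rfl⟩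
      change y i ∈ O
      rw [hO]
      exact fun P' => (hUy P' i).ge
    have hK : ∀ x ∈ IntermediateField.adjoin k (Set.range y), P.1.1 x = 0 := by
      intro x hx
      obtain ⟨r, hr, s, hs, rfl⟩ := IntermediateField.mem_adjoin_iff_div.1 hx
      have h1 : P.1.1 r = 0 := hz r (hsub hr)
      have h2 : P.1.1 s = 0 := hz s (hsub hs)
      by_cases hr0 : r = 0
      · rw [hr0, zero_div, P.1.1.map_zero]
      by_cases hs0 : s = 0
      · rw [hs0, div_zero, P.1.1.map_zero]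
      rw [P.1.1.map_div hr0 hs0, h1, h2, sub_zero]
    obtain ⟨p, hp⟩ := P.1.1.surj'
    have h3 : P.1.1 p = 0 :=
      dval_algebraic P.1.1 _ hK (hy.isAlgebraic_field.isAlgebraic p)
    have h4 : P.1.1 p = 1 := hp
    omega
  choose F hFO hF0 hF1 using hFP
  let F' : X.primeDivisors → L := fun P =>
    if h : Hor Q P.1 ∧ Δ P = 0 ∧ D P = 0 then F ⟨P, h⟩ ^ ⌈A P⌉₊ else 1
  have hF'O : ∀ P, F' P ∈ O := by
    intro P
    by_cases h : Hor Q P.1 ∧ Δ P = 0 ∧ D P = 0
    · simp only [F', dif_pos h]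
      exact O.pow_mem (hFO _) _
    · simp only [F', dif_neg h]
      exact O.one_mem
  have hF'0 : ∀ P, F' P ≠ 0 := by
    intro P
    by_cases h : Hor Q P.1 ∧ Δ P = 0 ∧ D P = 0
    · simp only [F', dif_pos h]
      exact pow_ne_zero _ (hF0 _)
    · simp only [F', dif_neg h]
      exact one_ne_zero
  set g : L := ∏ P ∈ A.support, F' P with hg
  have hgO : g ∈ O := O.prod_mem fun P _ => hF'O P
  have hg0 : g ≠ 0 := Finset.prod_ne_zero_iff.2 fun P _ => hF'0 P
  have hgA : ∀ P : U, A P.1 ≤ P.1.1 g := by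
    intro P
    by_cases hPA : P.1 ∈ A.support
    · have h1 : P.1.1 g = ∑ P' ∈ A.support, P.1.1 (F' P') := by
        rw [hg, P.1.1.map_prod _ _ fun P' _ => hF'0 P']
      have h2 : P.1.1 (F' P.1) ≤ ∑ P' ∈ A.support, P.1.1 (F' P') :=
        Finset.single_le_sum (f := fun P' => P.1.1 (F' P'))
          (fun P' _ => (hO _).1 (hF'O P') P) hPA
      have h3 : (⌈A P.1⌉₊ : ℤ) ≤ P.1.1 (F' P.1) := by
        simp only [F', dif_pos P.2]
        rw [P.1.1.map_pow]
        have h4 := hF1 P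
        have h5 : (0 : ℤ) ≤ (⌈A P.1⌉₊ : ℤ) := by positivity
        nlinarith
      have h4 : ((⌈A P.1⌉₊ : ℤ) : ℚ) ≤ ((P.1.1 g : ℤ) : ℚ) := by
        rw [h1]
        exact_mod_cast h3.trans h2
      refine le_trans ?_ h4
      have h5 := Nat.le_ceil (A P.1)
      exact_mod_cast h5
    · rw [Finsupp.notMem_support_iff.1 hPA]
      exact_mod_cast (hO g).1 hgO P
  let c : β → ℤ := fun B => ⌈A B.1⌉ - B.1.1 g
  have hfd := hbox c
  refine ⟨(box O v c).map (LinearMap.mulLeft Q g⁻¹), Module.Finite.map _ _, ?_⟩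
  intro m f hf
  rw [mem_H0] at hf
  have hmem : g * f ∈ box O v c := by
    rw [mem_box]
    constructor
    · rw [hO]
      intro P
      have h1 := hf P.1
      rw [Finsupp.add_apply, Finsupp.smul_apply, P.2.2.2, smul_zero, zero_add] at h1
      have h2 : P.1.1.Ge (P.1.1 g + -(A P.1)) (g * f) := (P.1.1.ge_self g).mul h1
      have h3 : P.1.1.Ge 0 (g * f) := h2.mono (by have := hgA P; linarith)
      exact P.1.1.mem_ring_iff_ge.2 h3
    · intro B
      rw [hvge]
      have h1 := hf B.1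
      rw [Finsupp.add_apply, Finsupp.smul_apply, B.2.2.2, smul_zero, zero_add] at h1
      have h2 : B.1.1.Ge (B.1.1 g + -(A B.1)) (g * f) := (B.1.1.ge_self g).mul h1
      refine h2.mono ?_
      have h3 := Int.le_ceil (A B.1)
      simp only [c]
      push_cast
      linarith
  refine Submodule.mem_map.2 ⟨g * f, hmem, ?_⟩
  rw [LinearMap.mulLeft_apply, inv_mul_cancel_left₀ hg0]

end Pool.Agent.Helper60.MA
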